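import Mathlib

/-!
# MDX CombA: asymptotics and the number of levels

`comb_asym`: take logarithms.  `L = log N`, `ℓ ≤ L^(1-t) + 2 ≤ 3 L^(1-t)`; `log(left) = Dℓ (log D + log ℓ + C0 log L) + Dℓ^2 log 2`;
`log ℓ ≤ log 3 + log L`; so `log(left) ≤ 3 D L^(1-t) (C' + (C0+1) log L) + 9 D L^(2(1-t)) = o(L^t2)` because `1 - t < t2` and `2 (1-t) < t2` (both from `2 (1-t) < t2`, `t < 1`).
(`isLittleO_log_rpow_atTop`, `tendsto_rpow_atTop`, ...)
`comb_lvl`: `ℓ - 1` = the least natural number `k` with `n ≤ P^k`.  Such `k ≤ L^(1-t) + 1`, because for `k ≥ L^(1-t)`: `P^k ≥ exp(k L^t) ≥ exp(L) = N ≥ n`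
(`Nat.find` and `Nat.ceil`).  If `k = 0` then `n = 1`: `n P = P = P^1 ≤ n P^2`; if `k ≥ 1` then `P^(k-1) < n ≤ P^k`: `n P ≤ P^(k+1) ≤ n P^2` (see `Comb_exists_level` in
`Pool/Agent/H53/MID/Comb.lean`).
-/

set_option autoImplicit false

namespace Pool.Agent.H74.MDX

theorem comb_asym (t t2 : ℝ) (ht1 : t < 1) (ht2 : 2 * (1 - t) < t2) (D C0 : ℕ) : ∃ N0 : ℕ, ∀ N : ℕ, N0 ≤ N →
    ∀ ℓ : ℕ, 1 ≤ ℓ → (ℓ : ℝ) ≤ Real.log N ^ (1 - t) + 2 →
      ((D : ℝ) * ℓ * Real.log N ^ C0) ^ (D * ℓ) * 2 ^ (D * ℓ ^ 2) ≤ Real.exp (Real.log N ^ t2) := by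
  have ht : 0 < 1 - t := by linarith
  have ht3 : 0 < t2 - 2 * (1 - t) := by linarith
  set A : ℝ := D + 2 + (1 - t) + C0 with hA
  set K : ℝ := 3 * D * A + 9 * D with hK
  have e1 : ∀ᶠ L : ℝ in Filter.atTop, 1 ≤ L := Filter.eventually_ge_atTop 1
  have e2 : ∀ᶠ L : ℝ in Filter.atTop, Real.log L ≤ L ^ (1 - t) := by
    have h1 := (isLittleO_log_rpow_atTop ht).bound (show (0 : ℝ) < 1 by norm_num)
    filter_upwards [h1, e1] with L hL hL1
    rw [one_mul, Real.norm_eq_abs, Real.norm_eq_abs, abs_of_nonneg (Real.log_nonneg hL1),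
      abs_of_nonneg (Real.rpow_nonneg (by linarith) _)] at hL
    exact hL
  have e3 : ∀ᶠ L : ℝ in Filter.atTop, K ≤ L ^ (t2 - 2 * (1 - t)) :=
    (tendsto_rpow_atTop ht3).eventually_ge_atTop K
  have hlog : Filter.Tendsto (fun N : ℕ => Real.log N) Filter.atTop Filter.atTop :=
    Real.tendsto_log_atTop.comp tendsto_natCast_atTop_atTop
  obtain ⟨N0, hN0⟩ := Filter.eventually_atTop.1 (hlog.eventually (e1.and (e2.and e3)))
  refine ⟨N0, fun N hN ℓ hℓ1 hℓ2 => ?_⟩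
  obtain ⟨h1, h2, h3⟩ := hN0 N hN
  set L : ℝ := Real.log N with hL
  have hL0 : 0 < L := by linarith
  set x : ℝ := L ^ (1 - t) with hx
  have hx1 : 1 ≤ x := Real.one_le_rpow h1 ht.le
  have hx0 : 0 < x := by linarith
  rcases Nat.eq_zero_or_pos D with hD | hD
  · subst hD
    simp only [Nat.zero_mul, pow_zero, mul_one]
    exact Real.one_le_exp (Real.rpow_nonneg hL0.le _)
  have hD1 : (1 : ℝ) ≤ D := by exact_mod_cast hD
  have hl1 : (1 : ℝ) ≤ ℓ := by exact_mod_cast hℓ1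
  have hl3 : (ℓ : ℝ) ≤ 3 * x := by linarith
  have hlogL : 0 ≤ Real.log L := Real.log_nonneg h1
  -- the logarithm of the base
  set b : ℝ := (D : ℝ) * ℓ * L ^ C0 with hb
  have hb0 : 0 < b := by positivity
  have hlogb : Real.log b ≤ A * x := by
    have h4 : Real.log b = Real.log D + Real.log ℓ + C0 * Real.log L := by
      rw [hb, Real.log_mul (by positivity) (by positivity), Real.log_mul (by positivity) (by positivity),
        Real.log_pow]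
    have h5 : Real.log D ≤ D := (Real.log_le_sub_one_of_pos (by linarith)).trans (by linarith)
    have h6 : Real.log ℓ ≤ 2 + (1 - t) * Real.log L := by
      have h7 : Real.log ℓ ≤ Real.log (3 * x) := Real.log_le_log (by linarith) hl3
      have h8 : Real.log (3 * x) = Real.log 3 + (1 - t) * Real.log L := by
        rw [Real.log_mul (by norm_num) hx0.ne', hx, Real.log_rpow hL0]
      have h9 : Real.log 3 ≤ 2 := (Real.log_le_sub_one_of_pos (by norm_num)).trans (by norm_num)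
      linarith
    have h10 : (1 - t) * Real.log L ≤ (1 - t) * x := mul_le_mul_of_nonneg_left h2 ht.le
    have h11 : (C0 : ℝ) * Real.log L ≤ C0 * x := mul_le_mul_of_nonneg_left h2 (Nat.cast_nonneg _)
    have h12 : (D : ℝ) + 2 ≤ (D + 2) * x := le_mul_of_one_le_right (by linarith) hx1
    rw [h4, hA]
    have h13 : ((D : ℝ) + 2 + (1 - t) + C0) * x = (D + 2) * x + (1 - t) * x + C0 * x := by ring
    rw [h13]
    linarith
  have hA0 : 0 ≤ A := by positivity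
  have hpow : b ^ (D * ℓ) = Real.exp (((D * ℓ : ℕ) : ℝ) * Real.log b) := by
    rw [Real.exp_nat_mul, Real.exp_log hb0]
  have hpow2 : (2 : ℝ) ^ (D * ℓ ^ 2) = Real.exp (((D * ℓ ^ 2 : ℕ) : ℝ) * Real.log 2) := by
    rw [Real.exp_nat_mul, Real.exp_log (by norm_num)]
  rw [hpow, hpow2, ← Real.exp_add]
  refine Real.exp_le_exp.2 ?_
  have h20 : L ^ t2 = L ^ (t2 - 2 * (1 - t)) * x ^ 2 := by
    have h21 : x ^ 2 = L ^ (2 * (1 - t)) := by
      rw [hx, ← Real.rpow_natCast, ← Real.rpow_mul hL0.le]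
      congr 1
      push_cast
      ring
    rw [h21, ← Real.rpow_add hL0]
    congr 1
    ring
  have h22 : K * x ^ 2 ≤ L ^ t2 := by
    rw [h20]
    exact mul_le_mul_of_nonneg_right h3 (by positivity)
  refine le_trans ?_ h22
  have h23 : ((D * ℓ : ℕ) : ℝ) * Real.log b ≤ (D * (3 * x)) * (A * x) := by
    push_cast
    have h24 : (D : ℝ) * ℓ ≤ D * (3 * x) := mul_le_mul_of_nonneg_left hl3 (by linarith)
    calc (D : ℝ) * ℓ * Real.log b ≤ (D : ℝ) * ℓ * (A * x) := mul_le_mul_of_nonneg_left hlogb (by positivity)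
      _ ≤ _ := mul_le_mul_of_nonneg_right h24 (by positivity)
  have h25 : ((D * ℓ ^ 2 : ℕ) : ℝ) * Real.log 2 ≤ (D * (3 * x) ^ 2) * 1 := by
    push_cast
    have h26 : (ℓ : ℝ) ^ 2 ≤ (3 * x) ^ 2 := pow_le_pow_left₀ (by linarith) hl3 2
    have h27 : Real.log 2 ≤ 1 := (Real.log_le_sub_one_of_pos (by norm_num)).trans (by norm_num)
    refine mul_le_mul (mul_le_mul_of_nonneg_left h26 (by linarith)) h27 (Real.log_nonneg (by norm_num))
      (by positivity)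
  have h28 : (D * (3 * x)) * (A * x) + (D * (3 * x) ^ 2) * 1 = K * x ^ 2 := by
    rw [hK]
    ring
  linarith

theorem comb_lvl (t : ℝ) (ht0 : 0 < t) (ht1 : t < 1) : ∃ N0 : ℕ, ∀ N : ℕ, N0 ≤ N → ∀ n P : ℕ,
    Real.exp (Real.log N ^ t) ≤ P → 1 ≤ n → n ≤ N → ∃ ℓ : ℕ, 1 ≤ ℓ ∧ (ℓ : ℝ) ≤ Real.log N ^ (1 - t) + 2 ∧
      (n : ℝ) * P ≤ (P : ℝ) ^ ℓ ∧ (P : ℝ) ^ ℓ ≤ n * (P : ℝ) ^ 2 := by
  refine ⟨2, fun N hN n P hP hn1 hnN => ?_⟩
  have hN2 : (2 : ℝ) ≤ N := by exact_mod_cast hN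
  set L : ℝ := Real.log N with hL
  have hL0 : 0 < L := Real.log_pos (by linarith)
  have hP1 : (1 : ℝ) ≤ P := le_trans (Real.one_le_exp (Real.rpow_nonneg hL0.le _)) hP
  have hn1' : (1 : ℝ) ≤ n := by exact_mod_cast hn1
  have hk0 : (n : ℝ) ≤ (P : ℝ) ^ ⌈L ^ (1 - t)⌉₊ := by
    have h1 : (Real.exp (L ^ t)) ^ ⌈L ^ (1 - t)⌉₊ ≤ (P : ℝ) ^ ⌈L ^ (1 - t)⌉₊ :=
      pow_le_pow_left₀ (Real.exp_pos _).le hP _
    rw [← Real.exp_nat_mul] at h1
    have h2 : L ≤ (⌈L ^ (1 - t)⌉₊ : ℝ) * L ^ t := by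
      have h3 : L ^ (1 - t) * L ^ t = L := by
        rw [← Real.rpow_add hL0, sub_add_cancel, Real.rpow_one]
      calc L = L ^ (1 - t) * L ^ t := h3.symm
        _ ≤ _ := mul_le_mul_of_nonneg_right (Nat.le_ceil _) (Real.rpow_nonneg hL0.le _)
    have h4 : Real.exp L = N := by
      rw [hL]
      exact Real.exp_log (by linarith)
    have h5 : (N : ℝ) ≤ Real.exp ((⌈L ^ (1 - t)⌉₊ : ℝ) * L ^ t) := by
      rw [← h4]
      exact Real.exp_le_exp.2 h2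
    have h6 : (n : ℝ) ≤ N := by exact_mod_cast hnN
    linarith
  classical
  have hex : ∃ k : ℕ, (n : ℝ) ≤ (P : ℝ) ^ k := ⟨_, hk0⟩
  set k := Nat.find hex with hk
  have hk1 : (n : ℝ) ≤ (P : ℝ) ^ k := Nat.find_spec hex
  have hk2 : k ≤ ⌈L ^ (1 - t)⌉₊ := Nat.find_min' hex hk0
  refine ⟨k + 1, by omega, ?_, ?_, ?_⟩
  · have h7 : (⌈L ^ (1 - t)⌉₊ : ℝ) < L ^ (1 - t) + 1 := Nat.ceil_lt_add_one (Real.rpow_nonneg hL0.le _)
    have h8 : (k : ℝ) ≤ (⌈L ^ (1 - t)⌉₊ : ℝ) := by exact_mod_cast hk2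
    push_cast
    linarith
  · rw [pow_succ]
    exact mul_le_mul_of_nonneg_right hk1 (by linarith)
  · rcases Nat.eq_zero_or_pos k with h9 | h9
    · rw [h9, zero_add, pow_one]
      have h10 : (P : ℝ) ≤ (P : ℝ) ^ 2 := by nlinarith
      have h11 : (P : ℝ) ^ 2 ≤ n * (P : ℝ) ^ 2 := le_mul_of_one_le_left (by positivity) hn1'
      linarith
    · have h10 : ¬ (n : ℝ) ≤ (P : ℝ) ^ (k - 1) := Nat.find_min hex (by omega)
      have h11 : k + 1 = (k - 1) + 2 := by omega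
      rw [h11, pow_add]
      exact mul_le_mul_of_nonneg_right (not_le.1 h10).le (by positivity)

end Pool.Agent.H74.MDX
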