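import Pool.Agent.H74.MDX.Combx
import Pool.Agent.H74.MDX.CombA

/-!
# MDX CombW: the weak combinatorial theorem (part I of MIDX)

Proof.  `comb_num C` gives `D`; `N0` from `comb_asym` (with `D`, `C0`), `comb_lvl`, and such that `log N ≥ 1`.  For `N ≥ N0` take `ℓ` from `comb_lvl`, `δ = 1/(log N)^C0`,
`Q = exp((log N)^t2)`: `Zc C δ ℓ ≤ (D ℓ/δ)^(D ℓ) 2^(D ℓ^2) ≤ Q` and `Q ≤ exp((log N)^t) ≤ P`.  `combx` gives `d, b, T, F1`.  Reduce the fraction: `g = gcd(b, d)`,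
`d' = d/g`, `b' = b/g`: `b'/d' = b/d` (real numbers), `1 ≤ d' ≤ d`, coprime (`Nat.coprime_div_gcd_div_gcd`).
-/

set_option autoImplicit false

namespace Pool.Agent.H74.MDX

open Finset
open Pool.Agent.H53.MID (nz Rel Desc)

/-- the weak combinatorial theorem -/
def CombWeak (t t2 : ℝ) : Prop := ∀ (C : ℝ), 1 ≤ C → ∀ C0 : ℕ, ∃ N0 : ℕ, ∀ N : ℕ, N0 ≤ N →
  ∀ (n P : ℕ) (η : ℝ) (F0 G0 : Finset ℕ) (α β : ℕ → ℝ) (R0 : Finset (ℕ × ℕ × ℕ)),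
    Real.exp (Real.log N ^ t) ≤ P → P ≤ N → 1 ≤ n → n ≤ N → 0 < η →
    Real.exp (Real.log N ^ t2) * η * (P : ℝ) ^ 3 ≤ 1 → Rel C n P (η * P) F0 G0 α β R0 →
    n * P / Real.log N ^ C0 ≤ (R0.card : ℝ) →
    ∃ (d b : ℕ) (T : ℝ) (F1 : Finset ℕ), 1 ≤ d ∧ (d : ℝ) ≤ Real.exp (Real.log N ^ t2) ∧ Nat.Coprime b d ∧
      |T| ≤ Real.exp (Real.log N ^ t2) * η * (n : ℝ) ^ 2 ∧ F1 ⊆ F0 ∧
      (n : ℝ) ≤ Real.exp (Real.log N ^ t2) * F1.card ∧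
      ∀ i ∈ F1, nz (α i - b / d - T / i) ≤ Real.exp (Real.log N ^ t2) * η

/-- reduction of a fraction -/
private theorem CombW_red (d b : ℕ) (hd : 1 ≤ d) : ∃ d' b' : ℕ, 1 ≤ d' ∧ d' ≤ d ∧ Nat.Coprime b' d' ∧
    (b' : ℝ) / d' = b / d := by
  have hg : 0 < Nat.gcd b d := Nat.gcd_pos_of_pos_right b (by omega)
  have h1 : Nat.gcd b d ∣ b := Nat.gcd_dvd_left b d
  have h2 : Nat.gcd b d ∣ d := Nat.gcd_dvd_right b d
  refine ⟨d / Nat.gcd b d, b / Nat.gcd b d, Nat.div_pos (Nat.le_of_dvd (by omega) h2) hg,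
    Nat.div_le_self _ _, Nat.coprime_div_gcd_div_gcd hg, ?_⟩
  have hg' : (Nat.gcd b d : ℝ) ≠ 0 := by exact_mod_cast hg.ne'
  rw [Nat.cast_div h1 hg', Nat.cast_div h2 hg']
  exact div_div_div_cancel_right₀ hg' _ _

theorem comb_weak (t t2 : ℝ) (ht1 : t < 1) (ht2 : 2 * (1 - t) < t2) (ht3 : t2 < t) : CombWeak t t2 := by
  intro C hC C0
  obtain ⟨D, hD1, hD⟩ := comb_num C hC
  obtain ⟨N1, hN1⟩ := comb_asym t t2 ht1 ht2 D C0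
  obtain ⟨N2, hN2⟩ := comb_lvl t (by linarith) ht1
  refine ⟨max N1 (max N2 3), fun N hN n P η F0 G0 α β R0 hP hPN hn hnN hη hQη hR hR0 => ?_⟩
  rw [max_le_iff, max_le_iff] at hN
  obtain ⟨hNa, hNb, hNc⟩ := hN
  have hL1 : 1 ≤ Real.log N := by
    rw [Real.le_log_iff_exp_le (by positivity)]
    have h1 : (3 : ℝ) ≤ N := by exact_mod_cast hNc
    have h2 := Real.exp_one_lt_three
    linarith
  obtain ⟨ℓ, hℓ1, hℓ2, hℓ3, hℓ4⟩ := hN2 N hNb n P hP hn hnN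
  obtain ⟨L, hL⟩ : ∃ L : ℝ, L = Real.log N ^ C0 := ⟨_, rfl⟩
  have hLpos : 1 ≤ L := by rw [hL]; exact one_le_pow₀ hL1
  have hδ : 0 < 1 / L := by positivity
  have hδ1 : 1 / L ≤ 1 := by
    rw [div_le_one (by linarith)]
    exact hLpos
  have hZ : Zc C (1 / L) ℓ ≤ Real.exp (Real.log N ^ t2) := by
    refine (hD ℓ (1 / L) hℓ1 hδ hδ1).trans ?_
    have h1 := hN1 N hNa ℓ hℓ1 hℓ2
    rw [← hL] at h1
    have e1 : (D : ℝ) * ℓ / (1 / L) = D * ℓ * L := by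
      rw [div_div_eq_mul_div, div_one]
    rw [e1]
    exact h1
  have hQP : Real.exp (Real.log N ^ t2) ≤ P := by
    refine le_trans ?_ hP
    exact Real.exp_le_exp.2 (Real.rpow_le_rpow_of_exponent_le hL1 ht3.le)
  have hR0' : 1 / L * n * P ≤ R0.card := by
    rw [← hL] at hR0
    refine le_trans (le_of_eq ?_) hR0
    ring
  obtain ⟨d, b, T, F1, g1, g2, g3, g4, g5, g6⟩ := combx C hC n P ℓ (1 / L) η
    (Real.exp (Real.log N ^ t2)) hn hℓ1 hℓ3 hℓ4 hδ hδ1 hη hZ hQP hQη F0 G0 α β R0 hR hR0'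
  obtain ⟨d', b', k1, k2, k3, k4⟩ := CombW_red d b g1
  refine ⟨d', b', T, F1, k1, ?_, k3, g3, g4, g5, ?_⟩
  · refine le_trans ?_ g2
    exact_mod_cast k2
  · intro i hi
    rw [k4]
    exact g6 i hi

end Pool.Agent.H74.MDX
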