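import Pool.Agent.H74.MDX.Defs

/-!
# MDX Clean: a subset of the triples with large minimal degrees

Proof.  Among all `S ⊆ R` (`R.powerset` is finite, nonempty) choose one which maximises
`f(S) = |S| - m |S.image fst| - k |S.image (·.2.2)|` (real numbers; `Finset.exists_max_image`).  `f(R) ≥ |R| - m |F| - k |G|` because
`R.image fst ⊆ F`, `R.image (·.2.2) ⊆ G`; `|S| ≥ f(S) ≥ f(R)` as `m, k ≥ 0`.  If for some `t ∈ S` fewer than `m` triples `u ∈ S` had `u.1 = t.1`, then
`S' = S.filter (u.1 ≠ t.1)` has `f(S') ≥ |S| - deg - m (|S.image fst| - 1) - k |S.image (·.2.2)| > f(S)`: contradiction.  The same for `.2.2`.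
-/

set_option autoImplicit false

namespace Pool.Agent.H74.MDX

open Finset

private theorem Clean_step (S : Finset (ℕ × ℕ × ℕ)) (φ ψ : ℕ × ℕ × ℕ → ℕ) (m k : ℝ) (hm : 0 ≤ m) (hk : 0 ≤ k)
    (hmax : ∀ T ⊆ S, (T.card : ℝ) - m * (T.image φ).card - k * (T.image ψ).card ≤
      (S.card : ℝ) - m * (S.image φ).card - k * (S.image ψ).card) :
    ∀ t ∈ S, m ≤ ((S.filter (fun u => φ u = φ t)).card : ℝ) := by
  intro t ht
  by_contra hlt
  push Not at hlt
  have h1 := hmax (S.filter (fun u => ¬ φ u = φ t)) (Finset.filter_subset _ _)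
  have h2 : (S.filter (fun u => φ u = φ t)).card + (S.filter (fun u => ¬ φ u = φ t)).card = S.card :=
    Finset.card_filter_add_card_filter_not _
  have h3 : ((S.filter (fun u => ¬ φ u = φ t)).image φ).card + 1 ≤ (S.image φ).card := by
    have h4 : (S.filter (fun u => ¬ φ u = φ t)).image φ ⊆ (S.image φ).erase (φ t) := by
      intro x hx
      rw [Finset.mem_image] at hx
      obtain ⟨u, hu, rfl⟩ := hx
      rw [Finset.mem_filter] at hu
      exact Finset.mem_erase.2 ⟨hu.2, Finset.mem_image_of_mem φ hu.1⟩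
    have h5 := Finset.card_le_card h4
    have h6 := Finset.card_erase_add_one (Finset.mem_image_of_mem φ ht)
    omega
  have h4 : ((S.filter (fun u => ¬ φ u = φ t)).image ψ).card ≤ (S.image ψ).card :=
    Finset.card_le_card (Finset.image_subset_image (Finset.filter_subset _ _))
  have h2' : ((S.filter (fun u => φ u = φ t)).card : ℝ) + ((S.filter (fun u => ¬ φ u = φ t)).card : ℝ) = (S.card : ℝ) := by
    exact_mod_cast h2
  have h3' : (((S.filter (fun u => ¬ φ u = φ t)).image φ).card : ℝ) + 1 ≤ ((S.image φ).card : ℝ) := by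
    exact_mod_cast h3
  have h4' : (((S.filter (fun u => ¬ φ u = φ t)).image ψ).card : ℝ) ≤ ((S.image ψ).card : ℝ) := by
    exact_mod_cast h4
  have h7 := mul_le_mul_of_nonneg_left h3' hm
  have h8 := mul_le_mul_of_nonneg_left h4' hk
  rw [mul_add, mul_one] at h7
  linarith

theorem clean (R : Finset (ℕ × ℕ × ℕ)) (F G : Finset ℕ) (hF : ∀ t ∈ R, t.1 ∈ F) (hG : ∀ t ∈ R, t.2.2 ∈ G)
    (m k : ℝ) (hm : 0 ≤ m) (hk : 0 ≤ k) :
    ∃ S ⊆ R, (R.card : ℝ) - m * F.card - k * G.card ≤ S.card ∧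
      (∀ t ∈ S, m ≤ ((S.filter (fun u => u.1 = t.1)).card : ℝ)) ∧
      (∀ t ∈ S, k ≤ ((S.filter (fun u => u.2.2 = t.2.2)).card : ℝ)) := by
  obtain ⟨S, hS, hmax⟩ := Finset.exists_max_image R.powerset
    (fun S : Finset (ℕ × ℕ × ℕ) => (S.card : ℝ) - m * (S.image (fun u => u.1)).card -
      k * (S.image (fun u => u.2.2)).card) ⟨R, Finset.mem_powerset_self R⟩
  rw [Finset.mem_powerset] at hS
  refine ⟨S, hS, ?_, ?_, ?_⟩
  · have h1 := hmax R (Finset.mem_powerset_self R)
    have h2 : (R.image (fun u => u.1)).card ≤ F.card := Finset.card_le_card (Finset.image_subset_iff.2 hF)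
    have h3 : (R.image (fun u => u.2.2)).card ≤ G.card := Finset.card_le_card (Finset.image_subset_iff.2 hG)
    have h2' : ((R.image (fun u => u.1)).card : ℝ) ≤ (F.card : ℝ) := by exact_mod_cast h2
    have h3' : ((R.image (fun u => u.2.2)).card : ℝ) ≤ (G.card : ℝ) := by exact_mod_cast h3
    have h4 := mul_le_mul_of_nonneg_left h2' hm
    have h5 := mul_le_mul_of_nonneg_left h3' hk
    have h6 : 0 ≤ m * ((S.image (fun u => u.1)).card : ℝ) := mul_nonneg hm (Nat.cast_nonneg _)
    have h7 : 0 ≤ k * ((S.image (fun u => u.2.2)).card : ℝ) := mul_nonneg hk (Nat.cast_nonneg _)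
    linarith
  · exact Clean_step S (fun u => u.1) (fun u => u.2.2) m k hm hk fun T hT =>
      hmax T (Finset.mem_powerset.2 (hT.trans hS))
  · refine Clean_step S (fun u => u.2.2) (fun u => u.1) k m hk hm fun T hT => ?_
    have h1 := hmax T (Finset.mem_powerset.2 (hT.trans hS))
    linarith

end Pool.Agent.H74.MDX
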