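import Pool.Agent.H74.MDX.Defs

/-!
# MDX Cnt: lower bound for the number of walks

Proof.  Induction on `j`.  `j = 0`: `Om R F 0` is in bijection with `F` (`w ↦ w.1 0`; `IsW` is trivial).
`j → j+1` (the bound `m - 2(j+1)κ ≥ 0` is assumed for `j+1`, so also for `j`): every `w ∈ Om R F j` with last vertex `i = v1 w ∈ F` is extended:
`(p, g)` with `(i, p, g) ∈ R` and `p` different from the `2j` primes of `w`: at least `m - 2jκ` (`h1`; for each `p` at most `κ` triples, `hM.out`);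
then `(i', q)` with `(i', q, g) ∈ R`, `q` different from the `2j+1` primes (`w` and `p`): at least `m - (2j+1)κ` (`h2`, `hM.inn`).  `i' ∈ F` by `hF`.
The walks `(Fin.snoc w.1 i', Fin.snoc w.2 (p, g, q))` are pairwise different.  So `|Om (j+1)| ≥ |Om j| (m - 2(j+1)κ)^2`.
A convenient form: map `Om R F (j+1)` to `Om R F j` by `Lw`; every fibre has at least `(m - 2(j+1)κ)^2` elements (`Finset.card_eq_sum_card_fiberwise`);
the fibre of `w` contains the image of the sigma type over `(i, p, g)` of the triples `(i', q, g)`.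
-/

set_option autoImplicit false

namespace Pool.Agent.H74.MDX

open Finset

private theorem Cnt_rem (S : Finset (ℕ × ℕ × ℕ)) (Q : Finset ℕ) (κ : ℝ)
    (h : ∀ p : ℕ, ((S.filter (fun u => u.2.1 = p)).card : ℝ) ≤ κ) :
    (S.card : ℝ) - Q.card * κ ≤ ((S.filter (fun u => u.2.1 ∉ Q)).card : ℝ) := by
  classical
  have e1 : (S.filter (fun u => u.2.1 ∈ Q)).card + (S.filter (fun u => ¬ u.2.1 ∈ Q)).card = S.card :=
    Finset.card_filter_add_card_filter_not _
  have e2 : (S.filter (fun u => u.2.1 ∈ Q)).card =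
      ∑ p ∈ Q, ((S.filter (fun u => u.2.1 ∈ Q)).filter (fun u => u.2.1 = p)).card := by
    refine Finset.card_eq_sum_card_fiberwise (f := fun u : ℕ × ℕ × ℕ => u.2.1) (t := Q) ?_
    intro u hu
    exact (Finset.mem_filter.1 (Finset.mem_coe.1 hu)).2
  have e3 : ((S.filter (fun u => u.2.1 ∈ Q)).card : ℝ) ≤ Q.card * κ := by
    rw [e2]
    push_cast
    calc ∑ p ∈ Q, (((S.filter (fun u => u.2.1 ∈ Q)).filter (fun u => u.2.1 = p)).card : ℝ)
        ≤ ∑ _p ∈ Q, κ := by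
          refine Finset.sum_le_sum (fun p _ => ?_)
          refine le_trans ?_ (h p)
          exact_mod_cast Finset.card_le_card (Finset.filter_subset_filter _ (Finset.filter_subset _ _))
      _ = Q.card * κ := by rw [Finset.sum_const, nsmul_eq_mul]
  have e4 : ((S.filter (fun u => u.2.1 ∈ Q)).card : ℝ) + ((S.filter (fun u => ¬ u.2.1 ∈ Q)).card : ℝ) = S.card := by
    exact_mod_cast e1
  linarith

/-- the primes of a walk -/
private def Cnt_pr {j : ℕ} (w : Wk j) : Finset ℕ :=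
  (univ.image (fun s : Fin j => (w.2 s).1)) ∪ (univ.image (fun s : Fin j => (w.2 s).2.2))

private theorem Cnt_pr_card {j : ℕ} (w : Wk j) : (Cnt_pr w).card ≤ 2 * j := by
  unfold Cnt_pr
  refine (Finset.card_union_le _ _).trans ?_
  have a1 : (univ.image (fun s : Fin j => (w.2 s).1)).card ≤ j :=
    Finset.card_image_le.trans (by rw [Finset.card_univ, Fintype.card_fin])
  have a2 : (univ.image (fun s : Fin j => (w.2 s).2.2)).card ≤ j :=
    Finset.card_image_le.trans (by rw [Finset.card_univ, Fintype.card_fin])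
  omega

private theorem Cnt_pr1 {j : ℕ} (w : Wk j) (s : Fin j) : (w.2 s).1 ∈ Cnt_pr w :=
  Finset.mem_union_left _ (Finset.mem_image_of_mem (fun s : Fin j => (w.2 s).1) (Finset.mem_univ s))

private theorem Cnt_pr2 {j : ℕ} (w : Wk j) (s : Fin j) : (w.2 s).2.2 ∈ Cnt_pr w :=
  Finset.mem_union_right _ (Finset.mem_image_of_mem (fun s : Fin j => (w.2 s).2.2) (Finset.mem_univ s))

/-- the extended walk -/
private def Cnt_ext {j : ℕ} (w : Wk j) (a : ℕ) (b : ℕ × ℕ × ℕ) : Wk (j + 1) :=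
  (Fin.snoc (α := fun _ => ℕ) w.1 a, Fin.snoc (α := fun _ => ℕ × ℕ × ℕ) w.2 b)

private theorem Cnt_ext_L {j : ℕ} (w : Wk j) (a : ℕ) (b : ℕ × ℕ × ℕ) : Lw (Cnt_ext w a b) = w := by
  unfold Lw Cnt_ext
  refine Prod.ext ?_ ?_
  · funext s
    exact Fin.snoc_castSucc (α := fun _ => ℕ) a w.1 s
  · funext s
    exact Fin.snoc_castSucc (α := fun _ => ℕ × ℕ × ℕ) b w.2 s

private theorem Cnt_ext_1c {j : ℕ} (w : Wk j) (a : ℕ) (b : ℕ × ℕ × ℕ) (s : Fin (j + 1)) :
    (Cnt_ext w a b).1 s.castSucc = w.1 s := Fin.snoc_castSucc (α := fun _ => ℕ) a w.1 s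

private theorem Cnt_ext_1l {j : ℕ} (w : Wk j) (a : ℕ) (b : ℕ × ℕ × ℕ) :
    (Cnt_ext w a b).1 (Fin.last (j + 1)) = a := Fin.snoc_last (α := fun _ => ℕ) a w.1

private theorem Cnt_ext_2c {j : ℕ} (w : Wk j) (a : ℕ) (b : ℕ × ℕ × ℕ) (s : Fin j) :
    (Cnt_ext w a b).2 s.castSucc = w.2 s := Fin.snoc_castSucc (α := fun _ => ℕ × ℕ × ℕ) b w.2 s

private theorem Cnt_ext_2l {j : ℕ} (w : Wk j) (a : ℕ) (b : ℕ × ℕ × ℕ) :
    (Cnt_ext w a b).2 (Fin.last j) = b := Fin.snoc_last (α := fun _ => ℕ × ℕ × ℕ) b w.2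

private theorem Cnt_ext_mem {j : ℕ} (R : Finset (ℕ × ℕ × ℕ)) (F : Finset ℕ) (w : Wk j) (hw : w ∈ Om R F j)
    (i' p g q : ℕ) (hi : i' ∈ F) (h1 : (v1 w, p, g) ∈ R) (h2 : (i', q, g) ∈ R)
    (hp : p ∉ Cnt_pr w) (hq : q ∉ insert p (Cnt_pr w)) : Cnt_ext w i' (p, g, q) ∈ Om R F (j + 1) := by
  rw [mem_Om] at hw ⊢
  rw [Finset.mem_insert, not_or] at hq
  obtain ⟨hqp, hq⟩ := hq
  refine ⟨?_, ?_, ?_⟩
  · intro s
    refine Fin.lastCases ?_ (fun s => ?_) s
    · rw [Cnt_ext_1l]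
      exact hi
    · rw [Cnt_ext_1c]
      exact hw.1 s
  · intro s
    refine Fin.lastCases ?_ (fun s => ?_) s
    · rw [Cnt_ext_1c, Cnt_ext_2l, Fin.succ_last, Cnt_ext_1l]
      exact ⟨h1, h2⟩
    · rw [Cnt_ext_1c, Cnt_ext_2c, Fin.succ_castSucc, Cnt_ext_1c]
      exact hw.2.1 s
  · have hinj := hw.2.2
    have k1 : ∀ s t : Fin j, (w.2 s).1 = (w.2 t).1 → s = t := fun s t h =>
      Sum.inl_injective (hinj (a₁ := Sum.inl s) (a₂ := Sum.inl t) h)
    have k2 : ∀ s t : Fin j, (w.2 s).2.2 = (w.2 t).2.2 → s = t := fun s t h =>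
      Sum.inr_injective (hinj (a₁ := Sum.inr s) (a₂ := Sum.inr t) h)
    have k3 : ∀ s t : Fin j, (w.2 s).1 ≠ (w.2 t).2.2 := fun s t h => by
      have := hinj (a₁ := Sum.inl s) (a₂ := Sum.inr t) h
      cases this
    have m1 : Function.Injective (fun s : Fin (j + 1) => ((Cnt_ext w i' (p, g, q)).2 s).1) := by
      intro s t
      refine Fin.lastCases ?_ (fun s => ?_) s
      · refine Fin.lastCases (fun _ => rfl) (fun t => ?_) t
        intro h
        simp only [Cnt_ext_2l, Cnt_ext_2c] at h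
        exact absurd (h ▸ Cnt_pr1 w t) hp
      · refine Fin.lastCases ?_ (fun t => ?_) t
        · intro h
          simp only [Cnt_ext_2l, Cnt_ext_2c] at h
          exact absurd (h ▸ Cnt_pr1 w s) hp
        · intro h
          simp only [Cnt_ext_2c] at h
          rw [k1 s t h]
    have m2 : Function.Injective (fun s : Fin (j + 1) => ((Cnt_ext w i' (p, g, q)).2 s).2.2) := by
      intro s t
      refine Fin.lastCases ?_ (fun s => ?_) s
      · refine Fin.lastCases (fun _ => rfl) (fun t => ?_) t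
        intro h
        simp only [Cnt_ext_2l, Cnt_ext_2c] at h
        exact absurd (h ▸ Cnt_pr2 w t) hq
      · refine Fin.lastCases ?_ (fun t => ?_) t
        · intro h
          simp only [Cnt_ext_2l, Cnt_ext_2c] at h
          exact absurd (h ▸ Cnt_pr2 w s) hq
        · intro h
          simp only [Cnt_ext_2c] at h
          rw [k2 s t h]
    refine m1.sumElim m2 ?_
    intro s t
    refine Fin.lastCases ?_ (fun s => ?_) s
    · refine Fin.lastCases ?_ (fun t => ?_) t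
      · intro h
        simp only [Cnt_ext_2l] at h
        exact hqp h.symm
      · intro h
        simp only [Cnt_ext_2l, Cnt_ext_2c] at h
        exact absurd (h ▸ Cnt_pr2 w t) hp
    · refine Fin.lastCases ?_ (fun t => ?_) t
      · intro h
        simp only [Cnt_ext_2l, Cnt_ext_2c] at h
        exact absurd (h ▸ Cnt_pr1 w s) hq
      · intro h
        simp only [Cnt_ext_2c] at h
        exact k3 s t h

private theorem Cnt_fib {j : ℕ} (R : Finset (ℕ × ℕ × ℕ)) (F : Finset ℕ) (κ m : ℝ) (P : ℕ) (hM : Mul κ P R)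
    (hF : ∀ t ∈ R, t.1 ∈ F) (hm : 2 * ((j + 1 : ℕ) : ℝ) * κ ≤ m)
    (h1 : ∀ i ∈ F, m ≤ ((R.filter (fun u => u.1 = i)).card : ℝ))
    (h2 : ∀ t ∈ R, m ≤ ((R.filter (fun u => u.2.2 = t.2.2)).card : ℝ)) (w : Wk j) (hw : w ∈ Om R F j) :
    (m - 2 * ((j + 1 : ℕ) : ℝ) * κ) ^ 2 ≤ (((Om R F (j + 1)).filter (fun v => Lw v = w)).card : ℝ) := by
  classical
  have hκ : (0 : ℝ) ≤ κ := zero_le_one.trans hM.one
  set X : ℝ := m - 2 * ((j + 1 : ℕ) : ℝ) * κ with hX
  have hX0 : 0 ≤ X := by rw [hX]; linarith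
  set S1 : Finset (ℕ × ℕ × ℕ) := (R.filter (fun u => u.1 = v1 w)).filter (fun u => u.2.1 ∉ Cnt_pr w) with hS1
  set S2 : ℕ × ℕ × ℕ → Finset (ℕ × ℕ × ℕ) := fun u =>
    (R.filter (fun t => t.2.2 = u.2.2)).filter (fun t => t.2.1 ∉ insert u.2.1 (Cnt_pr w)) with hS2
  have hv : v1 w ∈ F := (mem_Om.1 hw).1 _
  have c1 : X ≤ (S1.card : ℝ) := by
    have a1 := Cnt_rem (R.filter (fun u => u.1 = v1 w)) (Cnt_pr w) κ (by
      intro p
      rw [Finset.filter_filter]
      exact hM.out _ _)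
    have a2 := h1 _ hv
    have a3 : ((Cnt_pr w).card : ℝ) * κ ≤ 2 * j * κ := by
      refine mul_le_mul_of_nonneg_right ?_ hκ
      exact_mod_cast Cnt_pr_card w
    rw [hX]
    push_cast
    nlinarith
  have c2 : ∀ u ∈ S1, X ≤ ((S2 u).card : ℝ) := by
    intro u hu
    have huR : u ∈ R := (Finset.mem_filter.1 (Finset.mem_filter.1 hu).1).1
    have a1 := Cnt_rem (R.filter (fun t => t.2.2 = u.2.2)) (insert u.2.1 (Cnt_pr w)) κ (by
      intro p
      rw [Finset.filter_filter]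
      exact hM.inn _ _)
    have a2 := h2 _ huR
    have a3 : ((insert u.2.1 (Cnt_pr w)).card : ℝ) * κ ≤ (2 * j + 1) * κ := by
      refine mul_le_mul_of_nonneg_right ?_ hκ
      have b1 := Finset.card_insert_le u.2.1 (Cnt_pr w)
      have b2 := Cnt_pr_card w
      have b3 : (insert u.2.1 (Cnt_pr w)).card ≤ 2 * j + 1 := by omega
      exact_mod_cast b3
    rw [hX]
    push_cast
    nlinarith
  have c3 : X ^ 2 ≤ ((S1.sigma S2).card : ℝ) := by
    rw [Finset.card_sigma]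
    push_cast
    calc X ^ 2 = X * X := by ring
      _ ≤ (S1.card : ℝ) * X := mul_le_mul_of_nonneg_right c1 hX0
      _ = ∑ _u ∈ S1, X := by rw [Finset.sum_const, nsmul_eq_mul]
      _ ≤ ∑ u ∈ S1, ((S2 u).card : ℝ) := Finset.sum_le_sum c2
  refine c3.trans ?_
  have c4 : (S1.sigma S2).card ≤ ((Om R F (j + 1)).filter (fun v => Lw v = w)).card := by
    refine Finset.card_le_card_of_injOn
      (fun x : (_ : ℕ × ℕ × ℕ) × (ℕ × ℕ × ℕ) => Cnt_ext w x.2.1 (x.1.2.1, x.1.2.2, x.2.2.1)) ?_ ?_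
    · rintro ⟨u, t⟩ hx
      obtain ⟨hu, ht⟩ := Finset.mem_sigma.1 (Finset.mem_coe.1 hx)
      obtain ⟨hu1, hu2⟩ := Finset.mem_filter.1 hu
      obtain ⟨hu1, hu3⟩ := Finset.mem_filter.1 hu1
      obtain ⟨ht1, ht2⟩ := Finset.mem_filter.1 ht
      obtain ⟨ht1, ht3⟩ := Finset.mem_filter.1 ht1
      refine Finset.mem_coe.2 (Finset.mem_filter.2 ⟨?_, Cnt_ext_L _ _ _⟩)
      refine Cnt_ext_mem R F w hw _ _ _ _ (hF _ ht1) ?_ ?_ hu2 ht2
      · rw [← hu3]
        exact hu1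
      · dsimp only at ht3
        rw [← ht3]
        exact ht1
    · rintro ⟨u, t⟩ hx ⟨u', t'⟩ hx' h
      obtain ⟨hu, ht⟩ := Finset.mem_sigma.1 (Finset.mem_coe.1 hx)
      obtain ⟨hu', ht'⟩ := Finset.mem_sigma.1 (Finset.mem_coe.1 hx')
      have hu3 := (Finset.mem_filter.1 (Finset.mem_filter.1 hu).1).2
      have hu3' := (Finset.mem_filter.1 (Finset.mem_filter.1 hu').1).2
      have ht3 := (Finset.mem_filter.1 (Finset.mem_filter.1 ht).1).2
      have ht3' := (Finset.mem_filter.1 (Finset.mem_filter.1 ht').1).2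
      have e1 := congrArg (fun v : Wk (j + 1) => v.1 (Fin.last (j + 1))) h
      have e2 := congrArg (fun v : Wk (j + 1) => v.2 (Fin.last j)) h
      simp only [Cnt_ext_1l] at e1
      simp only [Cnt_ext_2l, Prod.mk.injEq] at e2
      dsimp only at hu3 hu3' ht3 ht3' e1 e2
      obtain ⟨u1, u2, u3⟩ := u
      obtain ⟨u1', u2', u3'⟩ := u'
      obtain ⟨t1, t2, t3⟩ := t
      obtain ⟨t1', t2', t3'⟩ := t'
      dsimp only at hu3 hu3' ht3 ht3' e1 e2
      obtain ⟨f1, f2, f3⟩ := e2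
      subst f1 f2 f3 e1
      subst hu3 hu3'
      subst ht3
      subst ht3'
      rfl
  exact_mod_cast c4

theorem om_card (R : Finset (ℕ × ℕ × ℕ)) (F : Finset ℕ) (κ m : ℝ) (P j : ℕ) (hM : Mul κ P R)
    (hF : ∀ t ∈ R, t.1 ∈ F) (hm : 2 * j * κ ≤ m)
    (h1 : ∀ i ∈ F, m ≤ ((R.filter (fun u => u.1 = i)).card : ℝ))
    (h2 : ∀ t ∈ R, m ≤ ((R.filter (fun u => u.2.2 = t.2.2)).card : ℝ)) :
    (F.card : ℝ) * (m - 2 * j * κ) ^ (2 * j) ≤ (Om R F j).card := by
  classical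
  have hκ : (0 : ℝ) ≤ κ := zero_le_one.trans hM.one
  induction j with
  | zero =>
    rw [Nat.mul_zero, pow_zero, mul_one]
    have c : F.card ≤ (Om R F 0).card := by
      refine Finset.card_le_card_of_injOn (fun i : ℕ => ((fun _ => i, fun s => s.elim0) : Wk 0)) ?_ ?_
      · intro i hi
        refine Finset.mem_coe.2 (mem_Om.2 ⟨fun _ => Finset.mem_coe.1 hi, fun s => s.elim0, ?_⟩)
        rintro (s | s)
        · exact s.elim0
        · exact s.elim0
      · intro i _ i' _ h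
        exact congrArg (fun v : Wk 0 => v.1 0) h
    exact_mod_cast c
  | succ j ih =>
    have hm' : 2 * (j : ℝ) * κ ≤ m := by
      push_cast at hm
      nlinarith
    have ih' := ih hm'
    set X : ℝ := m - 2 * ((j + 1 : ℕ) : ℝ) * κ with hX
    have hX0 : 0 ≤ X := by rw [hX]; linarith
    have hXY : X ≤ m - 2 * (j : ℝ) * κ := by
      rw [hX]
      push_cast
      nlinarith
    have c1 : (F.card : ℝ) * X ^ (2 * j) ≤ (Om R F j).card :=
      (mul_le_mul_of_nonneg_left (pow_le_pow_left₀ hX0 hXY _) (Nat.cast_nonneg _)).trans ih'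
    have c2 : (Om R F (j + 1)).card = ∑ w ∈ Om R F j, ((Om R F (j + 1)).filter (fun v => Lw v = w)).card := by
      refine Finset.card_eq_sum_card_fiberwise (f := (Lw : Wk (j + 1) → Wk j)) (t := Om R F j) ?_
      intro v hv
      exact Finset.mem_coe.2 (Lw_mem (Finset.mem_coe.1 hv))
    have c3 : ((Om R F j).card : ℝ) * X ^ 2 ≤ (Om R F (j + 1)).card := by
      rw [c2]
      push_cast
      calc ((Om R F j).card : ℝ) * X ^ 2 = ∑ _w ∈ Om R F j, X ^ 2 := by
            rw [Finset.sum_const, nsmul_eq_mul]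
        _ ≤ _ := Finset.sum_le_sum (fun w hw => Cnt_fib R F κ m P hM hF hm h1 h2 w hw)
    calc (F.card : ℝ) * X ^ (2 * (j + 1)) = ((F.card : ℝ) * X ^ (2 * j)) * X ^ 2 := by ring
      _ ≤ ((Om R F j).card : ℝ) * X ^ 2 := mul_le_mul_of_nonneg_right c1 (by positivity)
      _ ≤ _ := c3

end Pool.Agent.H74.MDX
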