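import Pool.Agent.H74.MDX.Defs

/-!
# MDX MulRel: the relation has bounded multiplicity

`rel_mul`: if `Rel C n P η F F' α α' R`, `C ≥ 1`, `P ≥ 1` then `Mul (2C+1) P R`.  Proof: given `i, p` (we may assume that there is a triple in the set, so `P < p`),
`|g p - i P| ≤ C P` leaves at most `2C+1` natural numbers `g` (`|g - i P/p| ≤ C P/p ≤ C`; the number of integers in a closed interval of length `2C` is
`≤ 2C+1`); given `g, p`: `|i - g p/P| ≤ C`, the same.  See `Edges_count`, `Edges_cnt`, `Edges_div` in `Pool/Agent/H53/MID/Edges.lean` (private: copy).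
`mul_sub`: subsets.  `int_card`: the number of the naturals in an interval.  `rel_card_le`: `|F| ≤ C n`, `|F'| ≤ C n` (`F ⊆ [1, C n]` as `K ≥ n/C > 0`).
-/

set_option autoImplicit false

namespace Pool.Agent.H74.MDX

open Finset
open Pool.Agent.H53.MID (nz Rel Desc)

theorem int_card (S : Finset ℕ) (x r : ℝ) (hr : 0 ≤ r) (h : ∀ k ∈ S, |(k : ℝ) - x| ≤ r) : (S.card : ℝ) ≤ 2 * r + 1 := by
  rcases S.eq_empty_or_nonempty with rfl | ⟨k0, hk0⟩
  · simp only [Finset.card_empty, Nat.cast_zero]; linarith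
  have h1 : (S.image (fun k : ℕ => (k : ℤ))) ⊆ Finset.Icc ⌈x - r⌉ ⌊x + r⌋ := by
    intro z hz
    rw [Finset.mem_image] at hz
    obtain ⟨k, hk, rfl⟩ := hz
    have h2 := abs_le.mp (h k hk)
    rw [Finset.mem_Icc]
    constructor
    · rw [Int.ceil_le]; push_cast; linarith [h2.1]
    · rw [Int.le_floor]; push_cast; linarith [h2.2]
  have h2 := Finset.card_le_card h1
  rw [Finset.card_image_of_injective _ Nat.cast_injective, Int.card_Icc] at h2
  have h3 : ⌈x - r⌉ ≤ ⌊x + r⌋ := by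
    have h4 := h1 (Finset.mem_image_of_mem _ hk0)
    rw [Finset.mem_Icc] at h4
    exact h4.1.trans h4.2
  have h4 : ((⌊x + r⌋ + 1 - ⌈x - r⌉).toNat : ℝ) = (⌊x + r⌋ : ℝ) + 1 - ⌈x - r⌉ := by
    have h5 : (((⌊x + r⌋ + 1 - ⌈x - r⌉).toNat : ℤ) : ℝ) = ((⌊x + r⌋ + 1 - ⌈x - r⌉ : ℤ) : ℝ) := by
      rw [Int.toNat_of_nonneg (by linarith)]
    push_cast at h5
    linarith
  have h6 : (S.card : ℝ) ≤ ((⌊x + r⌋ + 1 - ⌈x - r⌉).toNat : ℝ) := by exact_mod_cast h2
  rw [h4] at h6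
  have h7 := Int.floor_le (x + r)
  have h8 := Int.le_ceil (x - r)
  linarith

theorem rel_mul (C : ℝ) (hC : 1 ≤ C) (n P : ℕ) (hP : 1 ≤ P) (η : ℝ) (F F' : Finset ℕ) (α α' : ℕ → ℝ)
    (R : Finset (ℕ × ℕ × ℕ)) (h : Rel C n P η F F' α α' R) : Mul (2 * C + 1) P R := by
  have hP0 : (0 : ℝ) < P := by exact_mod_cast hP
  refine ⟨by linarith, hP, h.prime, fun i p => ?_, fun g p => ?_⟩
  · rcases (R.filter (fun t => t.1 = i ∧ t.2.1 = p)).eq_empty_or_nonempty with h0 | ⟨t0, ht0⟩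
    · rw [h0]; simp only [Finset.card_empty, Nat.cast_zero]; linarith
    rw [Finset.mem_filter] at ht0
    have hp : P < p := by
      have := (h.prime t0 ht0.1).2.1
      rw [ht0.2.2] at this
      exact this
    have hp0 : (P : ℝ) < p := by exact_mod_cast hp
    have hinj : Set.InjOn (fun t : ℕ × ℕ × ℕ => t.2.2) (R.filter (fun t => t.1 = i ∧ t.2.1 = p)) := by
      intro a ha b hb hab
      rw [Finset.mem_coe, Finset.mem_filter] at ha hb
      obtain ⟨a1, a2, a3⟩ := a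
      obtain ⟨b1, b2, b3⟩ := b
      simp only at ha hb hab
      rw [Prod.mk.injEq, Prod.mk.injEq]
      exact ⟨ha.2.1.trans hb.2.1.symm, ha.2.2.trans hb.2.2.symm, hab⟩
    rw [← Finset.card_image_of_injOn hinj]
    refine int_card _ ((i : ℝ) * P / p) C (by linarith) ?_
    intro k hk
    rw [Finset.mem_image] at hk
    obtain ⟨t, ht, rfl⟩ := hk
    rw [Finset.mem_filter] at ht
    have h1 := h.pos t ht.1
    rw [ht.2.1, ht.2.2] at h1
    have hpp : (0 : ℝ) < p := by linarith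
    have h2 : (t.2.2 : ℝ) - (i : ℝ) * P / p = ((t.2.2 : ℝ) * p - i * P) / p := by
      field_simp
    rw [h2, abs_div, abs_of_pos hpp, div_le_iff₀ hpp]
    refine h1.trans ?_
    exact mul_le_mul_of_nonneg_left hp0.le (by linarith)
  · have hinj : Set.InjOn (fun t : ℕ × ℕ × ℕ => t.1) (R.filter (fun t => t.2.2 = g ∧ t.2.1 = p)) := by
      intro a ha b hb hab
      rw [Finset.mem_coe, Finset.mem_filter] at ha hb
      obtain ⟨a1, a2, a3⟩ := a
      obtain ⟨b1, b2, b3⟩ := b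
      simp only at ha hb hab
      rw [Prod.mk.injEq, Prod.mk.injEq]
      exact ⟨hab, ha.2.2.trans hb.2.2.symm, ha.2.1.trans hb.2.1.symm⟩
    rw [← Finset.card_image_of_injOn hinj]
    refine int_card _ ((g : ℝ) * p / P) C (by linarith) ?_
    intro k hk
    rw [Finset.mem_image] at hk
    obtain ⟨t, ht, rfl⟩ := hk
    rw [Finset.mem_filter] at ht
    have h1 := h.pos t ht.1
    rw [ht.2.1, ht.2.2] at h1
    have h2 : (t.1 : ℝ) - (g : ℝ) * p / P = -(((g : ℝ) * p - t.1 * P) / P) := by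
      field_simp
      ring
    rw [h2, abs_neg, abs_div, abs_of_pos hP0, div_le_iff₀ hP0]
    exact h1

theorem mul_sub (κ : ℝ) (P : ℕ) (R S : Finset (ℕ × ℕ × ℕ)) (h : Mul κ P R) (hS : S ⊆ R) : Mul κ P S := by
  refine ⟨h.one, h.pos, fun t ht => h.prime t (hS ht), fun i p => ?_, fun g p => ?_⟩
  · refine le_trans ?_ (h.out i p)
    exact_mod_cast Finset.card_le_card (Finset.filter_subset_filter _ hS)
  · refine le_trans ?_ (h.inn g p)
    exact_mod_cast Finset.card_le_card (Finset.filter_subset_filter _ hS)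

private theorem MulRel_card (C : ℝ) (hC : 1 ≤ C) (n : ℕ) (hn : 1 ≤ n) (F : Finset ℕ)
    (h : ∀ K ∈ F, (n : ℝ) / C ≤ K ∧ (K : ℝ) ≤ C * n) : (F.card : ℝ) ≤ C * n := by
  have hn0 : (0 : ℝ) < n := by exact_mod_cast hn
  have hC0 : (0 : ℝ) < C := by linarith
  have h1 : F ⊆ Finset.Icc 1 ⌊C * n⌋₊ := by
    intro K hK
    rw [Finset.mem_Icc]
    constructor
    · have h2 := (h K hK).1
      have h3 : (0 : ℝ) < K := lt_of_lt_of_le (by positivity) h2
      have h4 : 0 < K := by exact_mod_cast h3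
      exact h4
    · exact Nat.le_floor (h K hK).2
  have h2 := Finset.card_le_card h1
  rw [Nat.card_Icc, Nat.add_sub_cancel] at h2
  calc (F.card : ℝ) ≤ (⌊C * n⌋₊ : ℝ) := by exact_mod_cast h2
    _ ≤ C * n := Nat.floor_le (by positivity)

theorem rel_card_le (C : ℝ) (hC : 1 ≤ C) (n P : ℕ) (hn : 1 ≤ n) (η : ℝ) (F F' : Finset ℕ) (α α' : ℕ → ℝ)
    (R : Finset (ℕ × ℕ × ℕ)) (h : Rel C n P η F F' α α' R) : (F.card : ℝ) ≤ C * n ∧ (F'.card : ℝ) ≤ C * n :=
  ⟨MulRel_card C hC n hn F h.rngF, MulRel_card C hC n hn F' h.rngF'⟩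

end Pool.Agent.H74.MDX
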