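import Pool.Agent.H74.MDX.Fib0
import Pool.Agent.H74.MDX.MulRel

/-!
# MDX FibB: walks with given first prime, last prime and position

Proof.  Map `w ↦ (v0 w, p-sequence, q-sequence)`, fibres have at most `κ^(2(j+1))` elements (`walk_fib`).  In the image: the `q`-sequence is determined by
its first `j` members (each in `(P, 2P]`, at most `P^j` possibilities; the last one is `q`), the `p`-sequence by its last `j` members (`P^j` possibilities),
and given the `q`-sequence the first vertex satisfies `|v0 · a - X| ≤ c P^j` with `a = ∏_(s < j) q_s ≥ P^j`, so `|v0 - X/a| ≤ c`: at most `2c+1` values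
(`int_card` in MulRel).  Total `κ^(2j+2) (2c+1) P^(2j)`.
-/

set_option autoImplicit false

namespace Pool.Agent.H74.MDX

open Finset

private theorem FibB_rng {R : Finset (ℕ × ℕ × ℕ)} {F : Finset ℕ} {κ : ℝ} {P j : ℕ} (hM : Mul κ P R) {w : Wk j}
    (hw : w ∈ Om R F j) (s : Fin j) :
    (P < (w.2 s).1 ∧ (w.2 s).1 ≤ 2 * P) ∧ (P < (w.2 s).2.2 ∧ (w.2 s).2.2 ≤ 2 * P) := by
  have h := (mem_Om.1 hw).2.1 s
  exact ⟨(hM.prime _ h.1).2, (hM.prime _ h.2).2⟩

open Classical in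
private theorem FibB_fiber (R : Finset (ℕ × ℕ × ℕ)) (F : Finset ℕ) (κ : ℝ) (P j : ℕ) (hM : Mul κ P R) (c X : ℝ) (hc : 0 ≤ c)
    (p q : ℕ) (b : (Fin j → ℕ) × (Fin j → ℕ)) :
    ((((Om R F (j + 1)).filter (fun w => pf w = p ∧ ql w = q ∧
      |(v0 w : ℝ) * qa (Lw w) - X| ≤ c * (P : ℝ) ^ j)).filter
        (fun w => ((fun s : Fin j => (w.2 s.succ).1), (fun s : Fin j => (w.2 s.castSucc).2.2)) = b)).card : ℝ) ≤
      κ ^ (2 * j + 2) * (2 * c + 1) := by
  set U := (((Om R F (j + 1)).filter (fun w => pf w = p ∧ ql w = q ∧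
      |(v0 w : ℝ) * qa (Lw w) - X| ≤ c * (P : ℝ) ^ j)).filter
        (fun w => ((fun s : Fin j => (w.2 s.succ).1), (fun s : Fin j => (w.2 s.castSucc).2.2)) = b)) with hU
  have hκ : 0 ≤ κ := le_trans zero_le_one hM.one
  have hUm : ∀ w ∈ U, w ∈ Om R F (j + 1) ∧ pf w = p ∧ ql w = q ∧
      |(v0 w : ℝ) * qa (Lw w) - X| ≤ c * (P : ℝ) ^ j ∧ (∀ s : Fin j, (w.2 s.succ).1 = b.1 s) ∧
      (∀ s : Fin j, (w.2 s.castSucc).2.2 = b.2 s) := by
    intro w hw
    rw [hU, Finset.mem_filter, Finset.mem_filter] at hw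
    obtain ⟨⟨h1, h2, h3, h4⟩, h5⟩ := hw
    refine ⟨h1, h2, h3, h4, fun s => ?_, fun s => ?_⟩
    · exact congrFun (congrArg Prod.fst h5) s
    · exact congrFun (congrArg Prod.snd h5) s
  have himg : (((U.image v0).card : ℕ) : ℝ) ≤ 2 * c + 1 := by
    refine int_card _ (X / ((∏ s, b.2 s : ℕ) : ℝ)) c hc ?_
    intro k hk
    rw [Finset.mem_image] at hk
    obtain ⟨w, hw, rfl⟩ := hk
    obtain ⟨h1, -, -, h4, -, h6⟩ := hUm w hw
    have hqa : qa (Lw w) = ∏ s, b.2 s := by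
      unfold qa Lw
      exact Finset.prod_congr rfl (fun s _ => h6 s)
    have hlow : P ^ j ≤ ∏ s, b.2 s := by
      have : ∏ _s : Fin j, P ≤ ∏ s, b.2 s := by
        refine Finset.prod_le_prod' (fun s _ => ?_)
        rw [← h6 s]
        exact (FibB_rng hM h1 s.castSucc).2.1.le
      rwa [Finset.prod_const, Finset.card_univ, Fintype.card_fin] at this
    have hP0 : 0 < P ^ j := Nat.pow_pos hM.pos
    have ha0 : (0 : ℝ) < ((∏ s, b.2 s : ℕ) : ℝ) := by exact_mod_cast lt_of_lt_of_le hP0 hlow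
    have hlow' : (P : ℝ) ^ j ≤ ((∏ s, b.2 s : ℕ) : ℝ) := by exact_mod_cast hlow
    rw [hqa] at h4
    have h7 : (v0 w : ℝ) - X / ((∏ s, b.2 s : ℕ) : ℝ) = ((v0 w : ℝ) * ((∏ s, b.2 s : ℕ) : ℝ) - X) / ((∏ s, b.2 s : ℕ) : ℝ) := by
      field_simp
    rw [h7, abs_div, abs_of_pos ha0, div_le_iff₀ ha0]
    exact h4.trans (mul_le_mul_of_nonneg_left hlow' hc)
  have hsum : U.card = ∑ i ∈ U.image v0, (U.filter (fun w => v0 w = i)).card :=
    Finset.card_eq_sum_card_image v0 U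
  rw [hsum]
  push_cast
  calc ∑ i ∈ U.image v0, ((U.filter (fun w => v0 w = i)).card : ℝ)
      ≤ ∑ i ∈ U.image v0, κ ^ (2 * (j + 1)) := by
        refine Finset.sum_le_sum (fun i _ => ?_)
        refine le_trans ?_ (walk_fib R F κ P (j + 1) hM i (Fin.cons p b.1) (Fin.snoc b.2 q))
        refine Nat.cast_le.2 (Finset.card_le_card ?_)
        intro w hw
        rw [Finset.mem_filter] at hw
        obtain ⟨h1, h2, h3, -, h5, h6⟩ := hUm w hw.1
        rw [Finset.mem_filter]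
        refine ⟨h1, hw.2, fun s => ?_, fun s => ?_⟩
        · refine Fin.cases ?_ (fun t => ?_) s
          · exact h2
          · exact h5 t
        · refine Fin.lastCases ?_ (fun t => ?_) s
          · rw [Fin.snoc_last]
            exact h3
          · rw [Fin.snoc_castSucc]
            exact h6 t
    _ = ((U.image v0).card : ℝ) * κ ^ (2 * (j + 1)) := by
        rw [Finset.sum_const, nsmul_eq_mul]
    _ ≤ (2 * c + 1) * κ ^ (2 * (j + 1)) := mul_le_mul_of_nonneg_right himg (pow_nonneg hκ _)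
    _ = κ ^ (2 * j + 2) * (2 * c + 1) := by
        rw [mul_comm, show 2 * (j + 1) = 2 * j + 2 by ring]

open Classical in
theorem fib_b (R : Finset (ℕ × ℕ × ℕ)) (F : Finset ℕ) (κ : ℝ) (P j : ℕ) (hM : Mul κ P R) (c X : ℝ) (hc : 0 ≤ c) (p q : ℕ) :
    (((Om R F (j + 1)).filter (fun w => pf w = p ∧ ql w = q ∧
      |(v0 w : ℝ) * qa (Lw w) - X| ≤ c * (P : ℝ) ^ j)).card : ℝ) ≤ κ ^ (2 * j + 2) * (2 * c + 1) * (P : ℝ) ^ (2 * j) := by
  set T := (Om R F (j + 1)).filter (fun w => pf w = p ∧ ql w = q ∧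
      |(v0 w : ℝ) * qa (Lw w) - X| ≤ c * (P : ℝ) ^ j) with hT
  let f : Wk (j + 1) → (Fin j → ℕ) × (Fin j → ℕ) :=
    fun w => ((fun s : Fin j => (w.2 s.succ).1), (fun s : Fin j => (w.2 s.castSucc).2.2))
  let PP : Finset (Fin j → ℕ) := Fintype.piFinset (fun _ => Ioc P (2 * P))
  have hmap : ∀ w ∈ T, f w ∈ PP ×ˢ PP := by
    intro w hw
    rw [hT, Finset.mem_filter] at hw
    rw [Finset.mem_product]
    refine ⟨Fintype.mem_piFinset.2 (fun s => ?_), Fintype.mem_piFinset.2 (fun s => ?_)⟩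
    · exact Finset.mem_Ioc.2 (FibB_rng hM hw.1 s.succ).1
    · exact Finset.mem_Ioc.2 (FibB_rng hM hw.1 s.castSucc).2
  have hcard : PP.card = P ^ j := by
    show (Fintype.piFinset (fun _ : Fin j => Ioc P (2 * P))).card = P ^ j
    rw [Fintype.card_piFinset, Finset.prod_const, Finset.card_univ, Fintype.card_fin, Nat.card_Ioc]
    congr 1
    omega
  have hsum : T.card = ∑ b ∈ PP ×ˢ PP, (T.filter (fun w => f w = b)).card :=
    Finset.card_eq_sum_card_fiberwise hmap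
  rw [hsum]
  push_cast
  calc ∑ b ∈ PP ×ˢ PP, ((T.filter (fun w => f w = b)).card : ℝ)
      ≤ ∑ b ∈ PP ×ˢ PP, κ ^ (2 * j + 2) * (2 * c + 1) :=
        Finset.sum_le_sum (fun b _ => FibB_fiber R F κ P j hM c X hc p q b)
    _ = κ ^ (2 * j + 2) * (2 * c + 1) * (P : ℝ) ^ (2 * j) := by
        rw [Finset.sum_const, nsmul_eq_mul, Finset.card_product, hcard]
        push_cast
        ring

end Pool.Agent.H74.MDX
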