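import Pool.Agent.H74.MDX.FibA
import Pool.Agent.H74.MDX.FibB

/-!
# MDX CntS: two counts of exceptional walks

`cntN`: `S ⊆ ⋃_{x ∈ Ms} ⋃_{f ∈ N x} {w : pf w = f.2.1, ql w = f.1.1, |v0 w qa (Lw w) - f.1.2.1 P^j| ≤ D P^j}` and each of these sets is bounded by `fib_b`.
`cntA`: `S ⊆ ⋃_{M ∈ Ms} ⋃_{γ ∈ Γ M, |DS (M, γ)| ≤ y} {w : (qa w, v0 w) ∈ DS (M, γ), pa w ∈ (DS (M, γ)).image fst}`; by `fib_a` each set has at most
`κ^(2j) (j!)^2 |DS|^2 ≤ κ^(2j) (j!)^2 y |DS|` elements; sum over `γ ∈ Γ M` with `hT`.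
-/

set_option autoImplicit false

namespace Pool.Agent.H74.MDX

open Finset

open Classical in
private theorem CntS_un {A B W : Type*} (Ms : Finset A) (N : A → Finset B) (T : A → B → Finset W) (S : Finset W) (f : A → B → ℝ)
    (Y : ℝ) (hS : ∀ w ∈ S, ∃ x ∈ Ms, ∃ b ∈ N x, w ∈ T x b) (hT : ∀ x b, ((T x b).card : ℝ) ≤ f x b)
    (hY : ∀ x ∈ Ms, ∑ b ∈ N x, f x b ≤ Y) : (S.card : ℝ) ≤ Ms.card * Y := by
  have h1 : S ⊆ Ms.biUnion (fun x => (N x).biUnion (fun b => T x b)) := by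
    intro w hw
    obtain ⟨x, hx, b, hb, h⟩ := hS w hw
    exact Finset.mem_biUnion.2 ⟨x, hx, Finset.mem_biUnion.2 ⟨b, hb, h⟩⟩
  have h2 : S.card ≤ ∑ x ∈ Ms, ∑ b ∈ N x, (T x b).card :=
    (Finset.card_le_card h1).trans (Finset.card_biUnion_le.trans
      (Finset.sum_le_sum fun x _ => Finset.card_biUnion_le))
  have h3 : (S.card : ℝ) ≤ ∑ x ∈ Ms, ∑ b ∈ N x, ((T x b).card : ℝ) := by exact_mod_cast h2
  refine h3.trans ?_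
  calc ∑ x ∈ Ms, ∑ b ∈ N x, ((T x b).card : ℝ) ≤ ∑ x ∈ Ms, Y :=
        Finset.sum_le_sum fun x hx => (Finset.sum_le_sum fun b _ => hT x b).trans (hY x hx)
    _ = Ms.card * Y := by rw [Finset.sum_const, nsmul_eq_mul]

theorem cntN (R : Finset (ℕ × ℕ × ℕ)) (F : Finset ℕ) (κ : ℝ) (P j : ℕ) (hM : Mul κ P R) (D B1 : ℝ) (hD : 0 ≤ D)
    (hB1 : 0 ≤ B1) (S : Finset (Wk (j + 1))) (hS : S ⊆ Om R F (j + 1)) (Ms : Finset ℕ) (M : Wk (j + 1) → ℕ)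
    (hMs : ∀ w ∈ S, M w ∈ Ms) (N : ℕ → Finset ((ℕ × ℕ × ℝ) × (ℕ × ℕ × ℝ))) (hN : ∀ x ∈ Ms, ((N x).card : ℝ) ≤ B1)
    (e : Wk (j + 1) → (ℕ × ℕ × ℝ) × (ℕ × ℕ × ℝ)) (he : ∀ w ∈ S, e w ∈ N (M w))
    (he1 : ∀ w ∈ S, (e w).1.1 = ql w ∧ (e w).2.1 = pf w)
    (hpos : ∀ w ∈ S, |(v0 w : ℝ) * qa (Lw w) - (e w).1.2.1 * (P : ℝ) ^ j| ≤ D * (P : ℝ) ^ j) :
    (S.card : ℝ) ≤ Ms.card * (B1 * (κ ^ (2 * j + 2) * (2 * D + 1) * (P : ℝ) ^ (2 * j))) := by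
  classical
  have hκ : (0 : ℝ) ≤ κ := zero_le_one.trans hM.one
  have hZ : 0 ≤ κ ^ (2 * j + 2) * (2 * D + 1) * (P : ℝ) ^ (2 * j) := by positivity
  refine CntS_un Ms N (fun _ f => (Om R F (j + 1)).filter (fun w => pf w = f.2.1 ∧ ql w = f.1.1 ∧
      |(v0 w : ℝ) * qa (Lw w) - (f.1.2.1 : ℝ) * (P : ℝ) ^ j| ≤ D * (P : ℝ) ^ j)) S
    (fun _ _ => κ ^ (2 * j + 2) * (2 * D + 1) * (P : ℝ) ^ (2 * j)) _ ?_ ?_ ?_
  · intro w hw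
    refine ⟨M w, hMs w hw, e w, he w hw, Finset.mem_filter.2 ⟨hS hw, (he1 w hw).2.symm, (he1 w hw).1.symm, hpos w hw⟩⟩
  · intro x f
    exact fib_b R F κ P j hM D ((f.1.2.1 : ℝ) * (P : ℝ) ^ j) hD f.2.1 f.1.1
  · intro x hx
    rw [Finset.sum_const, nsmul_eq_mul]
    exact mul_le_mul_of_nonneg_right (hN x hx) hZ

theorem cntA (R : Finset (ℕ × ℕ × ℕ)) (F : Finset ℕ) (α : ℕ → ℝ) (κ : ℝ) (P j : ℕ) (hM : Mul κ P R) (D τ y T : ℝ)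
    (hy0 : 0 ≤ y) (S : Finset (Wk j)) (hS : S ⊆ Om R F j) (Ms : Finset ℕ) (Γ : ℕ → Finset ℝ) (c : Wk j → ℕ × ℝ)
    (hc : ∀ w ∈ S, (c w).1 ∈ Ms ∧ (c w).2 ∈ Γ (c w).1)
    (h0 : ∀ w ∈ S, (qa w, v0 w) ∈ DS P j D τ F α (c w)) (h1 : ∀ w ∈ S, (pa w, v1 w) ∈ DS P j D τ F α (c w))
    (hy : ∀ w ∈ S, ((DS P j D τ F α (c w)).card : ℝ) ≤ y)
    (hT : ∀ M ∈ Ms, ∑ γ ∈ Γ M, ((DS P j D τ F α (M, γ)).card : ℝ) ≤ T) :
    (S.card : ℝ) ≤ κ ^ (2 * j) * (j.factorial : ℝ) ^ 2 * Ms.card * y * T := by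
  classical
  have hκ : (0 : ℝ) ≤ κ := zero_le_one.trans hM.one
  set Z : ℝ := κ ^ (2 * j) * (j.factorial : ℝ) ^ 2 with hZ
  have hZ0 : 0 ≤ Z := by positivity
  have key := CntS_un Ms (fun x => (Γ x).filter (fun γ => ((DS P j D τ F α (x, γ)).card : ℝ) ≤ y))
    (fun x γ => (Om R F j).filter (fun w => (qa w, v0 w) ∈ DS P j D τ F α (x, γ) ∧
      pa w ∈ (DS P j D τ F α (x, γ)).image Prod.fst)) S
    (fun x γ => Z * ((DS P j D τ F α (x, γ)).card : ℝ) * ((DS P j D τ F α (x, γ)).card : ℝ)) (Z * y * T) ?_ ?_ ?_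
  · refine key.trans (le_of_eq ?_)
    ring
  · intro w hw
    refine ⟨(c w).1, (hc w hw).1, (c w).2, Finset.mem_filter.2 ⟨(hc w hw).2, hy w hw⟩,
      Finset.mem_filter.2 ⟨hS hw, h0 w hw, Finset.mem_image.2 ⟨_, h1 w hw, rfl⟩⟩⟩
  · intro x γ
    refine (fib_a R F κ P j hM (DS P j D τ F α (x, γ)) ((DS P j D τ F α (x, γ)).image Prod.fst)).trans ?_
    refine mul_le_mul_of_nonneg_left ?_ (by positivity)
    exact_mod_cast Finset.card_image_le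
  · intro x hx
    have a1 : ∑ γ ∈ (Γ x).filter (fun γ => ((DS P j D τ F α (x, γ)).card : ℝ) ≤ y),
        Z * ((DS P j D τ F α (x, γ)).card : ℝ) * ((DS P j D τ F α (x, γ)).card : ℝ) ≤
        ∑ γ ∈ (Γ x).filter (fun γ => ((DS P j D τ F α (x, γ)).card : ℝ) ≤ y),
        Z * y * ((DS P j D τ F α (x, γ)).card : ℝ) := by
      refine Finset.sum_le_sum fun γ hγ => ?_
      refine mul_le_mul_of_nonneg_right ?_ (Nat.cast_nonneg _)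
      exact mul_le_mul_of_nonneg_left (Finset.mem_filter.1 hγ).2 hZ0
    refine a1.trans ?_
    rw [← Finset.mul_sum]
    refine mul_le_mul_of_nonneg_left ?_ (by positivity)
    refine le_trans ?_ (hT x hx)
    exact Finset.sum_le_sum_of_subset_of_nonneg (Finset.filter_subset _ _) (fun _ _ _ => Nat.cast_nonneg _)

end Pool.Agent.H74.MDX
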