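import Mathlib

/-!
# MDX Num: the numerical constant

Proof.  With `E = 2C+1` (or a natural number `≥ 100 C`): `Bc C ℓ ≤ 6 · max of the summands`, each is at most `(10 E ℓ)^(10 ℓ)` times powers of 2 (`ℓ! ≤ ℓ^ℓ`), so
`Bc C ℓ ≤ (E1 ℓ)^(E1 ℓ)`; `1/εc C δ ℓ = 4(2C+1)/δ · (8C/δ)^(2ℓ) · (4(2C+1)^2)^ℓ ≤ (E1/δ)^(E1 ℓ)` for a natural number `E1 = E1(C)`; `Dc C ℓ ≤ E1^(E1 ℓ) 2^(ℓ^2)`.
So the left side is at most `(E2 ℓ/δ)^(E2 ℓ) 2^(12 ℓ^2)` for some natural `E2 ≥ 12` depending on `C`; take `D = E2` (monotone in both exponent and base since `E2 ℓ/δ ≥ 1`).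
-/

set_option autoImplicit false

namespace Pool.Agent.H74.MDX

noncomputable def Bc (C : ℝ) (ℓ : ℕ) : ℝ :=
  2 * C * 5 ^ ℓ + 1 + 4 ^ ℓ * C + (2 * C + 1) ^ (2 * ℓ) + (ℓ.factorial : ℝ) ^ 2 + 2 ^ (2 * ℓ + 8)

noncomputable def εc (C δ : ℝ) (ℓ : ℕ) : ℝ := δ / (4 * (2 * C + 1)) * (δ / (8 * C)) ^ (2 * ℓ) / (4 * (2 * C + 1) ^ 2) ^ ℓ

noncomputable def Dc (C : ℝ) (ℓ : ℕ) : ℝ := C * 5 ^ ℓ + 4 ^ ℓ * C + 2 ^ (ℓ ^ 2 + 5 * ℓ)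

/-- the total constant -/
noncomputable def Zc (C δ : ℝ) (ℓ : ℕ) : ℝ := 1000 * Bc C ℓ ^ 54 * Dc C ℓ ^ 12 / εc C δ ℓ ^ 8

private theorem Num_Bc {C : ℝ} (hC : 1 ≤ C) {E ℓ : ℕ} (hE : 100 * C ≤ E) (hℓ : 1 ≤ ℓ) :
    Bc C ℓ ≤ ((E : ℝ) * ℓ) ^ (3 * ℓ) := by
  have hℓ' : (1 : ℝ) ≤ ℓ := by exact_mod_cast hℓ
  have hE1 : (100 : ℝ) ≤ E := by linarith
  set Y : ℝ := (E : ℝ) * ℓ with hY
  have hEY : (E : ℝ) ≤ Y := by rw [hY]; nlinarith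
  have hℓY : (ℓ : ℝ) ≤ Y := by rw [hY]; nlinarith
  have hY1 : 100 ≤ Y := hE1.trans hEY
  have hCY : 100 * C ≤ Y := hE.trans hEY
  have hY0 : 0 ≤ Y := by linarith
  have hYY : Y ^ ℓ ≤ Y ^ (2 * ℓ) := pow_le_pow_right₀ (by linarith) (by omega)
  have h1 : 2 * C * 5 ^ ℓ ≤ Y ^ (2 * ℓ) := by
    calc 2 * C * 5 ^ ℓ ≤ (2 * C) ^ ℓ * 5 ^ ℓ := by
          gcongr
          exact le_self_pow₀ (by linarith) (by omega)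
      _ = (2 * C * 5) ^ ℓ := by rw [← mul_pow]
      _ ≤ Y ^ ℓ := pow_le_pow_left₀ (by positivity) (by linarith) _
      _ ≤ Y ^ (2 * ℓ) := hYY
  have h2 : (1 : ℝ) ≤ Y ^ (2 * ℓ) := one_le_pow₀ (by linarith)
  have h3 : 4 ^ ℓ * C ≤ Y ^ (2 * ℓ) := by
    calc 4 ^ ℓ * C ≤ 4 ^ ℓ * C ^ ℓ := by
          gcongr
          exact le_self_pow₀ hC (by omega)
      _ = (4 * C) ^ ℓ := by rw [mul_pow]
      _ ≤ Y ^ ℓ := pow_le_pow_left₀ (by positivity) (by linarith) _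
      _ ≤ Y ^ (2 * ℓ) := hYY
  have h4 : (2 * C + 1) ^ (2 * ℓ) ≤ Y ^ (2 * ℓ) := pow_le_pow_left₀ (by positivity) (by linarith) _
  have h5 : (ℓ.factorial : ℝ) ^ 2 ≤ Y ^ (2 * ℓ) := by
    have h6 : (ℓ.factorial : ℝ) ≤ (ℓ : ℝ) ^ ℓ := by exact_mod_cast Nat.factorial_le_pow ℓ
    calc (ℓ.factorial : ℝ) ^ 2 ≤ ((ℓ : ℝ) ^ ℓ) ^ 2 := by gcongr
      _ = (ℓ : ℝ) ^ (2 * ℓ) := by rw [← pow_mul, mul_comm]
      _ ≤ Y ^ (2 * ℓ) := by gcongr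
  have h6 : (2 : ℝ) ^ (2 * ℓ + 8) ≤ Y ^ (2 * ℓ) := by
    calc (2 : ℝ) ^ (2 * ℓ + 8) ≤ 2 ^ (10 * ℓ) := pow_le_pow_right₀ (by norm_num) (by omega)
      _ = ((2 : ℝ) ^ 5) ^ (2 * ℓ) := by rw [← pow_mul]; congr 1; ring
      _ ≤ Y ^ (2 * ℓ) := pow_le_pow_left₀ (by positivity) (by norm_num; linarith) _
  have h7 : 6 ≤ Y ^ ℓ := by
    have : Y ≤ Y ^ ℓ := le_self_pow₀ (by linarith) (by omega)
    linarith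
  have h8 : Y ^ (3 * ℓ) = Y ^ ℓ * Y ^ (2 * ℓ) := by rw [← pow_add]; congr 1; ring
  rw [h8]
  have h9 : 0 ≤ Y ^ (2 * ℓ) := by positivity
  calc Bc C ℓ ≤ 6 * Y ^ (2 * ℓ) := by
        unfold Bc
        linarith
    _ ≤ Y ^ ℓ * Y ^ (2 * ℓ) := by gcongr

private theorem Num_Dc {C : ℝ} (hC : 1 ≤ C) {E ℓ : ℕ} (hE : 100 * C ≤ E) (hℓ : 1 ≤ ℓ) :
    Dc C ℓ ≤ ((E : ℝ) * ℓ) ^ (2 * ℓ) * 2 ^ (ℓ ^ 2) := by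
  have hℓ' : (1 : ℝ) ≤ ℓ := by exact_mod_cast hℓ
  have hE1 : (100 : ℝ) ≤ E := by linarith
  set Y : ℝ := (E : ℝ) * ℓ with hY
  have hEY : (E : ℝ) ≤ Y := by rw [hY]; nlinarith
  have hY1 : 100 ≤ Y := hE1.trans hEY
  have hCY : 100 * C ≤ Y := hE.trans hEY
  have hY0 : 0 ≤ Y := by linarith
  have ht : (1 : ℝ) ≤ 2 ^ (ℓ ^ 2) := one_le_pow₀ (by norm_num)
  have h1 : C * 5 ^ ℓ ≤ Y ^ ℓ := by
    calc C * 5 ^ ℓ ≤ C ^ ℓ * 5 ^ ℓ := by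
          gcongr
          exact le_self_pow₀ hC (by omega)
      _ = (C * 5) ^ ℓ := by rw [mul_pow]
      _ ≤ Y ^ ℓ := pow_le_pow_left₀ (by positivity) (by linarith) _
  have h2 : 4 ^ ℓ * C ≤ Y ^ ℓ := by
    calc 4 ^ ℓ * C ≤ 4 ^ ℓ * C ^ ℓ := by
          gcongr
          exact le_self_pow₀ hC (by omega)
      _ = (4 * C) ^ ℓ := by rw [mul_pow]
      _ ≤ Y ^ ℓ := pow_le_pow_left₀ (by positivity) (by linarith) _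
  have h3 : (2 : ℝ) ^ (ℓ ^ 2 + 5 * ℓ) ≤ 2 ^ (ℓ ^ 2) * Y ^ ℓ := by
    rw [pow_add, pow_mul]
    gcongr
    norm_num
    linarith
  have h4 : 3 ≤ Y ^ ℓ := by
    have : Y ≤ Y ^ ℓ := le_self_pow₀ (by linarith) (by omega)
    linarith
  have h5 : 0 ≤ Y ^ ℓ := by positivity
  have h6 : Y ^ (2 * ℓ) = Y ^ ℓ * Y ^ ℓ := by rw [← pow_add]; congr 1; ring
  have h7 : Y ^ ℓ ≤ 2 ^ (ℓ ^ 2) * Y ^ ℓ := le_mul_of_one_le_left h5 ht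
  calc Dc C ℓ ≤ 3 * (2 ^ (ℓ ^ 2) * Y ^ ℓ) := by
        unfold Dc
        linarith
    _ ≤ Y ^ ℓ * (2 ^ (ℓ ^ 2) * Y ^ ℓ) := by gcongr
    _ = Y ^ (2 * ℓ) * 2 ^ (ℓ ^ 2) := by rw [h6]; ring

private theorem Num_eps {C δ : ℝ} (hC : 1 ≤ C) (hδ : 0 < δ) (hδ1 : δ ≤ 1) {E ℓ : ℕ} (hE : 100 * C ≤ E)
    (hℓ : 1 ≤ ℓ) : 1 / εc C δ ℓ ≤ ((E : ℝ) * ℓ / δ) ^ (5 * ℓ) := by
  have hℓ' : (1 : ℝ) ≤ ℓ := by exact_mod_cast hℓ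
  have hE1 : (100 : ℝ) ≤ E := by linarith
  set X : ℝ := (E : ℝ) * ℓ / δ with hX
  have hEX : (E : ℝ) / δ ≤ X := by
    rw [hX]
    gcongr
    nlinarith
  have hEE : (E : ℝ) ≤ E / δ := by
    rw [le_div_iff₀ hδ]
    nlinarith
  have hX1 : 100 ≤ X := hE1.trans (hEE.trans hEX)
  have hX0 : 0 ≤ X := by linarith
  have hCX : 100 * C / δ ≤ X := by
    refine le_trans ?_ hEX
    gcongr
  have h0 : 1 / εc C δ ℓ = 4 * (2 * C + 1) / δ * (8 * C / δ) ^ (2 * ℓ) * (4 * (2 * C + 1) ^ 2) ^ ℓ := by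
    unfold εc
    rw [div_pow δ (8 * C), div_pow (8 * C) δ]
    field_simp
  have h1 : 4 * (2 * C + 1) / δ ≤ X ^ ℓ := by
    calc 4 * (2 * C + 1) / δ ≤ 100 * C / δ := div_le_div_of_nonneg_right (by linarith) hδ.le
      _ ≤ X := hCX
      _ ≤ X ^ ℓ := le_self_pow₀ (by linarith) (by omega)
  have h2 : (8 * C / δ) ^ (2 * ℓ) ≤ X ^ (2 * ℓ) := by
    refine pow_le_pow_left₀ (by positivity) ?_ _
    refine le_trans ?_ hCX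
    gcongr
    norm_num
  have h3 : (4 * (2 * C + 1) ^ 2) ^ ℓ ≤ X ^ (2 * ℓ) := by
    have h4 : (4 * (2 * C + 1) ^ 2) ^ ℓ = (2 * (2 * C + 1)) ^ (2 * ℓ) := by
      rw [pow_mul]
      congr 1
      ring
    rw [h4]
    refine pow_le_pow_left₀ (by positivity) ?_ _
    have : 100 * C ≤ X := hE.trans (hEE.trans hEX)
    linarith
  have h5 : X ^ (5 * ℓ) = X ^ ℓ * X ^ (2 * ℓ) * X ^ (2 * ℓ) := by
    rw [← pow_add, ← pow_add]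
    congr 1
    ring
  rw [h0, h5]
  gcongr

theorem comb_num (C : ℝ) (hC : 1 ≤ C) : ∃ D : ℕ, 1 ≤ D ∧ ∀ (ℓ : ℕ) (δ : ℝ), 1 ≤ ℓ → 0 < δ → δ ≤ 1 →
    Zc C δ ℓ ≤ (D * ℓ / δ) ^ (D * ℓ) * 2 ^ (D * ℓ ^ 2) := by
  obtain ⟨E, hE⟩ := exists_nat_ge (100 * C)
  refine ⟨E + 228, by omega, ?_⟩
  intro ℓ δ hℓ hδ hδ1
  have hℓ' : (1 : ℝ) ≤ ℓ := by exact_mod_cast hℓ
  have hE1 : (100 : ℝ) ≤ E := by linarith
  have hB := Num_Bc hC hE hℓ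
  have hD := Num_Dc hC hE hℓ
  have he := Num_eps hC hδ hδ1 hE hℓ
  set X : ℝ := (E : ℝ) * ℓ / δ with hX
  have hYX : (E : ℝ) * ℓ ≤ X := by
    rw [hX, le_div_iff₀ hδ]
    have : 0 ≤ (E : ℝ) * ℓ := by positivity
    nlinarith
  have hY1 : 100 ≤ (E : ℝ) * ℓ := by nlinarith
  have hX1 : 100 ≤ X := hY1.trans hYX
  have hX0 : 0 ≤ X := by linarith
  have hBX : Bc C ℓ ≤ X ^ (3 * ℓ) := hB.trans (by gcongr)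
  have hDX : Dc C ℓ ≤ X ^ (2 * ℓ) * 2 ^ (ℓ ^ 2) := hD.trans (by gcongr)
  have hB0 : 0 ≤ Bc C ℓ := by
    unfold Bc
    positivity
  have hD0 : 0 ≤ Dc C ℓ := by
    unfold Dc
    positivity
  have hε0 : 0 < εc C δ ℓ := by
    unfold εc
    positivity
  have h1000 : (1000 : ℝ) ≤ X ^ (2 * ℓ) := by
    calc (1000 : ℝ) ≤ 100 ^ 2 := by norm_num
      _ ≤ X ^ 2 := by gcongr
      _ ≤ X ^ (2 * ℓ) := pow_le_pow_right₀ (by linarith) (by omega)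
  have hZ : Zc C δ ℓ ≤ X ^ (228 * ℓ) * 2 ^ (12 * ℓ ^ 2) := by
    have h1 : Zc C δ ℓ = 1000 * Bc C ℓ ^ 54 * Dc C ℓ ^ 12 * (1 / εc C δ ℓ) ^ 8 := by
      unfold Zc
      rw [one_div, inv_pow]
      rfl
    have h2 : (0 : ℝ) ≤ 1 / εc C δ ℓ := by positivity
    rw [h1]
    calc 1000 * Bc C ℓ ^ 54 * Dc C ℓ ^ 12 * (1 / εc C δ ℓ) ^ 8 ≤
        X ^ (2 * ℓ) * (X ^ (3 * ℓ)) ^ 54 * (X ^ (2 * ℓ) * 2 ^ (ℓ ^ 2)) ^ 12 * (X ^ (5 * ℓ)) ^ 8 := by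
          gcongr
      _ = X ^ (228 * ℓ) * 2 ^ (12 * ℓ ^ 2) := by
          rw [mul_pow, ← pow_mul, ← pow_mul, ← pow_mul, ← pow_mul]
          rw [show 12 * ℓ ^ 2 = ℓ ^ 2 * 12 by ring]
          rw [show 228 * ℓ = 2 * ℓ + 3 * ℓ * 54 + 2 * ℓ * 12 + 5 * ℓ * 8 by ring, pow_add, pow_add, pow_add]
          ring
  refine hZ.trans ?_
  have hXD : X ≤ ((E + 228 : ℕ) : ℝ) * ℓ / δ := by
    rw [hX]
    gcongr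
    linarith
  have h1 : X ^ (228 * ℓ) ≤ (((E + 228 : ℕ) : ℝ) * ℓ / δ) ^ ((E + 228) * ℓ) := by
    calc X ^ (228 * ℓ) ≤ (((E + 228 : ℕ) : ℝ) * ℓ / δ) ^ (228 * ℓ) := by gcongr
      _ ≤ (((E + 228 : ℕ) : ℝ) * ℓ / δ) ^ ((E + 228) * ℓ) := by
          refine pow_le_pow_right₀ (by linarith) ?_
          exact Nat.mul_le_mul_right ℓ (by omega)
  have h2 : (2 : ℝ) ^ (12 * ℓ ^ 2) ≤ 2 ^ ((E + 228) * ℓ ^ 2) := by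
    refine pow_le_pow_right₀ (by norm_num) ?_
    exact Nat.mul_le_mul_right _ (by omega)
  gcongr

end Pool.Agent.H74.MDX
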