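import Pool.Agent.H74.MDX.Step
import Pool.Agent.H74.MDX.Clean
import Pool.Agent.H74.MDX.Cnt
import Pool.Agent.H74.MDX.TopX
import Pool.Agent.H74.MDX.Num

/-!
# MDX Combx: the combinatorial theorem with growing number of levels

Proof.  Put `κ0 = 2C+1`, `B = Bc C ℓ`, `ε = εc C δ ℓ`, `Dt = Dc C ℓ`, so `Zc C δ ℓ = 1000 B^54 Dt^12/ε^8 ≤ Q ≤ P`.
(1) `clean` with `m = k = δP/(4C)` and `rel_card_le`: `S ⊆ R0` with `|S| ≥ δ n P/2` and all degrees `≥ δP/(4C)`.  `F = S.image fst`; `Rel C n P (η P) F G0 α β S`;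
`|S| ≤ κ0 P |F|` (`rel_mul`: given `i, p` at most `κ0` triples), so `|F| ≥ δ n/(2κ0)`.
(2) `om_card` at `ℓ` with `m = δP/(4C)`, `2ℓκ0 ≤ δP/(8C)`: `|Om S F ℓ| ≥ δ n/(2κ0) (δP/(8C))^(2ℓ) = 2 (4κ0^2)^ℓ ε n P^(2ℓ)`.
(3) `Par C ℓ P B ε η`; `lvl0` and `lvl_step` (induction on `j ≤ ℓ`) give `Lvl .. ℓ V G c`; by `exc` and (2) `G` is not empty, so `V` has an element `v = c w`.
(4) `topx` with `D = Dt`, `ρ = ε/B^5`, `J = ℓ`, `K = v.1`, `w = v.2`, `S = DS P ℓ (C 5^ℓ) (2^(ℓ^2+5ℓ) η) F α v` (`DS_desc`, monotone; `F0 := F`), `|S| ≥ ρ P^ℓ`.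
All conclusions follow from `48 Dt^6 B^10/ε^2 ≤ Zc ≤ Q`, and the conditions `48 Dt^6 ≤ ρ P`, `48 Dt^6 η P^2 ≤ ρ` from `Q ≤ P`, `Q η P^3 ≤ 1`.
-/

set_option autoImplicit false

namespace Pool.Agent.H74.MDX

open Finset
open Pool.Agent.H53.MID (nz Rel Desc)

/-- elementary facts about the constants -/
private theorem Combx_const (C δ : ℝ) (ℓ : ℕ) (hC : 1 ≤ C) (_hℓ : 1 ≤ ℓ) (hδ : 0 < δ) (hδ1 : δ ≤ 1) :
    (1 ≤ Bc C ℓ ∧ 2 * C * 5 ^ ℓ + 1 ≤ Bc C ℓ ∧ 4 ^ ℓ * C ≤ Bc C ℓ ∧ (2 * C + 1) ^ (2 * ℓ) ≤ Bc C ℓ ∧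
      (ℓ.factorial : ℝ) ^ 2 ≤ Bc C ℓ ∧ (2 : ℝ) ^ (2 * ℓ + 8) ≤ Bc C ℓ) ∧
    (1 ≤ Dc C ℓ ∧ C * 5 ^ ℓ ≤ Dc C ℓ ∧ 4 ^ ℓ * C ≤ Dc C ℓ ∧ (2 : ℝ) ^ (ℓ ^ 2 + 5 * ℓ) ≤ Dc C ℓ) ∧
    (0 < εc C δ ℓ ∧ εc C δ ℓ ≤ 1 ∧ εc C δ ℓ ≤ δ) := by
  have hC0 : 0 < C := by linarith
  have h5 : (1 : ℝ) ≤ 5 ^ ℓ := one_le_pow₀ (by norm_num)
  have h4 : (1 : ℝ) ≤ 4 ^ ℓ := one_le_pow₀ (by norm_num)
  have hk : (1 : ℝ) ≤ (2 * C + 1) ^ (2 * ℓ) := one_le_pow₀ (by linarith)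
  have hf : (0 : ℝ) ≤ (ℓ.factorial : ℝ) ^ 2 := by positivity
  have h2 : (1 : ℝ) ≤ 2 ^ (2 * ℓ + 8) := one_le_pow₀ (by norm_num)
  have h2' : (1 : ℝ) ≤ 2 ^ (ℓ ^ 2 + 5 * ℓ) := one_le_pow₀ (by norm_num)
  have hC5 : 0 ≤ C * 5 ^ ℓ := by positivity
  have hC4 : 0 ≤ 4 ^ ℓ * C := by positivity
  refine ⟨?_, ?_, ?_⟩
  · unfold Bc
    refine ⟨?_, ?_, ?_, ?_, ?_, ?_⟩ <;> linarith
  · unfold Dc
    refine ⟨?_, ?_, ?_, ?_⟩ <;> linarith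
  · have e1 : (0 : ℝ) < (4 * (2 * C + 1) ^ 2) ^ ℓ := by positivity
    have e2 : 1 ≤ (4 * (2 * C + 1) ^ 2) ^ ℓ := one_le_pow₀ (by nlinarith)
    have e3 : δ / (8 * C) ≤ 1 := by
      rw [div_le_one (by positivity)]
      linarith
    have e4 : (δ / (8 * C)) ^ (2 * ℓ) ≤ 1 := pow_le_one₀ (by positivity) e3
    have e5 : δ / (4 * (2 * C + 1)) ≤ δ := by
      apply div_le_self hδ.le
      linarith
    have e6 : εc C δ ℓ ≤ δ := by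
      unfold εc
      rw [div_le_iff₀ e1]
      calc δ / (4 * (2 * C + 1)) * (δ / (8 * C)) ^ (2 * ℓ) ≤ δ * 1 :=
            mul_le_mul e5 e4 (by positivity) hδ.le
        _ ≤ δ * (4 * (2 * C + 1) ^ 2) ^ ℓ := mul_le_mul_of_nonneg_left e2 hδ.le
    refine ⟨?_, e6.trans hδ1, e6⟩
    unfold εc
    positivity

/-- a lower bound for `Z` -/
private theorem Combx_Z (B D ε : ℝ) (hB : 1 ≤ B) (hD : 1 ≤ D) (hε : 0 < ε) (hε1 : ε ≤ 1) (a b c : ℕ) (ha : a ≤ 54)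
    (hb : b ≤ 12) (hc : c ≤ 8) : 1000 * (B ^ a * D ^ b / ε ^ c) ≤ 1000 * B ^ 54 * D ^ 12 / ε ^ 8 := by
  have e1 : B ^ a ≤ B ^ 54 := pow_le_pow_right₀ hB ha
  have e2 : D ^ b ≤ D ^ 12 := pow_le_pow_right₀ hD hb
  have e3 : ε ^ 8 ≤ ε ^ c := pow_le_pow_of_le_one hε.le hε1 hc
  have e4 : B ^ a * D ^ b / ε ^ c ≤ B ^ 54 * D ^ 12 / ε ^ 8 := by
    apply div_le_div₀ (by positivity) (mul_le_mul e1 e2 (by positivity) (by positivity)) (by positivity) e3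
  calc 1000 * (B ^ a * D ^ b / ε ^ c) ≤ 1000 * (B ^ 54 * D ^ 12 / ε ^ 8) :=
        mul_le_mul_of_nonneg_left e4 (by norm_num)
    _ = 1000 * B ^ 54 * D ^ 12 / ε ^ 8 := by ring

private theorem Combx_P (C δ : ℝ) (ℓ : ℕ) (hC : 1 ≤ C) (hℓ : 1 ≤ ℓ) (hδ : 0 < δ) (hδ1 : δ ≤ 1) :
    1000 ≤ Zc C δ ℓ := by
  obtain ⟨⟨hB, -⟩, ⟨hD, -⟩, hε, hε1, -⟩ := Combx_const C δ ℓ hC hℓ hδ hδ1
  have := Combx_Z _ _ _ hB hD hε hε1 0 0 0 (by norm_num) (by norm_num) (by norm_num)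
  unfold Zc
  simpa using this

/-- the descendants are monotone in the set of the indices -/
private theorem Combx_mono (P j : ℕ) (D τ : ℝ) {F F' : Finset ℕ} (h : F ⊆ F') (α : ℕ → ℝ) (v : ℕ × ℝ) :
    DS P j D τ F α v ⊆ DS P j D τ F' α v := by
  intro t ht
  rw [mem_DS] at ht ⊢
  exact ⟨ht.1, ht.2.1, h ht.2.2.1, ht.2.2.2⟩

/-- a relation with few first coordinates is small -/
private theorem Combx_first (κ : ℝ) (P : ℕ) (S : Finset (ℕ × ℕ × ℕ)) (h : Mul κ P S) :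
    (S.card : ℝ) ≤ κ * P * ((S.image Prod.fst).card : ℝ) := by
  classical
  set T : Finset (ℕ × ℕ) := (S.image Prod.fst) ×ˢ (Ioc P (2 * P)) with hT
  have hmap : ∀ t ∈ S, (t.1, t.2.1) ∈ T := by
    intro t ht
    rw [hT, Finset.mem_product]
    refine ⟨Finset.mem_image_of_mem _ ht, ?_⟩
    rw [Finset.mem_Ioc]
    exact (h.prime t ht).2
  have h1 := Finset.card_eq_sum_card_fiberwise (f := fun t : ℕ × ℕ × ℕ => (t.1, t.2.1)) (s := S) (t := T) hmap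
  have h2 : (S.card : ℝ) = ∑ b ∈ T, ((S.filter fun t => (t.1, t.2.1) = b).card : ℝ) := by
    exact_mod_cast h1
  rw [h2]
  calc ∑ b ∈ T, ((S.filter fun t => (t.1, t.2.1) = b).card : ℝ) ≤ ∑ b ∈ T, κ := by
        refine Finset.sum_le_sum fun b _ => ?_
        have h3 := h.out b.1 b.2
        have h4 : (S.filter fun t => (t.1, t.2.1) = b) = S.filter fun t => t.1 = b.1 ∧ t.2.1 = b.2 := by
          refine Finset.filter_congr fun t _ => ?_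
          rw [Prod.ext_iff]
        rw [h4]
        exact h3
    _ = κ * P * ((S.image Prod.fst).card : ℝ) := by
        rw [Finset.sum_const, nsmul_eq_mul, hT, Finset.card_product, Nat.card_Ioc]
        have h5 : 2 * P - P = P := by omega
        rw [h5]
        push_cast
        ring

theorem combx_node (C : ℝ) (hC : 1 ≤ C) (n P ℓ : ℕ) (δ η Q : ℝ) (hn : 1 ≤ n) (hℓ : 1 ≤ ℓ) (hδ : 0 < δ) (hδ1 : δ ≤ 1)
    (hη : 0 < η) (hQ : Zc C δ ℓ ≤ Q) (hQP : Q ≤ P) (hQη : Q * η * (P : ℝ) ^ 3 ≤ 1) (F0 G0 : Finset ℕ) (α β : ℕ → ℝ)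
    (R0 : Finset (ℕ × ℕ × ℕ)) (hR : Rel C n P (η * P) F0 G0 α β R0) (hR0 : δ * n * P ≤ R0.card) :
    ∃ v : ℕ × ℝ, (n : ℝ) / C ≤ v.1 ∧ (v.1 : ℝ) ≤ 4 ^ ℓ * C * n ∧ εc C δ ℓ / Bc C ℓ ^ 5 * (P : ℝ) ^ ℓ ≤
      ((DS P ℓ (C * 5 ^ ℓ) (2 ^ (ℓ ^ 2 + 5 * ℓ) * η) F0 α v).card : ℝ) := by
  classical
  obtain ⟨⟨hB, hB1, hB2, hB3, hB4, hB5⟩, ⟨hD, -, -, hD3⟩, hε, hε1, hεδ⟩ := Combx_const C δ ℓ hC hℓ hδ hδ1
  have hZ1000 := Combx_P C δ ℓ hC hℓ hδ hδ1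
  have hPr : (1000 : ℝ) ≤ P := (hZ1000.trans hQ).trans hQP
  have hP0 : (0 : ℝ) < P := by linarith
  have hP1 : 1 ≤ P := by
    have : (0 : ℝ) < (P : ℝ) := hP0
    exact_mod_cast this
  have hC0 : 0 < C := by linarith
  have hn0 : (0 : ℝ) < n := by exact_mod_cast hn
  have hQ0 : 0 < Q := by linarith
  obtain ⟨B, hBdef⟩ : ∃ B, B = Bc C ℓ := ⟨_, rfl⟩
  obtain ⟨ε, hεdef⟩ : ∃ ε, ε = εc C δ ℓ := ⟨_, rfl⟩
  obtain ⟨Dt, hDdef⟩ : ∃ Dt, Dt = Dc C ℓ := ⟨_, rfl⟩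
  have hZdef : Zc C δ ℓ = 1000 * B ^ 54 * Dt ^ 12 / ε ^ 8 := by
    rw [hBdef, hεdef, hDdef]
    rfl
  rw [← hBdef] at hB hB1 hB2 hB3 hB4 hB5
  rw [← hεdef] at hε hε1 hεδ
  rw [← hDdef] at hD hD3
  rw [← hBdef, ← hεdef]
  have hB0 : 0 < B := by linarith
  have hZP : 1000 * B ^ 54 * Dt ^ 12 / ε ^ 8 ≤ P := by
    rw [← hZdef]
    exact hQ.trans hQP
  have hZQ : 1000 * B ^ 54 * Dt ^ 12 / ε ^ 8 ≤ Q := by
    rw [← hZdef]
    exact hQ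
  -- the cleaning
  set m : ℝ := δ * P / (4 * C) with hm
  have hm0 : 0 ≤ m := by positivity
  obtain ⟨hF0c, hG0c⟩ := rel_card_le C hC n P hn (η * P) F0 G0 α β R0 hR
  obtain ⟨S, hSR, hScard, hS1, hS2⟩ := clean R0 F0 G0 hR.memF hR.memF' m m hm0 hm0
  have hSlow : δ * n * P / 2 ≤ S.card := by
    have h1 : m * F0.card ≤ m * (C * n) := mul_le_mul_of_nonneg_left hF0c hm0
    have h2 : m * G0.card ≤ m * (C * n) := mul_le_mul_of_nonneg_left hG0c hm0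
    have h3 : m * (C * n) = δ * n * P / 4 := by
      rw [hm]
      field_simp
    linarith
  set F : Finset ℕ := S.image Prod.fst with hF
  have hFF0 : F ⊆ F0 := by
    intro i hi
    rw [hF, Finset.mem_image] at hi
    obtain ⟨t, ht, rfl⟩ := hi
    exact hR.memF t (hSR ht)
  have hRelS : Rel C n P (η * P) F G0 α β S :=
    { memF := fun t ht => by rw [hF]; exact Finset.mem_image_of_mem _ ht
      memF' := fun t ht => hR.memF' t (hSR ht)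
      prime := fun t ht => hR.prime t (hSR ht)
      pos := fun t ht => hR.pos t (hSR ht)
      freq := fun t ht => hR.freq t (hSR ht)
      rngF := fun K hK => hR.rngF K (hFF0 hK)
      rngF' := hR.rngF' }
  have hMul : Mul (2 * C + 1) P S := rel_mul C hC n P hP1 (η * P) F G0 α β S hRelS
  have hFlow : δ * n / (2 * (2 * C + 1)) ≤ F.card := by
    have h1 := Combx_first (2 * C + 1) P S hMul
    rw [← hF] at h1
    rw [div_le_iff₀ (by positivity)]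
    have h2 : δ * n * P ≤ (F.card : ℝ) * (2 * (2 * C + 1)) * P := by linarith
    exact le_of_mul_le_mul_right h2 hP0
  -- the number of walks
  have hmκ : 2 * ℓ * (2 * C + 1) ≤ δ * P / (8 * C) := by
    rw [le_div_iff₀ (by positivity)]
    have hℓ2 : (ℓ : ℝ) ≤ B := by
      have h1 : ℓ < 2 ^ ℓ := Nat.lt_two_pow_self
      have h2 : (ℓ : ℝ) ≤ 2 ^ ℓ := by exact_mod_cast h1.le
      have h3 : (2 : ℝ) ^ ℓ ≤ 2 ^ (2 * ℓ + 8) := pow_le_pow_right₀ (by norm_num) (by omega)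
      linarith
    have hCB : 2 * C + 1 ≤ B := by
      have h5 : (1 : ℝ) ≤ 5 ^ ℓ := one_le_pow₀ (by norm_num)
      have : 2 * C * 1 ≤ 2 * C * 5 ^ ℓ := mul_le_mul_of_nonneg_left h5 (by positivity)
      linarith
    have hz := Combx_Z B Dt ε hB hD hε hε1 3 0 1 (by norm_num) (by norm_num) (by norm_num)
    rw [pow_zero, mul_one, pow_one] at hz
    have hz2 : 1000 * (B ^ 3 / ε) ≤ P := hz.trans hZP
    have hz3 : 1000 * (B ^ 3 / ε) * ε = 1000 * B ^ 3 := by field_simp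
    have hz4 : 1000 * B ^ 3 ≤ P * ε := by
      have := mul_le_mul_of_nonneg_right hz2 hε.le
      rwa [hz3] at this
    have hz5 : (P : ℝ) * ε ≤ P * δ := mul_le_mul_of_nonneg_left hεδ hP0.le
    have hc1 : (ℓ : ℝ) * (2 * C + 1) ≤ B * B := mul_le_mul hℓ2 hCB (by positivity) hB0.le
    have hc2 : (ℓ : ℝ) * (2 * C + 1) * C ≤ B * B * B :=
      mul_le_mul hc1 (by linarith) hC0.le (by positivity)
    have hB3' : B * B * B = B ^ 3 := by ring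
    rw [hB3'] at hc2
    have hB30 : 0 < B ^ 3 := by positivity
    calc 2 * (ℓ : ℝ) * (2 * C + 1) * (8 * C) = 16 * ((ℓ : ℝ) * (2 * C + 1) * C) := by ring
      _ ≤ 16 * B ^ 3 := by linarith
      _ ≤ δ * P := by linarith
  have hmm : δ * P / (8 * C) ≤ m - 2 * ℓ * (2 * C + 1) := by
    have : m = δ * P / (8 * C) + δ * P / (8 * C) := by
      rw [hm]
      field_simp
      ring
    rw [this]
    linarith
  have hOm := om_card S F (2 * C + 1) m P ℓ hMul hRelS.memF (by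
      have h0 : 0 ≤ δ * P / (8 * C) := by positivity
      linarith) (by
      intro i hi
      rw [hF, Finset.mem_image] at hi
      obtain ⟨t, ht, rfl⟩ := hi
      exact hS1 t ht) hS2
  have hpow : (δ * P / (8 * C)) ^ (2 * ℓ) ≤ (m - 2 * ℓ * (2 * C + 1)) ^ (2 * ℓ) :=
    pow_le_pow_left₀ (by positivity) hmm _
  have hOm2 : 2 * ((4 * (2 * C + 1) ^ 2) ^ ℓ * ε * n * (P : ℝ) ^ (2 * ℓ)) ≤ (Om S F ℓ).card := by
    refine le_trans (le_of_eq ?_) ((mul_le_mul hFlow hpow (by positivity) (by positivity)).trans hOm)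
    rw [hεdef]
    unfold εc
    have hne : (4 * (2 * C + 1) ^ 2) ^ ℓ ≠ 0 := by positivity
    have e : δ * P / (8 * C) = (δ / (8 * C)) * P := by ring
    rw [e, mul_pow (δ / (8 * C)) (P : ℝ) (2 * ℓ)]
    generalize (δ / (8 * C)) ^ (2 * ℓ) = X
    generalize (4 * (2 * C + 1) ^ 2) ^ ℓ = Y at hne
    field_simp
    ring
  -- the levels
  have hPar : Par C ℓ P B ε η :=
    { hC := hC
      hB1 := hB1
      hB2 := hB2
      hB3 := hB3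
      hB4 := hB4
      hB5 := hB5
      hε := hε
      hε1 := hε1
      hη := hη
      hP := by
        have h1 : 1000 * B ^ 54 * Dt ^ 12 ≤ P * ε ^ 8 := by
          rwa [div_le_iff₀ (by positivity)] at hZP
        have h2 : (1 : ℝ) ≤ Dt ^ 12 := one_le_pow₀ hD
        have h3 : 1000 * B ^ 54 * 1 ≤ 1000 * B ^ 54 * Dt ^ 12 :=
          mul_le_mul_of_nonneg_left h2 (by positivity)
        have h4 : 0 < B ^ 54 := by positivity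
        linarith
      hηP := by
        have h1 : (2 : ℝ) ^ (ℓ ^ 2 + 5 * ℓ + 10) ≤ Q := by
          have hz := Combx_Z B Dt ε hB hD hε hε1 1 1 0 (by norm_num) (by norm_num) (by norm_num)
          rw [pow_one, pow_one, pow_zero, div_one] at hz
          have h2 : (2 : ℝ) ≤ B := by
            have : (2 : ℝ) ^ 1 ≤ 2 ^ (2 * ℓ + 8) := pow_le_pow_right₀ (by norm_num) (by omega)
            linarith
          rw [pow_add]
          calc (2 : ℝ) ^ (ℓ ^ 2 + 5 * ℓ) * 2 ^ 10 ≤ Dt * 2 ^ 10 :=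
                mul_le_mul_of_nonneg_right hD3 (by positivity)
            _ ≤ 1000 * (B * Dt) := by nlinarith
            _ ≤ Q := hz.trans hZQ
        have h2 : 0 ≤ η * (P : ℝ) ^ 3 := by positivity
        calc (2 : ℝ) ^ (ℓ ^ 2 + 5 * ℓ + 10) * η * (P : ℝ) ^ 3 = 2 ^ (ℓ ^ 2 + 5 * ℓ + 10) * (η * (P : ℝ) ^ 3) := by
              ring
          _ ≤ Q * (η * (P : ℝ) ^ 3) := mul_le_mul_of_nonneg_right h1 h2
          _ = Q * η * (P : ℝ) ^ 3 := by ring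
          _ ≤ 1 := hQη }
  have hlev : ∀ j : ℕ, j ≤ ℓ → ∃ (V : Finset (ℕ × ℝ)) (G : Finset (Wk j)) (c : Wk j → ℕ × ℝ),
      Lvl C B ε η n P F α S j V G c := by
    intro j
    induction j with
    | zero =>
      intro _
      exact lvl0 C B ε η ℓ n P F G0 α β S hPar hP1 hRelS
    | succ j ih =>
      intro hj
      obtain ⟨V, G, c, hL⟩ := ih (by omega)
      exact lvl_step C B ε η ℓ n P j F α S hPar (by omega) hn hMul V G c hL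
  obtain ⟨V, G, c, hL⟩ := hlev ℓ le_rfl
  have hpos : 0 < (4 * (2 * C + 1) ^ 2) ^ ℓ * ε * n * (P : ℝ) ^ (2 * ℓ) := by positivity
  have hex : ∃ w ∈ Om S F ℓ, w ∈ G := by
    by_contra hcon
    push Not at hcon
    have h1 : (Om S F ℓ).filter (fun w => w ∉ G) = Om S F ℓ := Finset.filter_true_of_mem hcon
    have h2 := hL.exc
    rw [h1] at h2
    linarith
  obtain ⟨w, -, hwG⟩ := hex
  have hv := hL.col w hwG
  obtain ⟨hr1, hr2⟩ := hL.rng _ hv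
  refine ⟨c w, hr1, hr2, (hL.desc _ hv).trans ?_⟩
  exact_mod_cast Finset.card_le_card (Combx_mono P ℓ _ _ hFF0 α (c w))

theorem combx (C : ℝ) (hC : 1 ≤ C) (n P ℓ : ℕ) (δ η Q : ℝ) (hn : 1 ≤ n) (hℓ : 1 ≤ ℓ) (hnP : (n : ℝ) * P ≤ (P : ℝ) ^ ℓ)
    (hnP2 : (P : ℝ) ^ ℓ ≤ n * (P : ℝ) ^ 2) (hδ : 0 < δ) (hδ1 : δ ≤ 1)
    (hη : 0 < η) (hQ : Zc C δ ℓ ≤ Q) (hQP : Q ≤ P) (hQη : Q * η * (P : ℝ) ^ 3 ≤ 1) (F0 G0 : Finset ℕ) (α β : ℕ → ℝ)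
    (R0 : Finset (ℕ × ℕ × ℕ)) (hR : Rel C n P (η * P) F0 G0 α β R0) (hR0 : δ * n * P ≤ R0.card) :
    ∃ (d b : ℕ) (T : ℝ) (F1 : Finset ℕ), 1 ≤ d ∧ (d : ℝ) ≤ Q ∧ |T| ≤ Q * η * (n : ℝ) ^ 2 ∧ F1 ⊆ F0 ∧
      (n : ℝ) ≤ Q * F1.card ∧ ∀ i ∈ F1, nz (α i - b / d - T / i) ≤ Q * η := by
  obtain ⟨v, hv1, hv2, hv3⟩ := combx_node C hC n P ℓ δ η Q hn hℓ hδ hδ1 hη hQ hQP hQη F0 G0 α β R0 hR hR0
  obtain ⟨⟨hB, -⟩, ⟨hD, hD1, hD2, hD3⟩, hε, hε1, -⟩ := Combx_const C δ ℓ hC hℓ hδ hδ1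
  have hZ1000 := Combx_P C δ ℓ hC hℓ hδ hδ1
  have hPr : (1000 : ℝ) ≤ P := (hZ1000.trans hQ).trans hQP
  have hP0 : (0 : ℝ) < P := by linarith
  have hP1 : 1 ≤ P := by
    have : (0 : ℝ) < (P : ℝ) := hP0
    exact_mod_cast this
  have hC0 : 0 < C := by linarith
  have hn0 : (0 : ℝ) < n := by exact_mod_cast hn
  have hQ0 : 0 < Q := by linarith
  obtain ⟨B, hBdef⟩ : ∃ B, B = Bc C ℓ := ⟨_, rfl⟩
  obtain ⟨ε, hεdef⟩ : ∃ ε, ε = εc C δ ℓ := ⟨_, rfl⟩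
  obtain ⟨Dt, hDdef⟩ : ∃ Dt, Dt = Dc C ℓ := ⟨_, rfl⟩
  have hZdef : Zc C δ ℓ = 1000 * B ^ 54 * Dt ^ 12 / ε ^ 8 := by
    rw [hBdef, hεdef, hDdef]
    rfl
  rw [← hBdef] at hB hv3
  rw [← hεdef] at hε hε1 hv3
  rw [← hDdef] at hD hD1 hD2 hD3
  have hB0 : 0 < B := by linarith
  have hD0 : 0 < Dt := by linarith
  have hZP : 1000 * B ^ 54 * Dt ^ 12 / ε ^ 8 ≤ P := by
    rw [← hZdef]
    exact hQ.trans hQP
  have hZQ : 1000 * B ^ 54 * Dt ^ 12 / ε ^ 8 ≤ Q := by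
    rw [← hZdef]
    exact hQ
  have hCD : C ≤ Dt := by
    have h5 : (1 : ℝ) ≤ 5 ^ ℓ := one_le_pow₀ (by norm_num)
    have : C * 1 ≤ C * 5 ^ ℓ := mul_le_mul_of_nonneg_left h5 hC0.le
    linarith
  have hnD : (n : ℝ) / Dt ≤ n / C := div_le_div_of_nonneg_left hn0.le hC0 hCD
  -- the constants
  set ρ : ℝ := ε / B ^ 5 with hρ
  have hρ0 : 0 < ρ := by positivity
  have hρ1 : ρ ≤ 1 := by
    rw [hρ, div_le_one (by positivity)]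
    exact hε1.trans (one_le_pow₀ hB)
  have hρi : 1 / ρ = B ^ 5 / ε := by rw [hρ, one_div, inv_div]
  -- `48 D^6 / ρ ≤ Q`, `48 D^6 / ρ^2 ≤ Q`
  have hX : 48 * Dt ^ 6 / ρ ≤ 1000 * B ^ 54 * Dt ^ 12 / ε ^ 8 := by
    have hz := Combx_Z B Dt ε hB hD hε hε1 5 6 1 (by norm_num) (by norm_num) (by norm_num)
    refine le_trans ?_ hz
    rw [pow_one]
    have h1 : 48 * Dt ^ 6 / ρ = 48 * (B ^ 5 * Dt ^ 6 / ε) := by
      rw [hρ]
      field_simp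
    rw [h1]
    have h2 : 0 ≤ B ^ 5 * Dt ^ 6 / ε := by positivity
    linarith
  have hX2 : 48 * Dt ^ 6 / ρ ^ 2 ≤ 1000 * B ^ 54 * Dt ^ 12 / ε ^ 8 := by
    have hz := Combx_Z B Dt ε hB hD hε hε1 10 6 2 (by norm_num) (by norm_num) (by norm_num)
    refine le_trans ?_ hz
    have h1 : 48 * Dt ^ 6 / ρ ^ 2 = 48 * (B ^ 10 * Dt ^ 6 / ε ^ 2) := by
      rw [hρ]
      field_simp
    rw [h1]
    have h2 : 0 ≤ B ^ 10 * Dt ^ 6 / ε ^ 2 := by positivity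
    linarith
  have hXQ : 48 * Dt ^ 6 / ρ ≤ Q := hX.trans hZQ
  have hXQ' : 48 * Dt ^ 6 ≤ Q * ρ := by rwa [div_le_iff₀ hρ0] at hXQ
  have hXP' : 48 * Dt ^ 6 ≤ P * ρ := by
    have := hX.trans hZP
    rwa [div_le_iff₀ hρ0] at this
  have hX2Q : 48 * Dt ^ 6 ≤ Q * ρ ^ 2 := by
    have := hX2.trans hZQ
    rwa [div_le_iff₀ (by positivity)] at this
  have hDesc : Desc P ℓ Dt (Dt * η) F0 α v.1 v.2 (DS P ℓ (C * 5 ^ ℓ) (2 ^ (ℓ ^ 2 + 5 * ℓ) * η) F0 α v) := by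
    have h := DS_desc P ℓ (C * 5 ^ ℓ) (2 ^ (ℓ ^ 2 + 5 * ℓ) * η) F0 α v
    exact
      { mem := h.mem
        lo := h.lo
        hi := h.hi
        pos := fun t ht => (h.pos t ht).trans (mul_le_mul_of_nonneg_right hD1 (by positivity))
        freq := fun t ht => (h.freq t ht).trans (mul_le_mul_of_nonneg_right hD3 hη.le) }
  obtain ⟨d, b, T, F1, hd1, hd2, hT, hF1, hF1c, hnz⟩ := topx Dt hD n P ℓ v.1 ρ η v.2 F0 α
    (DS P ℓ (C * 5 ^ ℓ) (2 ^ (ℓ ^ 2 + 5 * ℓ) * η) F0 α v) hn hP1 hρ0 hρ1 hη.le hnP hnP2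
    (fun i hi => ⟨hnD.trans (hR.rngF i hi).1, (hR.rngF i hi).2.trans
      (mul_le_mul_of_nonneg_right hCD hn0.le)⟩)
    (hnD.trans hv1) (hv2.trans (mul_le_mul_of_nonneg_right hD2 hn0.le))
    (by linarith)
    (by
      have h1 : 48 * Dt ^ 6 * η * (P : ℝ) ^ 2 ≤ Q * ρ * (η * (P : ℝ) ^ 2) := by
        have := mul_le_mul_of_nonneg_right hXQ' (show 0 ≤ η * (P : ℝ) ^ 2 by positivity)
        linarith
      have h2 : Q * (η * (P : ℝ) ^ 2) ≤ 1 := by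
        have h3 : (P : ℝ) ^ 2 ≤ (P : ℝ) ^ 3 := pow_le_pow_right₀ (by linarith) (by norm_num)
        have h4 : Q * (η * (P : ℝ) ^ 2) ≤ Q * (η * (P : ℝ) ^ 3) :=
          mul_le_mul_of_nonneg_left (mul_le_mul_of_nonneg_left h3 hη.le) hQ0.le
        linarith
      have h3 : Q * ρ * (η * (P : ℝ) ^ 2) ≤ ρ := by
        have := mul_le_mul_of_nonneg_left h2 hρ0.le
        linarith
      exact h1.trans h3)
    hDesc hv3
  refine ⟨d, b, T, F1, hd1, ?_, ?_, hF1, ?_, fun i hi => ?_⟩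
  · have h1 : (d : ℝ) * ρ ≤ Q * ρ := hd2.trans hXQ'
    exact le_of_mul_le_mul_right h1 hρ0
  · have h1 : |T| * ρ ≤ (Q * η * (n : ℝ) ^ 2) * ρ := by
      refine hT.trans ?_
      have := mul_le_mul_of_nonneg_right hXQ' (show 0 ≤ η * (n : ℝ) ^ 2 by positivity)
      linarith
    exact le_of_mul_le_mul_right h1 hρ0
  · have h1 : (n : ℝ) * ρ ^ 2 ≤ (Q * F1.card) * ρ ^ 2 := by
      have := mul_le_mul_of_nonneg_right hX2Q (show (0 : ℝ) ≤ F1.card by positivity)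
      linarith
    exact le_of_mul_le_mul_right h1 (by positivity)
  · have h1 : nz (α i - b / d - T / i) * ρ ≤ (Q * η) * ρ := by
      refine (hnz i hi).trans ?_
      have := mul_le_mul_of_nonneg_right hXQ' hη.le
      linarith
    exact le_of_mul_le_mul_right h1 hρ0

end Pool.Agent.H74.MDX
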