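import Pool.Agent.H74.MDX.Defs

/-!
# MDX DStep: descendants, one level down

`DS_step`: `(a, i) ∈ DS P j D τ F α (K, k)`, `p` a prime in `(P, 2P]`, `|K p - M P| ≤ c P`, `nz (p γ - k) ≤ η'` imply
`(p a, i) ∈ DS P (j+1) (2D + c) ((2P)^j η' + τ) F α (M, γ)`.
Proof: `|i a p - M P^(j+1)| ≤ p |i a - K P^j| + P^j |K p - M P| ≤ 2P D P^j + P^j c P`;
`nz (p a γ - α i) ≤ nz (a (p γ - k)) + nz (a k - α i) ≤ (2P)^j η' + τ`; a prime factor of `p a` is `p` or a prime factor of `a`.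
(See the proof of `chain_step` in `Pool/Agent/H53/MID/Chain.lean`.)
-/

set_option autoImplicit false

namespace Pool.Agent.H74.MDX

open Finset
open Pool.Agent.H53.MID (nz Rel Desc)

theorem DS_mono (P j : ℕ) (D D' τ τ' : ℝ) (F : Finset ℕ) (α : ℕ → ℝ) (v : ℕ × ℝ) (hD : D ≤ D') (hτ : τ ≤ τ') :
    DS P j D τ F α v ⊆ DS P j D' τ' F α v := by
  intro t ht
  rw [mem_DS] at ht ⊢
  obtain ⟨h1, h2, h3, h4, h5, h6⟩ := ht
  have hP : (0 : ℝ) ≤ (P : ℝ) ^ j := by positivity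
  exact ⟨h1, h2, h3, h4, h5.trans (mul_le_mul_of_nonneg_right hD hP), h6.trans hτ⟩

theorem DS_step (P j : ℕ) (c D τ η' : ℝ) (F : Finset ℕ) (α : ℕ → ℝ) (K M p : ℕ) (k γ : ℝ) (hp : p.Prime)
    (hpP : P < p ∧ p ≤ 2 * P) (hK : |(K : ℝ) * p - M * P| ≤ c * P) (hk : nz (p * γ - k) ≤ η') (hD : 0 ≤ D) (hc : 0 ≤ c)
    (t : ℕ × ℕ) (ht : t ∈ DS P j D τ F α (K, k)) :
    (p * t.1, t.2) ∈ DS P (j + 1) (2 * D + c) ((2 * P) ^ j * η' + τ) F α (M, γ) := by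
  rw [mem_DS] at ht ⊢
  obtain ⟨h1, h2, h3, h4, h5, h6⟩ := ht
  obtain ⟨a, i⟩ := t
  simp only at h1 h2 h3 h4 h5 h6 ⊢
  have hp0 : (0 : ℝ) ≤ (p : ℝ) := Nat.cast_nonneg p
  have hPj : (0 : ℝ) ≤ (P : ℝ) ^ j := by positivity
  have hp2' : (p : ℝ) ≤ 2 * P := by exact_mod_cast hpP.2
  refine ⟨?_, ?_, h3, ?_, ?_, ?_⟩
  · rw [pow_succ, mul_comm]
    exact Nat.mul_le_mul hpP.1.le h1
  · rw [pow_succ, mul_comm]
    exact Nat.mul_le_mul h2 hpP.2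
  · intro q hq hqd
    rcases (hq.dvd_mul).1 hqd with h | h
    · rw [(Nat.prime_dvd_prime_iff_eq hq hp).1 h]
      exact hpP.1
    · exact h4 q hq h
  · push_cast
    have e : (i : ℝ) * (p * a) - M * (P : ℝ) ^ (j + 1) =
        p * (i * a - K * (P : ℝ) ^ j) + (P : ℝ) ^ j * (K * p - M * P) := by
      ring
    rw [e]
    refine (abs_add_le _ _).trans ?_
    rw [abs_mul, abs_mul, abs_of_nonneg hp0, abs_of_nonneg hPj]
    have b1 : (p : ℝ) * |(i : ℝ) * a - K * (P : ℝ) ^ j| ≤ (2 * P) * (D * (P : ℝ) ^ j) :=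
      mul_le_mul hp2' h5 (abs_nonneg _) (by positivity)
    have b2 : (P : ℝ) ^ j * |(K : ℝ) * p - M * P| ≤ (P : ℝ) ^ j * (c * P) :=
      mul_le_mul_of_nonneg_left hK hPj
    have e2 : (2 * D + c) * (P : ℝ) ^ (j + 1) = (2 * P) * (D * (P : ℝ) ^ j) + (P : ℝ) ^ j * (c * P) := by
      ring
    rw [e2]
    exact add_le_add b1 b2
  · push_cast
    have e : (p : ℝ) * a * γ - α i = (a : ℝ) * (p * γ - k) + (a * k - α i) := by
      ring
    rw [e]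
    refine (Pool.Agent.H53.MID.nz_add _ _).trans ?_
    have b1 : nz ((a : ℝ) * (p * γ - k)) ≤ (2 * (P : ℝ)) ^ j * η' := by
      refine (Pool.Agent.H53.MID.nz_nat_mul a _).trans ?_
      have h2' : (a : ℝ) ≤ (2 * (P : ℝ)) ^ j := by exact_mod_cast h2
      exact mul_le_mul h2' hk (Pool.Agent.H53.MID.nz_nonneg _) (by positivity)
    exact add_le_add b1 h6

end Pool.Agent.H74.MDX
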