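import Pool.Agent.H53.MID.FourC
import Pool.Agent.H53.MID.Chain

/-!
# MDX Defs: walks, descendants, vertices and edges

Setting.  `R` is a set of triples `(i, p, g)` (the relation `Rel` of `H53/MID/Nz.lean`), `F` a set of indices.
* `Wk j`: a walk with `j` steps is `(i, t)`, `i : Fin (j+1) → ℕ` the vertices, `t s = (p, g, q)` the step from `i s` to `i (s+1)`.
* `IsW R w`: for every step `(i s, p, g) ∈ R` and `(i (s+1), q, g) ∈ R`, and the `2 j` numbers `p, q` are pairwise distinct.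
* `Om R F j`: the finite set of all walks with `j` steps and all vertices in `F`.
* `Lw`, `Rw`: drop the last (first) step; `v0`, `v1`: first and last vertex; `pa`, `qa`: the products of the `p` and of the `q`;
  `pf`: the `p` of the first step; `ql`: the `q` of the last step.
* `DS P j D τ F α v`: all descendants `(a, i)` of the node `v = (M, γ)`, `j` levels down: `i ∈ F`, `P^j ≤ a ≤ (2P)^j`, all prime factors of `a`
  are `> P`, `|i a - M P^j| ≤ D P^j`, `nz (a γ - α i) ≤ τ`.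
* `VX c P V M`: the vertices `(p, K, k)` over `M`: `p` a prime in `(P, 2P]`, `(K, k) ∈ V`, `|K p - M P| ≤ c P`.
* `EX c P η V M`: the edges `((p,K,k), (p',K',k'))` over `M`: `p ≠ p'`, `nz (p' k - p k') ≤ 2 η`.
-/

set_option autoImplicit false

namespace Pool.Agent.H74.MDX

open Finset
open Pool.Agent.H53.MID (nz Rel Desc)

/-- walks with `j` steps -/
abbrev Wk (j : ℕ) : Type := (Fin (j + 1) → ℕ) × (Fin j → ℕ × ℕ × ℕ)

variable {j : ℕ}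

/-- first vertex -/
def v0 (w : Wk j) : ℕ := w.1 0

/-- last vertex -/
def v1 (w : Wk j) : ℕ := w.1 (Fin.last j)

/-- the product of the `p` -/
def pa (w : Wk j) : ℕ := ∏ s, (w.2 s).1

/-- the product of the `q` -/
def qa (w : Wk j) : ℕ := ∏ s, (w.2 s).2.2

/-- the `p` of the first step -/
def pf (w : Wk (j + 1)) : ℕ := (w.2 0).1

/-- the `q` of the last step -/
def ql (w : Wk (j + 1)) : ℕ := (w.2 (Fin.last j)).2.2

/-- drop the last step -/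
def Lw (w : Wk (j + 1)) : Wk j := (fun s => w.1 s.castSucc, fun s => w.2 s.castSucc)

/-- drop the first step -/
def Rw (w : Wk (j + 1)) : Wk j := (fun s => w.1 s.succ, fun s => w.2 s.succ)

/-- the walks of the relation `R` with distinct primes -/
def IsW (R : Finset (ℕ × ℕ × ℕ)) (w : Wk j) : Prop :=
  (∀ s : Fin j, (w.1 s.castSucc, (w.2 s).1, (w.2 s).2.1) ∈ R ∧ (w.1 s.succ, (w.2 s).2.2, (w.2 s).2.1) ∈ R) ∧
  Function.Injective (Sum.elim (fun s : Fin j => (w.2 s).1) (fun s : Fin j => (w.2 s).2.2))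

open Classical in
/-- the finite set of the walks -/
noncomputable def Om (R : Finset (ℕ × ℕ × ℕ)) (F : Finset ℕ) (j : ℕ) : Finset (Wk j) :=
  ((Fintype.piFinset (fun _ : Fin (j + 1) => F)) ×ˢ
    (Fintype.piFinset (fun _ : Fin j => (R ×ˢ R).image (fun t => (t.1.2.1, t.1.2.2, t.2.2.1))))).filter (fun w => IsW R w)

theorem mem_Om {R : Finset (ℕ × ℕ × ℕ)} {F : Finset ℕ} {w : Wk j} :
    w ∈ Om R F j ↔ (∀ s, w.1 s ∈ F) ∧ IsW R w := by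
  classical
  unfold Om
  rw [Finset.mem_filter, Finset.mem_product, Fintype.mem_piFinset, Fintype.mem_piFinset]
  constructor
  · rintro ⟨⟨h1, -⟩, h3⟩
    exact ⟨h1, h3⟩
  · rintro ⟨h1, h3⟩
    refine ⟨⟨h1, fun s => ?_⟩, h3⟩
    rw [Finset.mem_image]
    exact ⟨((w.1 s.castSucc, (w.2 s).1, (w.2 s).2.1), (w.1 s.succ, (w.2 s).2.2, (w.2 s).2.1)),
      Finset.mem_product.2 (h3.1 s), rfl⟩

theorem Lw_mem {R : Finset (ℕ × ℕ × ℕ)} {F : Finset ℕ} {w : Wk (j + 1)} (h : w ∈ Om R F (j + 1)) : Lw w ∈ Om R F j := by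
  rw [mem_Om] at h ⊢
  refine ⟨fun s => h.1 _, fun s => h.2.1 s.castSucc, ?_⟩
  have hinj : Function.Injective (Sum.map (Fin.castSucc : Fin j → Fin (j + 1)) (Fin.castSucc : Fin j → Fin (j + 1))) :=
    Sum.map_injective.2 ⟨Fin.castSucc_injective _, Fin.castSucc_injective _⟩
  have h2 := h.2.2.comp hinj
  rw [Sum.elim_comp_map] at h2
  exact h2

theorem Rw_mem {R : Finset (ℕ × ℕ × ℕ)} {F : Finset ℕ} {w : Wk (j + 1)} (h : w ∈ Om R F (j + 1)) : Rw w ∈ Om R F j := by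
  rw [mem_Om] at h ⊢
  refine ⟨fun s => h.1 _, fun s => h.2.1 s.succ, ?_⟩
  have hinj : Function.Injective (Sum.map (Fin.succ : Fin j → Fin (j + 1)) (Fin.succ : Fin j → Fin (j + 1))) :=
    Sum.map_injective.2 ⟨Fin.succ_injective _, Fin.succ_injective _⟩
  have h2 := h.2.2.comp hinj
  rw [Sum.elim_comp_map] at h2
  exact h2

theorem LR_comm (w : Wk (j + 2)) : Lw (Rw w) = Rw (Lw w) := rfl

theorem v0_Lw (w : Wk (j + 1)) : v0 (Lw w) = v0 w := rfl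

theorem v1_Rw (w : Wk (j + 1)) : v1 (Rw w) = v1 w := rfl

theorem pf_Lw (w : Wk (j + 2)) : pf (Lw w) = pf w := rfl

theorem ql_Rw (w : Wk (j + 2)) : ql (Rw w) = ql w := rfl

theorem qa_eq (w : Wk (j + 1)) : qa w = qa (Lw w) * ql w := by
  unfold qa ql Lw
  exact Fin.prod_univ_castSucc _

theorem pa_eq (w : Wk (j + 1)) : pa w = pf w * pa (Rw w) := by
  unfold pa pf Rw
  exact Fin.prod_univ_succ _

theorem qa_eq' (w : Wk (j + 1)) : qa w = (w.2 0).2.2 * qa (Rw w) := by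
  unfold qa Rw
  exact Fin.prod_univ_succ _

theorem pa_eq' (w : Wk (j + 1)) : pa w = pa (Lw w) * (w.2 (Fin.last j)).1 := by
  unfold pa Lw
  exact Fin.prod_univ_castSucc _

theorem pf_ne_ql {R : Finset (ℕ × ℕ × ℕ)} {F : Finset ℕ} {w : Wk (j + 1)} (h : w ∈ Om R F (j + 1)) : pf w ≠ ql w := by
  rw [mem_Om] at h
  intro h1
  have h2 := h.2.2 (a₁ := Sum.inl 0) (a₂ := Sum.inr (Fin.last j)) h1
  cases h2

/-- the descendants -/
noncomputable def DS (P j : ℕ) (D τ : ℝ) (F : Finset ℕ) (α : ℕ → ℝ) (v : ℕ × ℝ) : Finset (ℕ × ℕ) := by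
  classical
  exact ((Icc (P ^ j) ((2 * P) ^ j)) ×ˢ F).filter (fun t => (∀ q : ℕ, q.Prime → q ∣ t.1 → P < q) ∧
    |(t.2 : ℝ) * t.1 - v.1 * (P : ℝ) ^ j| ≤ D * (P : ℝ) ^ j ∧ nz (t.1 * v.2 - α t.2) ≤ τ)

theorem mem_DS {P j : ℕ} {D τ : ℝ} {F : Finset ℕ} {α : ℕ → ℝ} {v : ℕ × ℝ} {t : ℕ × ℕ} :
    t ∈ DS P j D τ F α v ↔ P ^ j ≤ t.1 ∧ t.1 ≤ (2 * P) ^ j ∧ t.2 ∈ F ∧ (∀ q : ℕ, q.Prime → q ∣ t.1 → P < q) ∧
      |(t.2 : ℝ) * t.1 - v.1 * (P : ℝ) ^ j| ≤ D * (P : ℝ) ^ j ∧ nz (t.1 * v.2 - α t.2) ≤ τ := by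
  classical
  unfold DS
  rw [Finset.mem_filter, Finset.mem_product, Finset.mem_Icc]
  tauto

theorem DS_desc (P j : ℕ) (D τ : ℝ) (F : Finset ℕ) (α : ℕ → ℝ) (v : ℕ × ℝ) :
    Desc P j D τ F α v.1 v.2 (DS P j D τ F α v) where
  mem := fun t ht => (mem_DS.1 ht).2.2.1
  lo := fun t ht => by exact_mod_cast (mem_DS.1 ht).1
  hi := fun t ht => by exact_mod_cast (mem_DS.1 ht).2.1
  pos := fun t ht => (mem_DS.1 ht).2.2.2.2.1
  freq := fun t ht => (mem_DS.1 ht).2.2.2.2.2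

/-- the vertices over `M` -/
noncomputable def VX (c : ℝ) (P : ℕ) (V : Finset (ℕ × ℝ)) (M : ℕ) : Finset (ℕ × ℕ × ℝ) := by
  classical
  exact (((Ioc P (2 * P)).filter Nat.Prime) ×ˢ V).filter (fun u => |(u.2.1 : ℝ) * u.1 - M * P| ≤ c * P)

theorem mem_VX {c : ℝ} {P : ℕ} {V : Finset (ℕ × ℝ)} {M : ℕ} {u : ℕ × ℕ × ℝ} :
    u ∈ VX c P V M ↔ (P < u.1 ∧ u.1 ≤ 2 * P) ∧ u.1.Prime ∧ u.2 ∈ V ∧ |(u.2.1 : ℝ) * u.1 - M * P| ≤ c * P := by
  classical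
  unfold VX
  rw [Finset.mem_filter, Finset.mem_product, Finset.mem_filter, Finset.mem_Ioc]
  tauto

/-- the edges over `M` -/
noncomputable def EX (c : ℝ) (P : ℕ) (η : ℝ) (V : Finset (ℕ × ℝ)) (M : ℕ) :
    Finset ((ℕ × ℕ × ℝ) × (ℕ × ℕ × ℝ)) := by
  classical
  exact (VX c P V M ×ˢ VX c P V M).filter (fun e => e.1.1 ≠ e.2.1 ∧
    nz ((e.2.1 : ℝ) * e.1.2.2 - e.1.1 * e.2.2.2) ≤ 2 * η)

theorem mem_EX {c : ℝ} {P : ℕ} {η : ℝ} {V : Finset (ℕ × ℝ)} {M : ℕ} {e : (ℕ × ℕ × ℝ) × (ℕ × ℕ × ℝ)} :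
    e ∈ EX c P η V M ↔ e.1 ∈ VX c P V M ∧ e.2 ∈ VX c P V M ∧ e.1.1 ≠ e.2.1 ∧
      nz ((e.2.1 : ℝ) * e.1.2.2 - e.1.1 * e.2.2.2) ≤ 2 * η := by
  classical
  unfold EX
  rw [Finset.mem_filter, Finset.mem_product]
  tauto

/-- bounded multiplicity of the relation: given `(i, p)` or `(g, p)` there are at most `κ` triples -/
structure Mul (κ : ℝ) (P : ℕ) (R : Finset (ℕ × ℕ × ℕ)) : Prop where
  one : 1 ≤ κ
  pos : 1 ≤ P
  prime : ∀ t ∈ R, t.2.1.Prime ∧ P < t.2.1 ∧ t.2.1 ≤ 2 * P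
  out : ∀ i p : ℕ, ((R.filter (fun t => t.1 = i ∧ t.2.1 = p)).card : ℝ) ≤ κ
  inn : ∀ g p : ℕ, ((R.filter (fun t => t.2.2 = g ∧ t.2.1 = p)).card : ℝ) ≤ κ

end Pool.Agent.H74.MDX
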