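import Pool.Agent.H74.MDX.Nd
import Pool.Agent.H74.MDX.MulRel

/-!
# MDX DsInt: the total number of descendants, and intersections

`ds_tot`: `a ∈ [P^j, (2P)^j]` takes at most `(2P)^j - P^j + 1 ≤ (2P)^j` values and for each `a ≥ P^j` there are at most `2D+1` values `i` with `|i a - M P^j| ≤ D P^j`
(`|i - M P^j/a| ≤ D`, `int_card`).
`ds_int`: let `S` be the set of the first coordinates of the intersection.  The intersection has at most `(2D+1) |S|` elements (as before), so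
`|S| > 5 X/P`, `X = (2P)^(j+1)`.  For `a ∈ S`: `nz (a (γ - γ')) ≤ 2τ` (`nz_sub`/`nz_triangle`, both `a γ` and `a γ'` are within `τ` of `α i`).  Apply `nd_rough` with `Y = P^(j+1)`,
`t = 2τ`, `φ = γ - γ'`: `4 t P = 8 τ P < 3`, `10 t X + 3 X/P + 3 ≤ X/(2P) + 3X/P + (3/2) X/P = 5 X/P` (`40 τ P ≤ 1`, `X/P ≥ 2`).
-/

set_option autoImplicit false

namespace Pool.Agent.H74.MDX

open Finset
open Pool.Agent.H53.MID (nz nz_sub Rel Desc)

private theorem DsInt_fib (P j M : ℕ) (D : ℝ) (U : Finset (ℕ × ℕ)) (hP : 1 ≤ P) (hD : 0 ≤ D)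
    (hU : ∀ t ∈ U, P ^ j ≤ t.1 ∧ |(t.2 : ℝ) * t.1 - M * (P : ℝ) ^ j| ≤ D * (P : ℝ) ^ j) :
    (U.card : ℝ) ≤ (2 * D + 1) * ((U.image Prod.fst).card : ℝ) := by
  have hP0 : (0 : ℝ) < (P : ℝ) ^ j := by
    have : (0 : ℝ) < P := by exact_mod_cast hP
    positivity
  have h1 : U.card = ∑ a ∈ U.image Prod.fst, (U.filter (fun t => t.1 = a)).card :=
    Finset.card_eq_sum_card_fiberwise (fun t ht => Finset.mem_image_of_mem _ ht)
  have h2 : ∀ a ∈ U.image Prod.fst, ((U.filter (fun t => t.1 = a)).card : ℝ) ≤ 2 * D + 1 := by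
    intro a ha
    obtain ⟨t0, ht0, rfl⟩ := Finset.mem_image.1 ha
    have ha1 : (P : ℝ) ^ j ≤ (t0.1 : ℝ) := by exact_mod_cast (hU t0 ht0).1
    have ha0 : (0 : ℝ) < (t0.1 : ℝ) := lt_of_lt_of_le hP0 ha1
    have h3 : (U.filter (fun t => t.1 = t0.1)).card = ((U.filter (fun t => t.1 = t0.1)).image Prod.snd).card := by
      rw [Finset.card_image_of_injOn]
      intro x hx y hy hxy
      have hx1 := (Finset.mem_filter.1 (Finset.mem_coe.1 hx)).2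
      have hy1 := (Finset.mem_filter.1 (Finset.mem_coe.1 hy)).2
      exact Prod.ext (hx1.trans hy1.symm) hxy
    rw [h3]
    refine int_card _ (M * (P : ℝ) ^ j / t0.1) D hD ?_
    intro k hk
    obtain ⟨t, ht, rfl⟩ := Finset.mem_image.1 hk
    obtain ⟨ht1, ht2⟩ := Finset.mem_filter.1 ht
    have h4 := (hU t ht1).2
    rw [ht2] at h4
    have h5 : (t.2 : ℝ) - M * (P : ℝ) ^ j / t0.1 = ((t.2 : ℝ) * t0.1 - M * (P : ℝ) ^ j) / t0.1 := by
      field_simp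
    rw [h5, abs_div, abs_of_pos ha0, div_le_iff₀ ha0]
    refine h4.trans ?_
    exact mul_le_mul_of_nonneg_left ha1 hD
  rw [h1]
  push_cast
  refine (Finset.sum_le_sum h2).trans (le_of_eq ?_)
  rw [Finset.sum_const, nsmul_eq_mul]
  ring

theorem ds_tot (P j M : ℕ) (D : ℝ) (U : Finset (ℕ × ℕ)) (hP : 1 ≤ P) (hD : 0 ≤ D)
    (hU : ∀ t ∈ U, P ^ j ≤ t.1 ∧ t.1 ≤ (2 * P) ^ j ∧ |(t.2 : ℝ) * t.1 - M * (P : ℝ) ^ j| ≤ D * (P : ℝ) ^ j) :
    (U.card : ℝ) ≤ (2 * D + 1) * (2 * P) ^ j := by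
  have h1 := DsInt_fib P j M D U hP hD (fun t ht => ⟨(hU t ht).1, (hU t ht).2.2⟩)
  have h2 : (U.image Prod.fst) ⊆ Icc (P ^ j) ((2 * P) ^ j) := by
    intro a ha
    obtain ⟨t, ht, rfl⟩ := Finset.mem_image.1 ha
    exact Finset.mem_Icc.2 ⟨(hU t ht).1, (hU t ht).2.1⟩
  have h3 := Finset.card_le_card h2
  rw [Nat.card_Icc] at h3
  have h4 : 1 ≤ P ^ j := Nat.one_le_pow _ _ hP
  have h5 : (U.image Prod.fst).card ≤ (2 * P) ^ j := by omega
  have h6 : ((U.image Prod.fst).card : ℝ) ≤ (2 * P) ^ j := by exact_mod_cast h5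
  exact h1.trans (mul_le_mul_of_nonneg_left h6 (by linarith))

open Classical in
theorem ds_int (P j M : ℕ) (D τ : ℝ) (F : Finset ℕ) (α : ℕ → ℝ) (γ γ' : ℝ) (hP : 1 ≤ P) (hD : 0 ≤ D) (hτ : 0 ≤ τ)
    (hτP : 40 * τ * P ≤ 1)
    (h : 5 * (2 * D + 1) * (2 * P) ^ (j + 1) / P <
      ((DS P (j + 1) D τ F α (M, γ) ∩ DS P (j + 1) D τ F α (M, γ')).card : ℝ)) :
    nz (γ - γ') ≤ 2 * τ / (P : ℝ) ^ (j + 1) := by
  set U := DS P (j + 1) D τ F α (M, γ) ∩ DS P (j + 1) D τ F α (M, γ') with hUdef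
  have hPr : (0 : ℝ) < P := by exact_mod_cast hP
  have hP1 : (1 : ℝ) ≤ P := by exact_mod_cast hP
  have hU : ∀ t ∈ U, t ∈ DS P (j + 1) D τ F α (M, γ) ∧ t ∈ DS P (j + 1) D τ F α (M, γ') := by
    intro t ht
    exact Finset.mem_inter.1 ht
  have h1 := DsInt_fib P (j + 1) M D U hP hD (fun t ht =>
    ⟨(mem_DS.1 (hU t ht).1).1, (mem_DS.1 (hU t ht).1).2.2.2.2.1⟩)
  have hD1 : 0 < 2 * D + 1 := by linarith
  have hX : (1 : ℝ) ≤ (2 * (P : ℝ)) ^ j := one_le_pow₀ (by linarith)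
  have hX2 : (2 * (P : ℝ)) ^ (j + 1) = (2 * (P : ℝ)) ^ j * (2 * P) := pow_succ _ _
  have hXP : (2 * (P : ℝ)) ^ (j + 1) / P = 2 * (2 * (P : ℝ)) ^ j := by
    rw [hX2]
    field_simp
  have h2 : 5 * ((2 * (P : ℝ)) ^ (j + 1) / P) < ((U.image Prod.fst).card : ℝ) := by
    have h3 := h.trans_le h1
    have h4 : 5 * (2 * D + 1) * (2 * (P : ℝ)) ^ (j + 1) / P = (2 * D + 1) * (5 * ((2 * (P : ℝ)) ^ (j + 1) / P)) := by
      ring
    rw [h4] at h3
    exact lt_of_mul_lt_mul_left h3 hD1.le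
  have h5 := nd_rough P ((2 * P) ^ (j + 1)) (P ^ (j + 1)) (2 * τ) (γ - γ') (U.image Prod.fst) hP
    (Nat.one_le_pow _ _ hP) (Nat.one_le_pow _ _ (by omega)) (by linarith) (by nlinarith)
    (by
      intro a ha
      obtain ⟨t, ht, rfl⟩ := Finset.mem_image.1 ha
      exact ⟨(mem_DS.1 (hU t ht).1).1, (mem_DS.1 (hU t ht).1).2.1⟩)
    (by
      intro a ha
      obtain ⟨t, ht, rfl⟩ := Finset.mem_image.1 ha
      exact (mem_DS.1 (hU t ht).1).2.2.2.1)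
    (by
      intro a ha
      obtain ⟨t, ht, rfl⟩ := Finset.mem_image.1 ha
      have h6 := (mem_DS.1 (hU t ht).1).2.2.2.2.2
      have h7 := (mem_DS.1 (hU t ht).2).2.2.2.2.2
      have h8 : (t.1 : ℝ) * (γ - γ') = (t.1 * γ - α t.2) - (t.1 * γ' - α t.2) := by ring
      rw [h8]
      refine (nz_sub _ _).trans ?_
      simp only at h6 h7
      linarith)
    (by
      push_cast
      rw [mul_div_assoc, hXP]
      rw [hXP] at h2
      have h9 : 10 * (2 * τ) * (2 * (P : ℝ)) ^ (j + 1) ≤ (2 * (P : ℝ)) ^ j := by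
        rw [hX2]
        have h10 : 10 * (2 * τ) * ((2 * (P : ℝ)) ^ j * (2 * P)) = (40 * τ * P) * (2 * (P : ℝ)) ^ j := by ring
        rw [h10]
        have h11 := mul_le_mul_of_nonneg_right hτP (by linarith : (0 : ℝ) ≤ (2 * (P : ℝ)) ^ j)
        linarith
      linarith)
  push_cast at h5
  exact h5

end Pool.Agent.H74.MDX
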