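import Pool.Agent.H74.MDX.Defs

/-!
# MDX Ext: the number of the one-step extensions of a set of walks

Proof of `ext_L`.  Map the filtered set to `S` by `Lw`; the fibre of `v` embeds (by the last step) into the set of the data `(p, g, q, i')` with
`(v1 v, p, g) ∈ R`, `(i', q, g) ∈ R`: `p` takes at most `P` values (`P < p ≤ 2P`), then `g` at most `κ` (`hM.out`), `q` at most `P`, `i'` at most `κ`
(`hM.inn`).  `ext_R`: map by `Rw`; the fibre embeds into the data `(i, p, g, q)` with `(i, p, g) ∈ R`, `(v0 v, q, g) ∈ R`: `q` at most `P` values, `g` at most `κ`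
(`hM.out`), `p` at most `P`, `i` at most `κ` (`hM.inn`).
-/

set_option autoImplicit false

namespace Pool.Agent.H74.MDX

open Finset

open Classical in
/-- a set of triples whose `p`-fibres have at most `κ` elements -/
private theorem Ext_fib (R T : Finset (ℕ × ℕ × ℕ)) (κ : ℝ) (P : ℕ) (hM : Mul κ P R) (hT : T ⊆ R)
    (h : ∀ p : ℕ, ((T.filter (fun t => t.2.1 = p)).card : ℝ) ≤ κ) : (T.card : ℝ) ≤ κ * P := by
  have hmap : ∀ t ∈ T, t.2.1 ∈ Ioc P (2 * P) := by
    intro t ht
    have h1 := hM.prime t (hT ht)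
    exact Finset.mem_Ioc.2 ⟨h1.2.1, h1.2.2⟩
  have hcard := Finset.card_eq_sum_card_fiberwise (f := fun t : ℕ × ℕ × ℕ => t.2.1) (s := T) (t := Ioc P (2 * P)) hmap
  rw [hcard]
  push_cast
  calc ∑ p ∈ Ioc P (2 * P), ((T.filter (fun t => t.2.1 = p)).card : ℝ) ≤ ∑ p ∈ Ioc P (2 * P), κ :=
        Finset.sum_le_sum (fun p _ => h p)
    _ = κ * P := by
        rw [Finset.sum_const, Nat.card_Ioc, nsmul_eq_mul]
        have : 2 * P - P = P := by omega
        rw [this]
        ring

open Classical in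
private theorem Ext_out (R : Finset (ℕ × ℕ × ℕ)) (κ : ℝ) (P : ℕ) (hM : Mul κ P R) (x : ℕ) :
    ((R.filter (fun t => t.1 = x)).card : ℝ) ≤ κ * P := by
  refine Ext_fib R _ κ P hM (Finset.filter_subset _ _) (fun p => ?_)
  rw [Finset.filter_filter]
  have h1 := hM.out x p
  refine le_trans ?_ h1
  exact le_of_eq (by congr 2)

open Classical in
private theorem Ext_inn (R : Finset (ℕ × ℕ × ℕ)) (κ : ℝ) (P : ℕ) (hM : Mul κ P R) (g : ℕ) :
    ((R.filter (fun t => t.2.2 = g)).card : ℝ) ≤ κ * P := by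
  refine Ext_fib R _ κ P hM (Finset.filter_subset _ _) (fun p => ?_)
  rw [Finset.filter_filter]
  have h1 := hM.inn g p
  refine le_trans ?_ h1
  exact le_of_eq (by congr 2)

open Classical in
/-- the pairs of triples with the same `g` -/
private noncomputable def Ext_D (R : Finset (ℕ × ℕ × ℕ)) (x : ℕ) : Finset ((ℕ × ℕ × ℕ) × (ℕ × ℕ × ℕ)) :=
  (R ×ˢ R).filter (fun t => t.1.1 = x ∧ t.2.2.2 = t.1.2.2)

open Classical in
private theorem Ext_D_card (R : Finset (ℕ × ℕ × ℕ)) (κ : ℝ) (P : ℕ) (hM : Mul κ P R) (x : ℕ) :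
    ((Ext_D R x).card : ℝ) ≤ (κ * P) ^ 2 := by
  have hκ : 0 ≤ κ * P := mul_nonneg (by linarith [hM.one]) (by positivity)
  have hmap : ∀ t ∈ Ext_D R x, t.1 ∈ R.filter (fun t => t.1 = x) := by
    intro t ht
    unfold Ext_D at ht
    rw [Finset.mem_filter, Finset.mem_product] at ht
    exact Finset.mem_filter.2 ⟨ht.1.1, ht.2.1⟩
  have hcard := Finset.card_eq_sum_card_fiberwise (f := fun t : (ℕ × ℕ × ℕ) × (ℕ × ℕ × ℕ) => t.1) (s := Ext_D R x)
    (t := R.filter (fun t => t.1 = x)) hmap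
  rw [hcard]
  push_cast
  have hfib : ∀ u ∈ R.filter (fun t => t.1 = x), (((Ext_D R x).filter (fun t => t.1 = u)).card : ℝ) ≤ κ * P := by
    intro u _
    refine le_trans ?_ (Ext_inn R κ P hM u.2.2)
    have h1 : ((Ext_D R x).filter (fun t => t.1 = u)).card ≤ (R.filter (fun t => t.2.2 = u.2.2)).card := by
      refine Finset.card_le_card_of_injOn (fun t => t.2) ?_ ?_
      · intro t ht
        have ht' := Finset.mem_filter.1 (Finset.mem_coe.1 ht)
        have ht2 := ht'.1
        unfold Ext_D at ht2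
        rw [Finset.mem_filter, Finset.mem_product] at ht2
        refine Finset.mem_coe.2 (Finset.mem_filter.2 ⟨ht2.1.2, ?_⟩)
        rw [ht2.2.2, ht'.2]
      · intro t ht t' ht' h
        have h1 := (Finset.mem_filter.1 (Finset.mem_coe.1 ht)).2
        have h2 := (Finset.mem_filter.1 (Finset.mem_coe.1 ht')).2
        exact Prod.ext (h1.trans h2.symm) h
    exact_mod_cast h1
  calc ∑ u ∈ R.filter (fun t => t.1 = x), (((Ext_D R x).filter (fun t => t.1 = u)).card : ℝ)
      ≤ ∑ u ∈ R.filter (fun t => t.1 = x), κ * P := Finset.sum_le_sum hfib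
    _ = (R.filter (fun t => t.1 = x)).card * (κ * P) := by rw [Finset.sum_const, nsmul_eq_mul]
    _ ≤ (κ * P) * (κ * P) := mul_le_mul_of_nonneg_right (Ext_out R κ P hM x) hκ
    _ = (κ * P) ^ 2 := by ring

open Classical in
/-- the pairs of triples with the same `g`, second form -/
private noncomputable def Ext_E (R : Finset (ℕ × ℕ × ℕ)) (x : ℕ) : Finset ((ℕ × ℕ × ℕ) × (ℕ × ℕ × ℕ)) :=
  (R ×ˢ R).filter (fun t => t.2.1 = x ∧ t.1.2.2 = t.2.2.2)

open Classical in
private theorem Ext_E_card (R : Finset (ℕ × ℕ × ℕ)) (κ : ℝ) (P : ℕ) (hM : Mul κ P R) (x : ℕ) :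
    ((Ext_E R x).card : ℝ) ≤ (κ * P) ^ 2 := by
  refine le_trans ?_ (Ext_D_card R κ P hM x)
  have h1 : (Ext_E R x).card ≤ (Ext_D R x).card := by
    refine Finset.card_le_card_of_injOn Prod.swap ?_ ?_
    · intro t ht
      have ht' := Finset.mem_coe.1 ht
      unfold Ext_E at ht'
      rw [Finset.mem_filter, Finset.mem_product] at ht'
      refine Finset.mem_coe.2 ?_
      unfold Ext_D
      rw [Finset.mem_filter, Finset.mem_product]
      exact ⟨⟨ht'.1.2, ht'.1.1⟩, ht'.2⟩
    · intro t _ t' _ h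
      exact Prod.swap_injective h
  exact_mod_cast h1

open Classical in
theorem ext_L (R : Finset (ℕ × ℕ × ℕ)) (F : Finset ℕ) (κ : ℝ) (P j : ℕ) (hM : Mul κ P R) (S : Finset (Wk j)) :
    (((Om R F (j + 1)).filter (fun w => Lw w ∈ S)).card : ℝ) ≤ (κ * P) ^ 2 * S.card := by
  have hmap : ∀ w ∈ (Om R F (j + 1)).filter (fun w => Lw w ∈ S), Lw w ∈ S := fun w hw => (Finset.mem_filter.1 hw).2
  have hcard := Finset.card_eq_sum_card_fiberwise (f := fun w : Wk (j + 1) => Lw w)
    (s := (Om R F (j + 1)).filter (fun w => Lw w ∈ S)) (t := S) hmap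
  rw [hcard]
  push_cast
  have hfib : ∀ v ∈ S, ((((Om R F (j + 1)).filter (fun w => Lw w ∈ S)).filter (fun w => Lw w = v)).card : ℝ) ≤ (κ * P) ^ 2 := by
    intro v _
    refine le_trans ?_ (Ext_D_card R κ P hM (v1 v))
    have h1 : (((Om R F (j + 1)).filter (fun w => Lw w ∈ S)).filter (fun w => Lw w = v)).card ≤ (Ext_D R (v1 v)).card := by
      refine Finset.card_le_card_of_injOn (fun w : Wk (j + 1) => ((w.1 (Fin.last j).castSucc, (w.2 (Fin.last j)).1, (w.2 (Fin.last j)).2.1),
        (w.1 (Fin.last j).succ, (w.2 (Fin.last j)).2.2, (w.2 (Fin.last j)).2.1))) ?_ ?_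
      · intro w hw
        have hw1 := Finset.mem_filter.1 (Finset.mem_coe.1 hw)
        have hw2 := (Finset.mem_filter.1 hw1.1).1
        rw [mem_Om] at hw2
        refine Finset.mem_coe.2 ?_
        unfold Ext_D
        rw [Finset.mem_filter, Finset.mem_product]
        refine ⟨hw2.2.1 (Fin.last j), ?_, rfl⟩
        rw [← hw1.2]
        rfl
      · intro w hw w' hw' h
        have hw1 := (Finset.mem_filter.1 (Finset.mem_coe.1 hw)).2
        have hw1' := (Finset.mem_filter.1 (Finset.mem_coe.1 hw')).2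
        have hL : Lw w = Lw w' := hw1.trans hw1'.symm
        have hL1 : ∀ s : Fin (j + 1), w.1 s.castSucc = w'.1 s.castSucc := fun s => congrFun (congrArg Prod.fst hL) s
        have hL2 : ∀ s : Fin j, w.2 s.castSucc = w'.2 s.castSucc := fun s => congrFun (congrArg Prod.snd hL) s
        simp only [Prod.mk.injEq] at h
        obtain ⟨⟨_, ha, hb⟩, hc, hd, _⟩ := h
        refine Prod.ext ?_ ?_
        · funext s
          refine Fin.lastCases ?_ (fun s => hL1 s) s
          exact hc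
        · funext s
          refine Fin.lastCases ?_ (fun s => hL2 s) s
          exact Prod.ext ha (Prod.ext hb hd)
    exact_mod_cast h1
  calc ∑ v ∈ S, ((((Om R F (j + 1)).filter (fun w => Lw w ∈ S)).filter (fun w => Lw w = v)).card : ℝ)
      ≤ ∑ v ∈ S, (κ * P) ^ 2 := Finset.sum_le_sum hfib
    _ = (κ * P) ^ 2 * S.card := by rw [Finset.sum_const, nsmul_eq_mul, mul_comm]

open Classical in
theorem ext_R (R : Finset (ℕ × ℕ × ℕ)) (F : Finset ℕ) (κ : ℝ) (P j : ℕ) (hM : Mul κ P R) (S : Finset (Wk j)) :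
    (((Om R F (j + 1)).filter (fun w => Rw w ∈ S)).card : ℝ) ≤ (κ * P) ^ 2 * S.card := by
  have hmap : ∀ w ∈ (Om R F (j + 1)).filter (fun w => Rw w ∈ S), Rw w ∈ S := fun w hw => (Finset.mem_filter.1 hw).2
  have hcard := Finset.card_eq_sum_card_fiberwise (f := fun w : Wk (j + 1) => Rw w)
    (s := (Om R F (j + 1)).filter (fun w => Rw w ∈ S)) (t := S) hmap
  rw [hcard]
  push_cast
  have hfib : ∀ v ∈ S, ((((Om R F (j + 1)).filter (fun w => Rw w ∈ S)).filter (fun w => Rw w = v)).card : ℝ) ≤ (κ * P) ^ 2 := by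
    intro v _
    refine le_trans ?_ (Ext_E_card R κ P hM (v0 v))
    have h1 : (((Om R F (j + 1)).filter (fun w => Rw w ∈ S)).filter (fun w => Rw w = v)).card ≤ (Ext_E R (v0 v)).card := by
      refine Finset.card_le_card_of_injOn (fun w : Wk (j + 1) => ((w.1 (Fin.castSucc 0), (w.2 0).1, (w.2 0).2.1),
        (w.1 (Fin.succ 0), (w.2 0).2.2, (w.2 0).2.1))) ?_ ?_
      · intro w hw
        have hw1 := Finset.mem_filter.1 (Finset.mem_coe.1 hw)
        have hw2 := (Finset.mem_filter.1 hw1.1).1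
        rw [mem_Om] at hw2
        refine Finset.mem_coe.2 ?_
        unfold Ext_E
        rw [Finset.mem_filter, Finset.mem_product]
        refine ⟨hw2.2.1 0, ?_, rfl⟩
        rw [← hw1.2]
        rfl
      · intro w hw w' hw' h
        have hw1 := (Finset.mem_filter.1 (Finset.mem_coe.1 hw)).2
        have hw1' := (Finset.mem_filter.1 (Finset.mem_coe.1 hw')).2
        have hL : Rw w = Rw w' := hw1.trans hw1'.symm
        have hL1 : ∀ s : Fin (j + 1), w.1 s.succ = w'.1 s.succ := fun s => congrFun (congrArg Prod.fst hL) s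
        have hL2 : ∀ s : Fin j, w.2 s.succ = w'.2 s.succ := fun s => congrFun (congrArg Prod.snd hL) s
        simp only [Prod.mk.injEq] at h
        obtain ⟨⟨hc, ha, hb⟩, _, hd, _⟩ := h
        refine Prod.ext ?_ ?_
        · funext s
          refine Fin.cases ?_ (fun s => hL1 s) s
          exact hc
        · funext s
          refine Fin.cases ?_ (fun s => hL2 s) s
          exact Prod.ext ha (Prod.ext hb hd)
    exact_mod_cast h1
  calc ∑ v ∈ S, ((((Om R F (j + 1)).filter (fun w => Rw w ∈ S)).filter (fun w => Rw w = v)).card : ℝ)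
      ≤ ∑ v ∈ S, (κ * P) ^ 2 := Finset.sum_le_sum hfib
    _ = (κ * P) ^ 2 * S.card := by rw [Finset.sum_const, nsmul_eq_mul, mul_comm]

end Pool.Agent.H74.MDX
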