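import Pool.Agent.H74.MDX.Defs

/-!
# MDX Fib0: walks with given first vertex and given primes

Proof.  Induction on `j`.  `j = 0`: at most one walk.  `j → j+1`: map the set to the corresponding set for `j` (with `p ∘ castSucc`, `q ∘ castSucc`) by `Lw`; in the
fibre of `v` the last step `(p, g, q)` and the last vertex `i'` satisfy `(v1 v, p, g) ∈ R`, `(i', q, g) ∈ R` with given `p`, `q`: at most `κ` values of `g`
(`hM.out`) and then at most `κ` values of `i'` (`hM.inn`).  So the fibre has at most `κ^2` elements.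
-/

set_option autoImplicit false

namespace Pool.Agent.H74.MDX

open Finset

open Classical in
theorem walk_fib (R : Finset (ℕ × ℕ × ℕ)) (F : Finset ℕ) (κ : ℝ) (P j : ℕ) (hM : Mul κ P R) (i : ℕ) (p q : Fin j → ℕ) :
    (((Om R F j).filter (fun w => v0 w = i ∧ (∀ s, (w.2 s).1 = p s) ∧ ∀ s, (w.2 s).2.2 = q s)).card : ℝ) ≤ κ ^ (2 * j) := by
  induction j with
  | zero =>
    have h1 : ((Om R F 0).filter (fun w => v0 w = i ∧ (∀ s, (w.2 s).1 = p s) ∧ ∀ s, (w.2 s).2.2 = q s)).card ≤ 1 := by
      rw [Finset.card_le_one]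
      intro w hw w' hw'
      rw [Finset.mem_filter] at hw hw'
      apply Prod.ext
      · funext s
        have hs : s = 0 := Fin.fin_one_eq_zero s
        rw [hs]
        exact hw.2.1.trans hw'.2.1.symm
      · funext s
        exact Fin.elim0 s
    have h2 : (((Om R F 0).filter (fun w => v0 w = i ∧ (∀ s, (w.2 s).1 = p s) ∧ ∀ s, (w.2 s).2.2 = q s)).card : ℝ) ≤ 1 := by
      exact_mod_cast h1
    simpa using h2
  | succ j ih =>
    have hκ := hM.one
    have hih := ih (fun s => p s.castSucc) (fun s => q s.castSucc)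
    obtain ⟨S, hS⟩ : ∃ S : Finset (Wk (j + 1)), S = (Om R F (j + 1)).filter
      (fun w => v0 w = i ∧ (∀ s, (w.2 s).1 = p s) ∧ ∀ s, (w.2 s).2.2 = q s) := ⟨_, rfl⟩
    obtain ⟨T, hT⟩ : ∃ T : Finset (Wk j), T = (Om R F j).filter
      (fun w => v0 w = i ∧ (∀ s, (w.2 s).1 = p s.castSucc) ∧ ∀ s, (w.2 s).2.2 = q s.castSucc) := ⟨_, rfl⟩
    rw [← hS]
    rw [← hT] at hih
    have hmaps : ∀ w ∈ S, Lw w ∈ T := by
      intro w hw
      rw [hS, Finset.mem_filter] at hw
      rw [hT, Finset.mem_filter]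
      exact ⟨Lw_mem hw.1, hw.2.1, fun s => hw.2.2.1 s.castSucc, fun s => hw.2.2.2 s.castSucc⟩
    have hfib : ∀ v ∈ T, ((S.filter (fun w => Lw w = v)).card : ℝ) ≤ κ ^ 2 := by
      intro v _
      obtain ⟨A, hA⟩ : ∃ A : Finset (ℕ × ℕ × ℕ), A = R.filter (fun t => t.1 = v1 v ∧ t.2.1 = p (Fin.last j)) := ⟨_, rfl⟩
      obtain ⟨B, hB⟩ : ∃ B : (ℕ × ℕ × ℕ) → Finset (ℕ × ℕ × ℕ),
        B = fun u => R.filter (fun t => t.2.2 = u.2.2 ∧ t.2.1 = q (Fin.last j)) := ⟨_, rfl⟩
      have h1 : (S.filter (fun w => Lw w = v)).card ≤ (A.sigma B).card := by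
        apply Finset.card_le_card_of_injOn (fun w : Wk (j + 1) =>
          (⟨(w.1 (Fin.last j).castSucc, (w.2 (Fin.last j)).1, (w.2 (Fin.last j)).2.1),
            (w.1 (Fin.last j).succ, (w.2 (Fin.last j)).2.2, (w.2 (Fin.last j)).2.1)⟩ : Σ _ : ℕ × ℕ × ℕ, ℕ × ℕ × ℕ))
        · intro w hw
          rw [Finset.mem_coe, Finset.mem_filter, hS, Finset.mem_filter, mem_Om] at hw
          obtain ⟨⟨⟨_, hw1⟩, hw2, hw3, hw4⟩, hw5⟩ := hw
          rw [Finset.mem_coe, Finset.mem_sigma, hA, hB, Finset.mem_filter, Finset.mem_filter]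
          refine ⟨⟨(hw1.1 (Fin.last j)).1, ?_, hw3 _⟩, (hw1.1 (Fin.last j)).2, rfl, hw4 _⟩
          rw [← hw5]
          rfl
        · intro w hw w' hw' hww
          rw [Finset.mem_coe, Finset.mem_filter] at hw hw'
          have hL : Lw w = Lw w' := hw.2.trans hw'.2.symm
          have e1 : ∀ s : Fin (j + 1), w.1 s.castSucc = w'.1 s.castSucc := fun s => congrFun (congrArg Prod.fst hL) s
          have e2 : ∀ s : Fin j, w.2 s.castSucc = w'.2 s.castSucc := fun s => congrFun (congrArg Prod.snd hL) s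
          have e3 := congrArg Sigma.fst hww
          have e4 : (w.1 (Fin.last j).succ, (w.2 (Fin.last j)).2.2, (w.2 (Fin.last j)).2.1) =
            (w'.1 (Fin.last j).succ, (w'.2 (Fin.last j)).2.2, (w'.2 (Fin.last j)).2.1) := congrArg (fun z => z.2) hww
          simp only [Prod.mk.injEq] at e3 e4
          apply Prod.ext
          · funext s
            refine Fin.lastCases ?_ (fun s => e1 s) s
            exact e4.1
          · funext s
            refine Fin.lastCases ?_ (fun s => e2 s) s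
            exact Prod.ext e3.2.1 (Prod.ext e4.2.2 e4.2.1)
      have h2 : ((A.sigma B).card : ℝ) ≤ κ ^ 2 := by
        rw [Finset.card_sigma]
        push_cast
        have h3 : ∀ u ∈ A, ((B u).card : ℝ) ≤ κ := by
          intro u _
          rw [hB]
          exact hM.inn u.2.2 (q (Fin.last j))
        refine (Finset.sum_le_sum h3).trans ?_
        rw [Finset.sum_const, nsmul_eq_mul, pow_two]
        apply mul_le_mul_of_nonneg_right _ (by linarith)
        rw [hA]
        exact hM.out (v1 v) (p (Fin.last j))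
      have h3 : ((S.filter (fun w => Lw w = v)).card : ℝ) ≤ ((A.sigma B).card : ℝ) := by exact_mod_cast h1
      exact h3.trans h2
    have hcard : (S.card : ℝ) = ∑ v ∈ T, ((S.filter (fun w => Lw w = v)).card : ℝ) := by
      rw [Finset.card_eq_sum_card_fiberwise hmaps]
      push_cast
      rfl
    rw [hcard]
    refine (Finset.sum_le_sum hfib).trans ?_
    rw [Finset.sum_const, nsmul_eq_mul]
    have h4 : κ ^ (2 * (j + 1)) = κ ^ (2 * j) * κ ^ 2 := by
      rw [← pow_add]
      congr 1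
    rw [h4]
    exact mul_le_mul_of_nonneg_right hih (by positivity)

end Pool.Agent.H74.MDX
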