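import Pool.Agent.H74.MDX.Fib0

/-!
# MDX FibA: walks with `(qa w, v0 w) ∈ A`, `pa w ∈ B`

`ord_card`: the number of the sequences `p : Fin j → ℕ` of pairwise different primes with product `a` is at most `j!` (as members of any finset `T` of such
sequences).  Proof: if there is one, `p0`, then the set of the values is the same for all (the set of the prime factors of `a`: for a squarefree product
`Nat.primeFactors` of the product, or unique factorisation), so `p ↦` the permutation `σ` with `p = p0 ∘ σ` is injective; `#Perm (Fin j) = j!`.  Alternatively induction on `j`: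
`p (last)` is one of the at most `j` prime factors of `a`, the rest has product `a / p (last)`.
`fib_a`: map `w ↦ (v0 w, p-sequence, q-sequence)`; the fibres have at most `κ^(2j)` elements (`walk_fib`); the image is contained in the union over
`(a, i) ∈ A` and `b ∈ B` of the triples `(i, p, q)` with `q` a sequence of different primes with product `a` and `p` one with product `b` (`IsW` gives injectivity, `hM.prime` gives
that they are primes): at most `(j!)^2` for each pair.
-/

set_option autoImplicit false

namespace Pool.Agent.H74.MDX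

open Finset

theorem ord_card (j a : ℕ) (T : Finset (Fin j → ℕ)) (hT : ∀ p ∈ T, (∀ s, (p s).Prime) ∧ Function.Injective p ∧ ∏ s, p s = a) :
    T.card ≤ j.factorial := by
  classical
  rcases T.eq_empty_or_nonempty with h0 | ⟨p0, hp0⟩
  · rw [h0, Finset.card_empty]
    exact Nat.zero_le _
  · obtain ⟨h1, h2, h3⟩ := hT p0 hp0
    have hsub : T ⊆ (Finset.univ : Finset (Fin j ↪ Fin j)).image (fun σ => fun s => p0 (σ s)) := by
      intro p hp
      obtain ⟨g1, g2, g3⟩ := hT p hp
      have hex : ∀ s, ∃ s', p s = p0 s' := by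
        intro s
        have hd : p s ∣ ∏ s', p0 s' := by
          rw [h3, ← g3]
          exact Finset.dvd_prod_of_mem p (Finset.mem_univ s)
        obtain ⟨s', -, hs'⟩ := ((g1 s).prime.dvd_finsetProd_iff _).1 hd
        exact ⟨s', (Nat.prime_dvd_prime_iff_eq (g1 s) (h1 s')).1 hs'⟩
      choose σ hσ using hex
      have hinj : Function.Injective σ := by
        intro x y hxy
        apply g2
        rw [hσ x, hσ y, hxy]
      rw [Finset.mem_image]
      exact ⟨⟨σ, hinj⟩, Finset.mem_univ _, funext fun s => (hσ s).symm⟩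
    refine (Finset.card_le_card hsub).trans (Finset.card_image_le.trans ?_)
    rw [Finset.card_univ, Fintype.card_embedding_eq, Fintype.card_fin, Nat.descFactorial_self]

/-- the sequences of different primes with product `a` -/
private noncomputable def FibA_T (j a : ℕ) : Finset (Fin j → ℕ) := by
  classical
  exact (Fintype.piFinset fun _ : Fin j => a.primeFactors).filter
    (fun p => (∀ s, (p s).Prime) ∧ Function.Injective p ∧ ∏ s, p s = a)

private theorem FibA_card (j a : ℕ) : (FibA_T j a).card ≤ j.factorial := by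
  classical
  refine ord_card j a _ fun p hp => ?_
  unfold FibA_T at hp
  exact (Finset.mem_filter.1 hp).2

private theorem FibA_mem {j a : ℕ} {p : Fin j → ℕ} (h1 : ∀ s, (p s).Prime)
    (h2 : Function.Injective p) (h3 : ∏ s, p s = a) : p ∈ FibA_T j a := by
  classical
  unfold FibA_T
  rw [Finset.mem_filter, Fintype.mem_piFinset]
  refine ⟨fun s => ?_, h1, h2, h3⟩
  rw [Nat.mem_primeFactors]
  refine ⟨h1 s, ?_, ?_⟩
  · rw [← h3]
    exact Finset.dvd_prod_of_mem p (Finset.mem_univ s)
  · rw [← h3]
    exact Finset.prod_ne_zero_iff.2 fun s _ => (h1 s).ne_zero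

open Classical in
theorem fib_a (R : Finset (ℕ × ℕ × ℕ)) (F : Finset ℕ) (κ : ℝ) (P j : ℕ) (hM : Mul κ P R) (A : Finset (ℕ × ℕ)) (B : Finset ℕ) :
    (((Om R F j).filter (fun w => (qa w, v0 w) ∈ A ∧ pa w ∈ B)).card : ℝ) ≤
      κ ^ (2 * j) * (j.factorial : ℝ) ^ 2 * A.card * B.card := by
  obtain ⟨S, hS⟩ : ∃ S, S = (Om R F j).filter (fun w => (qa w, v0 w) ∈ A ∧ pa w ∈ B) := ⟨_, rfl⟩
  rw [← hS]
  obtain ⟨φ, hφ⟩ : ∃ φ : Wk j → ℕ × (Fin j → ℕ) × (Fin j → ℕ),
    φ = fun w => (v0 w, (fun s => (w.2 s).1), fun s => (w.2 s).2.2) := ⟨_, rfl⟩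
  have hκ : (0 : ℝ) ≤ κ ^ (2 * j) := pow_nonneg (by have := hM.one; linarith) _
  -- fibres
  have h1 : (S.card : ℝ) ≤ κ ^ (2 * j) * (S.image φ).card := by
    rw [Finset.card_eq_sum_card_image φ S]
    push_cast
    calc ∑ b ∈ S.image φ, ((S.filter (fun a => φ a = b)).card : ℝ)
        ≤ ∑ _b ∈ S.image φ, κ ^ (2 * j) := by
          refine Finset.sum_le_sum fun b _ => ?_
          obtain ⟨i, p, q⟩ := b
          refine le_trans ?_ (walk_fib R F κ P j hM i p q)
          have hsub : S.filter (fun a => φ a = (i, p, q)) ⊆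
              (Om R F j).filter (fun w => v0 w = i ∧ (∀ s, (w.2 s).1 = p s) ∧
                ∀ s, (w.2 s).2.2 = q s) := by
            intro w hw
            rw [Finset.mem_filter] at hw
            obtain ⟨g1, g2⟩ := hw
            rw [hS, Finset.mem_filter] at g1
            rw [Finset.mem_filter]
            rw [hφ] at g2
            simp only [Prod.mk.injEq] at g2
            exact ⟨g1.1, g2.1, fun s => congrFun g2.2.1 s, fun s => congrFun g2.2.2 s⟩
          exact_mod_cast Finset.card_le_card hsub
      _ = κ ^ (2 * j) * (S.image φ).card := by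
          rw [Finset.sum_const, nsmul_eq_mul, mul_comm]
  -- the image
  have h2 : (S.image φ).card ≤ (A ×ˢ B).card * (j.factorial * j.factorial) := by
    have hsub : S.image φ ⊆ (A ×ˢ B).biUnion
        (fun t => ({t.1.2} : Finset ℕ) ×ˢ (FibA_T j t.2 ×ˢ FibA_T j t.1.1)) := by
      intro x hx
      rw [Finset.mem_image] at hx
      obtain ⟨w, hw, rfl⟩ := hx
      rw [hS, Finset.mem_filter, mem_Om] at hw
      obtain ⟨⟨g1, g2, g3⟩, g4, g5⟩ := hw
      rw [Finset.mem_biUnion]
      refine ⟨((qa w, v0 w), pa w), Finset.mem_product.2 ⟨g4, g5⟩, ?_⟩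
      rw [hφ]
      simp only [Finset.mem_product, Finset.mem_singleton, true_and]
      constructor
      · refine FibA_mem (fun s => (hM.prime _ (g2 s).1).1) (fun x y hxy => ?_) rfl
        have := g3 (a₁ := Sum.inl x) (a₂ := Sum.inl y) hxy
        exact Sum.inl_injective this
      · refine FibA_mem (fun s => (hM.prime _ (g2 s).2).1) (fun x y hxy => ?_) rfl
        have := g3 (a₁ := Sum.inr x) (a₂ := Sum.inr y) hxy
        exact Sum.inr_injective this
    refine (Finset.card_le_card hsub).trans (Finset.card_biUnion_le_card_mul _ _ _ fun t _ => ?_)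
    rw [Finset.card_product, Finset.card_product, Finset.card_singleton, one_mul]
    exact Nat.mul_le_mul (FibA_card _ _) (FibA_card _ _)
  have h3 : ((S.image φ).card : ℝ) ≤ (A.card : ℝ) * B.card * (j.factorial * j.factorial) := by
    rw [Finset.card_product] at h2
    exact_mod_cast h2
  refine h1.trans ((mul_le_mul_of_nonneg_left h3 hκ).trans (le_of_eq ?_))
  ring

end Pool.Agent.H74.MDX
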