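import Pool.Agent.H74.MDX.Defs

/-!
# MDX Lvl: parameters and level data

`Par C ℓ P B ε η`: the conditions on the parameters.  `Lvl ... j V G c`: the data of the level `j`: `V` = the nodes, `G` = the good walks, `c` their colours.
The constants: positions `C 3^j` (link) and `C 5^j` (descendants), accuracies `2^(j^2+5j) η` (descendants), `2^(j^2+5j) η P/P^j` (link), `μ = ε/B^5`, multiplicity
`B^7/ε`, exceptional walks `(4 (2C+1)^2)^j ε n P^(2j)`.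

`lvl0` proof: `V = F.image (fun i => (i, α i))`, `G = Om R F 0`, `c w = (w.1 0, α (w.1 0))`.  `mult`: at most one element `≤ B^7/ε`; `desc`: `(1, i) ∈ DS P 0 ..` and `ε/B^5 ≤ 1`;
`link`: `w ∈ Om R F 1`, `G0 = (w.2 0).2.1`, `g = β G0` (`Rel.pos`, `Rel.freq`, `Rel.memF'`, `Rel.rngF'`); `exc`: the set is empty.
`exc` is a bound for the number of `w ∈ Om R F j` with `w ∉ G`.
-/

set_option autoImplicit false

namespace Pool.Agent.H74.MDX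

open Finset
open Pool.Agent.H53.MID (nz Rel Desc)

/-- the conditions on the parameters -/
structure Par (C : ℝ) (ℓ P : ℕ) (B ε η : ℝ) : Prop where
  hC : 1 ≤ C
  hB1 : 2 * C * 5 ^ ℓ + 1 ≤ B
  hB2 : 4 ^ ℓ * C ≤ B
  hB3 : (2 * C + 1) ^ (2 * ℓ) ≤ B
  hB4 : (ℓ.factorial : ℝ) ^ 2 ≤ B
  hB5 : (2 : ℝ) ^ (2 * ℓ + 8) ≤ B
  hε : 0 < ε
  hε1 : ε ≤ 1
  hη : 0 < η
  hP : 40 * B ^ 54 ≤ ε ^ 8 * P
  hηP : 2 ^ (ℓ ^ 2 + 5 * ℓ + 10) * η * (P : ℝ) ^ 3 ≤ 1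

open Classical in
/-- the data of the level `j` -/
structure Lvl (C B ε η : ℝ) (n P : ℕ) (F : Finset ℕ) (α : ℕ → ℝ) (R : Finset (ℕ × ℕ × ℕ)) (j : ℕ)
    (V : Finset (ℕ × ℝ)) (G : Finset (Wk j)) (c : Wk j → ℕ × ℝ) : Prop where
  sub : G ⊆ Om R F j
  col : ∀ w ∈ G, c w ∈ V
  rng : ∀ v ∈ V, (n : ℝ) / C ≤ v.1 ∧ (v.1 : ℝ) ≤ 4 ^ j * C * n
  mult : ∀ K : ℕ, ((V.filter (fun v => v.1 = K)).card : ℝ) ≤ B ^ 7 / ε
  desc : ∀ v ∈ V, ε / B ^ 5 * (P : ℝ) ^ j ≤ ((DS P j (C * 5 ^ j) (2 ^ (j ^ 2 + 5 * j) * η) F α v).card : ℝ)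
  mem0 : ∀ w ∈ G, (qa w, v0 w) ∈ DS P j (C * 5 ^ j) (2 ^ (j ^ 2 + 5 * j) * η) F α (c w)
  mem1 : ∀ w ∈ G, (pa w, v1 w) ∈ DS P j (C * 5 ^ j) (2 ^ (j ^ 2 + 5 * j) * η) F α (c w)
  link : ∀ w ∈ Om R F (j + 1), Lw w ∈ G → Rw w ∈ G → ∃ (G0 : ℕ) (g : ℝ), (n : ℝ) / C ≤ G0 ∧
    (G0 : ℝ) ≤ 4 ^ j * C * n ∧ |(G0 : ℝ) * pf w - (c (Lw w)).1 * P| ≤ C * 3 ^ j * P ∧
    |(G0 : ℝ) * ql w - (c (Rw w)).1 * P| ≤ C * 3 ^ j * P ∧
    nz (pf w * (c (Lw w)).2 - g) ≤ 2 ^ (j ^ 2 + 5 * j) * η * P / (P : ℝ) ^ j ∧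
    nz (ql w * (c (Rw w)).2 - g) ≤ 2 ^ (j ^ 2 + 5 * j) * η * P / (P : ℝ) ^ j
  exc : (((Om R F j).filter (fun w => w ∉ G)).card : ℝ) ≤ (4 * (2 * C + 1) ^ 2) ^ j * ε * n * (P : ℝ) ^ (2 * j)

private theorem Lvl_one_mem {C η : ℝ} {P : ℕ} {F : Finset ℕ} {α : ℕ → ℝ} {i : ℕ} (hC : 0 ≤ C) (hη : 0 ≤ η)
    (hi : i ∈ F) : ((1 : ℕ), i) ∈ DS P 0 (C * 5 ^ 0) (2 ^ (0 ^ 2 + 5 * 0) * η) F α (i, α i) := by
  have h0 : nz (0 : ℝ) = 0 := by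
    unfold nz
    simp
  rw [mem_DS]
  refine ⟨by simp, by simp, hi, ?_, ?_, ?_⟩
  · intro q hq h
    exact absurd (Nat.dvd_one.1 h) hq.ne_one
  · simpa using hC
  · simpa [h0] using hη

theorem lvl0 (C B ε η : ℝ) (ℓ n P : ℕ) (F G : Finset ℕ) (α β : ℕ → ℝ) (R : Finset (ℕ × ℕ × ℕ))
    (hPar : Par C ℓ P B ε η) (hP : 1 ≤ P) (hR : Rel C n P (η * P) F G α β R) :
    ∃ (V : Finset (ℕ × ℝ)) (G' : Finset (Wk 0)) (c : Wk 0 → ℕ × ℝ), Lvl C B ε η n P F α R 0 V G' c := by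
  classical
  have hC0 : 0 ≤ C := zero_le_one.trans hPar.hC
  have hη0 : 0 ≤ η := hPar.hη.le
  have hB : 1 ≤ B := by
    have h1 : 0 ≤ 2 * C * 5 ^ ℓ := by positivity
    linarith [hPar.hB1]
  refine ⟨F.image (fun i => (i, α i)), Om R F 0, fun w => (w.1 0, α (w.1 0)), ?_, ?_, ?_, ?_, ?_, ?_, ?_, ?_, ?_⟩
  · exact Finset.Subset.refl _
  · intro w hw
    exact Finset.mem_image.2 ⟨w.1 0, (mem_Om.1 hw).1 0, rfl⟩
  · intro v hv
    rw [Finset.mem_image] at hv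
    obtain ⟨i, hi, rfl⟩ := hv
    have h1 := hR.rngF i hi
    rw [pow_zero, one_mul]
    exact h1
  · intro K
    have h1 : ((F.image (fun i => (i, α i))).filter (fun v => v.1 = K)).card ≤ 1 := by
      rw [Finset.card_le_one]
      intro a ha b hb
      rw [Finset.mem_filter, Finset.mem_image] at ha hb
      obtain ⟨⟨i, -, rfl⟩, hi⟩ := ha
      obtain ⟨⟨j, -, rfl⟩, hj⟩ := hb
      simp only at hi hj
      rw [hi, hj]
    have h2 : (1 : ℝ) ≤ B ^ 7 / ε := by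
      rw [le_div_iff₀ hPar.hε, one_mul]
      exact hPar.hε1.trans (one_le_pow₀ hB)
    refine le_trans ?_ h2
    exact_mod_cast h1
  · intro v hv
    rw [Finset.mem_image] at hv
    obtain ⟨i, hi, rfl⟩ := hv
    have h1 : 0 < (DS P 0 (C * 5 ^ 0) (2 ^ (0 ^ 2 + 5 * 0) * η) F α (i, α i)).card :=
      Finset.card_pos.2 ⟨_, Lvl_one_mem hC0 hη0 hi⟩
    have h2 : (1 : ℝ) ≤ ((DS P 0 (C * 5 ^ 0) (2 ^ (0 ^ 2 + 5 * 0) * η) F α (i, α i)).card : ℝ) := by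
      exact_mod_cast h1
    refine le_trans ?_ h2
    rw [pow_zero, mul_one, div_le_one (by positivity)]
    exact hPar.hε1.trans (one_le_pow₀ hB)
  · intro w hw
    have h1 := Lvl_one_mem (P := P) (α := α) hC0 hη0 ((mem_Om.1 hw).1 0)
    have h2 : qa w = 1 := by
      unfold qa
      simp
    rw [h2]
    exact h1
  · intro w hw
    have h1 := Lvl_one_mem (P := P) (α := α) hC0 hη0 ((mem_Om.1 hw).1 0)
    have h2 : pa w = 1 := by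
      unfold pa
      simp
    rw [h2]
    exact h1
  · intro w hw _ _
    obtain ⟨h1, h2⟩ := (mem_Om.1 hw).2.1 0
    have h3 := hR.rngF' _ (hR.memF' _ h1)
    have h4 := hR.pos _ h1
    have h5 := hR.pos _ h2
    have h6 := hR.freq _ h1
    have h7 := hR.freq _ h2
    refine ⟨(w.2 0).2.1, β (w.2 0).2.1, ?_, ?_, ?_, ?_, ?_, ?_⟩
    · exact h3.1
    · rw [pow_zero, one_mul]
      exact h3.2
    · rw [pow_zero, mul_one]
      exact h4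
    · rw [pow_zero, mul_one]
      exact h5
    · have e : (2 : ℝ) ^ (0 ^ 2 + 5 * 0) * η * P / (P : ℝ) ^ 0 = η * P := by norm_num
      rw [e]
      exact h6
    · have e : (2 : ℝ) ^ (0 ^ 2 + 5 * 0) * η * P / (P : ℝ) ^ 0 = η * P := by norm_num
      rw [e]
      exact h7
  · have h1 : (Om R F 0).filter (fun w => w ∉ Om R F 0) = ∅ := by
      rw [Finset.filter_eq_empty_iff]
      intro w hw h
      exact h hw
    rw [h1, Finset.card_empty, Nat.cast_zero]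
    have := hPar.hε
    positivity

end Pool.Agent.H74.MDX
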