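import Pool.Agent.H74.MDX.Defs

/-!
# MDX Nd: a frequency which is small on many rough numbers

Proof.  Dirichlet: there are `q ≥ 1`, `q ≤ 4X`, `b ∈ ℤ` coprime to `q` with `|φ - b/q| ≤ 1/(4 X q)` (e.g. `Real.exists_rat_abs_sub_le_and_den_le`, `Rat.den`, for the natural number
`4X`; it gives `≤ 1/((4X+1) q)`).  For `a ∈ S`: `a ≤ X`, `|a (φ - b/q)| ≤ 1/(4q)`, so `nz (a b/q) ≤ t + 1/(4q)`.
* `2 ≤ q ≤ P`: take `a ∈ S` (nonempty by `hS`); its prime factors are `> P`, so `gcd(a, q) = 1`, `q ∤ a b`, `nz (a b/q) ≥ 1/q` (`nz_frac_ge`), so `3/(4q) ≤ t`,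
  but `t < 3/(4P) ≤ 3/(4q)`.
* `q > P`: `a b mod q` (absolutely smallest residue `r`) satisfies `|r| ≤ t q + 1/4`, at most `2 t q + 3/2` values of `r`, each determines `a` mod `q`, and each class mod `q` contains at most
  `X/q + 1` numbers `a ≤ X`.  So `|S| ≤ (X/q + 1)(2 t q + 3/2) = 2 t X + 3X/(2q) + 2 t q + 3/2 ≤ 10 t X + 3X/(2P) + 3/2` (`q ≤ 4X`): contradiction with `hS`.
* `q = 1`: `|a (φ - b)| ≤ 1/4 < 1/2`, so `nz (a φ) = |a (φ - b)|` (`nz_sub_int`, `nz_eq_abs`), `Y |φ - b| ≤ a |φ - b| ≤ t`, and `nz φ ≤ |φ - b| ≤ t/Y`.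
-/

set_option autoImplicit false

namespace Pool.Agent.H74.MDX

open Finset
open Pool.Agent.H53.MID (nz Rel Desc)

private theorem Nd_int_card (S : Finset ℤ) (c : ℝ) (hc : 0 ≤ c) (h : ∀ k ∈ S, |(k : ℝ)| ≤ c) : (S.card : ℝ) ≤ 2 * c + 1 := by
  have h1 : S ⊆ Finset.Icc ⌈-c⌉ ⌊c⌋ := by
    intro z hz
    have h2 := abs_le.mp (h z hz)
    rw [Finset.mem_Icc]
    exact ⟨Int.ceil_le.mpr h2.1, Int.le_floor.mpr h2.2⟩
  have h2 := Finset.card_le_card h1
  rw [Int.card_Icc] at h2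
  have h3 : ⌈-c⌉ ≤ 0 := by rw [Int.ceil_le]; push_cast; linarith
  have h3' : 0 ≤ ⌊c⌋ := Int.floor_nonneg.mpr hc
  have h5 : (((⌊c⌋ + 1 - ⌈-c⌉).toNat : ℤ) : ℝ) = ((⌊c⌋ + 1 - ⌈-c⌉ : ℤ) : ℝ) := by
    rw [Int.toNat_of_nonneg (by linarith)]
  push_cast at h5
  have h6 : (S.card : ℝ) ≤ ((⌊c⌋ + 1 - ⌈-c⌉).toNat : ℝ) := by exact_mod_cast h2
  have h7 := Int.floor_le c
  have h8 := Int.le_ceil (-c)
  linarith

private theorem Nd_class (X q : ℕ) (hq : 0 < q) (S : Finset ℕ) (hX : ∀ a ∈ S, a ≤ X)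
    (hm : ∀ a ∈ S, ∀ b ∈ S, a % q = b % q) : S.card ≤ X / q + 1 := by
  have hinj : Set.InjOn (fun a : ℕ => a / q) S := by
    intro a ha b hb hab
    have h1 := hm a ha b hb
    have h2 := Nat.div_add_mod a q
    have h3 := Nat.div_add_mod b q
    simp only at hab
    rw [← h2, ← h3, hab, h1]
  rw [← Finset.card_image_of_injOn hinj]
  have h4 : S.image (fun a : ℕ => a / q) ⊆ Finset.range (X / q + 1) := by
    intro y hy
    rw [Finset.mem_image] at hy
    obtain ⟨a, ha, rfl⟩ := hy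
    rw [Finset.mem_range]
    exact Nat.lt_succ_of_le (Nat.div_le_div_right (hX a ha))
  have h5 := Finset.card_le_card h4
  rw [Finset.card_range] at h5
  exact h5

theorem nd_rough (P X Y : ℕ) (t φ : ℝ) (S : Finset ℕ) (hP : 1 ≤ P) (hY : 1 ≤ Y) (hX : 1 ≤ X) (ht : 0 ≤ t) (htP : 4 * t * P < 3)
    (hSX : ∀ a ∈ S, Y ≤ a ∧ a ≤ X) (hSr : ∀ a ∈ S, ∀ q : ℕ, q.Prime → q ∣ a → P < q)
    (hSt : ∀ a ∈ S, nz (a * φ) ≤ t) (hS : 10 * t * X + 3 * X / P + 3 < S.card) : nz φ ≤ t / Y := by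
  have hX0 : (0 : ℝ) < X := by exact_mod_cast hX
  have hP0 : (0 : ℝ) < P := by exact_mod_cast hP
  have hY0 : (0 : ℝ) < Y := by exact_mod_cast hY
  obtain ⟨r, hr1, hr2⟩ := Real.exists_rat_abs_sub_le_and_den_le φ (n := 4 * X) (by omega)
  set q : ℕ := r.den with hq
  have hqpos : 0 < q := r.den_pos
  have hq0 : (0 : ℝ) < q := by exact_mod_cast hqpos
  set b : ℤ := r.num with hb
  have hrb : (r : ℝ) = (b : ℝ) / q := by
    rw [hb, hq]; exact (Rat.cast_def r)
  have hcop : IsCoprime b (q : ℤ) := by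
    rw [Int.isCoprime_iff_nat_coprime]
    have := r.reduced
    simpa using this
  have hnear : ∀ a ∈ S, |(a : ℝ) * φ - (a : ℝ) * (b / q)| ≤ 1 / (4 * q) := by
    intro a ha
    have ha2 : (a : ℝ) ≤ X := by exact_mod_cast (hSX a ha).2
    rw [← mul_sub, abs_mul, Nat.abs_cast]
    have h1 : |φ - (b : ℝ) / q| ≤ 1 / ((4 * X + 1) * q) := by
      rw [← hrb]; push_cast at hr1; exact hr1
    calc (a : ℝ) * |φ - (b : ℝ) / q| ≤ X * (1 / ((4 * X + 1) * q)) :=
          mul_le_mul ha2 h1 (abs_nonneg _) hX0.le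
      _ ≤ 1 / (4 * q) := by
          rw [mul_one_div, div_le_div_iff₀ (by positivity) (by positivity)]
          nlinarith
  have hfrac : ∀ a ∈ S, nz ((a : ℝ) * (b / q)) ≤ t + 1 / (4 * q) := by
    intro a ha
    have h1 : (a : ℝ) * (b / q) = a * φ - (a * φ - a * (b / q)) := by ring
    rw [h1]
    refine (Pool.Agent.H53.MID.nz_sub _ _).trans (add_le_add (hSt a ha) ?_)
    exact (Pool.Agent.H53.MID.nz_le_abs _).trans (hnear a ha)
  have hSne : S.Nonempty := by
    rw [← Finset.card_pos]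
    have h1 : (0 : ℝ) < S.card := lt_of_le_of_lt (by positivity) hS
    exact_mod_cast h1
  rcases Nat.lt_or_ge P q with hPq | hqP
  · -- large denominators: counting
    exfalso
    have hPq' : (P : ℝ) < q := by exact_mod_cast hPq
    set f : ℕ → ℤ := fun a => (a : ℤ) * b - q * round ((a : ℝ) * (b / q)) with hf
    have hfb : ∀ a ∈ S, |((f a : ℤ) : ℝ)| ≤ t * q + 1 / 4 := by
      intro a ha
      have h1 := hfrac a ha
      have h2 : ((f a : ℤ) : ℝ) = q * ((a : ℝ) * (b / q) - round ((a : ℝ) * (b / q))) := by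
        rw [hf]; push_cast; field_simp
      rw [h2, abs_mul, Nat.abs_cast]
      have h3 : |(a : ℝ) * (b / q) - round ((a : ℝ) * (b / q))| ≤ t + 1 / (4 * q) := h1
      calc (q : ℝ) * |(a : ℝ) * (b / q) - round ((a : ℝ) * (b / q))| ≤ q * (t + 1 / (4 * q)) :=
            mul_le_mul_of_nonneg_left h3 hq0.le
        _ = t * q + 1 / 4 := by field_simp
    have hfib : ∀ z ∈ S.image f, (S.filter (fun a => f a = z)).card ≤ X / q + 1 := by
      intro z _
      refine Nd_class X q hqpos _ (fun a ha => (hSX a (Finset.mem_filter.mp ha).1).2) ?_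
      intro a ha a' ha'
      rw [Finset.mem_filter] at ha ha'
      have h1 : f a = f a' := ha.2.trans ha'.2.symm
      have h2 : (q : ℤ) ∣ ((a : ℤ) - a') * b := by
        refine ⟨round ((a : ℝ) * (b / q)) - round ((a' : ℝ) * (b / q)), ?_⟩
        simp only [hf] at h1
        linear_combination h1
      have h3 : (q : ℤ) ∣ (a : ℤ) - a' := hcop.symm.dvd_of_dvd_mul_right h2
      have h4 : (a' : ℤ) ≡ a [ZMOD q] := (Int.modEq_iff_dvd).mpr h3
      have h5 : (a' : ℕ) ≡ a [MOD q] := (Int.natCast_modEq_iff).mp h4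
      exact h5.symm
    have hc1 := Finset.card_le_mul_card_image S (X / q + 1) hfib
    have hc2 : ((S.image f).card : ℝ) ≤ 2 * (t * q + 1 / 4) + 1 := by
      refine Nd_int_card _ _ (by positivity) ?_
      intro k hk
      rw [Finset.mem_image] at hk
      obtain ⟨a, ha, rfl⟩ := hk
      exact hfb a ha
    have hc3 : ((X / q : ℕ) : ℝ) ≤ X / q := Nat.cast_div_le
    have hc4 : (S.card : ℝ) ≤ (X / q + 1) * (2 * (t * q + 1 / 4) + 1) := by
      calc (S.card : ℝ) ≤ (((X / q : ℕ) : ℝ) + 1) * ((S.image f).card : ℝ) := by exact_mod_cast hc1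
        _ ≤ (X / q + 1) * (2 * (t * q + 1 / 4) + 1) :=
            mul_le_mul (by linarith) hc2 (Nat.cast_nonneg _) (by positivity)
    have hq4 : (q : ℝ) ≤ 4 * X := by exact_mod_cast hr2
    have e1 : ((X : ℝ) / q + 1) * (2 * (t * q + 1 / 4) + 1) = 2 * t * X + 3 / 2 * (X / q) + 2 * t * q + 3 / 2 := by
      field_simp
      ring
    have e2 : (X : ℝ) / q ≤ X / P := div_le_div_of_nonneg_left hX0.le hP0 hPq'.le
    have e3 : t * q ≤ t * (4 * X) := mul_le_mul_of_nonneg_left hq4 ht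
    have e4 : 3 * (X : ℝ) / P = 3 * (X / P) := by ring
    have e5 : (0 : ℝ) ≤ X / P := by positivity
    rw [e1] at hc4
    rw [e4] at hS
    linarith
  · rcases Nat.lt_or_ge 1 q with h1q | hq1
    · -- small denominators
      exfalso
      obtain ⟨a, ha⟩ := hSne
      have hac : Nat.Coprime a q := by
        rw [Nat.coprime_iff_gcd_eq_one]
        by_contra hne
        obtain ⟨p, hp, hpd⟩ := Nat.exists_prime_and_dvd hne
        have h1 := hSr a ha p hp (hpd.trans (Nat.gcd_dvd_left _ _))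
        have h2 := Nat.le_of_dvd hqpos (hpd.trans (Nat.gcd_dvd_right _ _))
        omega
      have hnd : ¬ ((q : ℕ) : ℤ) ∣ (a : ℤ) * b := by
        intro hd
        have h1 : IsCoprime ((a : ℤ) * b) (q : ℤ) :=
          IsCoprime.mul_left (Nat.isCoprime_iff_coprime.mpr hac) hcop
        have h2 : IsUnit ((q : ℕ) : ℤ) := h1.isUnit_of_dvd' hd (dvd_refl _)
        rw [Int.isUnit_iff_natAbs_eq, Int.natAbs_natCast] at h2
        omega
      have h1 := Pool.Agent.H53.MID.nz_frac_ge ((a : ℤ) * b) q hqpos hnd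
      have h2 : (((a : ℤ) * b : ℤ) : ℝ) / q = (a : ℝ) * (b / q) := by push_cast; ring
      rw [h2] at h1
      have h3 := h1.trans (hfrac a ha)
      have h4 : 3 ≤ 4 * t * q := by
        have h5 : 1 / (q : ℝ) - 1 / (4 * q) ≤ t := by linarith
        have h6 : 1 / (q : ℝ) - 1 / (4 * q) = 3 / (4 * q) := by field_simp; ring
        rw [h6, div_le_iff₀ (by positivity)] at h5
        linarith
      have h5 : (q : ℝ) ≤ P := by exact_mod_cast hqP
      have h6 : 4 * t * q ≤ 4 * t * P := mul_le_mul_of_nonneg_left h5 (by positivity)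
      linarith
    · -- denominator one
      have hq1' : q = 1 := by omega
      obtain ⟨a, ha⟩ := hSne
      have hY' : (Y : ℝ) ≤ a := by exact_mod_cast (hSX a ha).1
      have h1 := hnear a ha
      rw [hq1'] at h1
      have h2 : |(a : ℝ) * (φ - b)| ≤ 1 / 4 := by
        have e : (a : ℝ) * (φ - b) = a * φ - a * (b / ((1 : ℕ) : ℝ)) := by push_cast; ring
        rw [e]
        refine h1.trans ?_
        norm_num
      have h3 : nz ((a : ℝ) * φ) = |(a : ℝ) * (φ - b)| := by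
        have e : (a : ℝ) * (φ - b) = a * φ - ((a * b : ℤ) : ℝ) := by push_cast; ring
        rw [← Pool.Agent.H53.MID.nz_eq_abs _ (lt_of_le_of_lt h2 (by norm_num)), e,
          Pool.Agent.H53.MID.nz_sub_int]
      have h4 := hSt a ha
      rw [h3, abs_mul, Nat.abs_cast] at h4
      have h5 : (Y : ℝ) * |φ - b| ≤ t := (mul_le_mul_of_nonneg_right hY' (abs_nonneg _)).trans h4
      refine (Pool.Agent.H53.MID.nz_le_of φ b).trans ?_
      rw [le_div_iff₀ hY0]
      linarith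

end Pool.Agent.H74.MDX
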