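import Pool.Agent.H74.MDX.Defs

/-!
# MDX Root: the root of an edge

For an edge `e = ((p,K,k), (p',K',k'))` (`mem_EX`) `lift` (H53/MID/FourC.lean, with `p := p`, `p1 := p'`, `a := k`, `a1 := k'`, `d := 2 η`) gives an integer `s` with
`nz (p' ((k + s)/p) - k') ≤ 2 η/p`.  Choose the representative `s ∈ [0, p)` (`s ↦ s % p`; changing `s` by a multiple of `p` changes `(k+s)/p` by an integer and the
argument of `nz` by an integer: `nz_add_int`).  Uniqueness: if `s1, s2 ∈ [0, p)` both satisfy it then `nz (p' (s1 - s2)/p) ≤ 4 η/p < 1/p`, so `p ∣ p' (s1 - s2)`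
(`nz_frac_ge`), `p ∣ s1 - s2` (`p ≠ p'` primes), `s1 = s2`.
Second claim: `four_cycle` with `p = pr u`, `q = pr v`, `p1 = pr u1`, `p2 = pr u2`, `a = k_u`, `b = k_v`, `a1 = k_(u1)`, `a2 = k_(u2)`, `d = 2 η`
(`48 d P^2 = 96 η P^2 < 1`): the label of `(u, u1)` also satisfies the inequality of `(u, u2)`; by uniqueness the labels are equal.
(If `η P^2` is small and `P ≥ 1` then also `4 η < 1`; the vertices have `P < p ≤ 2P`.)
-/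

set_option autoImplicit false

namespace Pool.Agent.H74.MDX

open Finset
open Pool.Agent.H53.MID (nz Rel Desc)

private theorem Root_exists (p p1 : ℕ) (hp : p.Prime) (hp1 : p1.Prime) (hne : p ≠ p1) (a a1 d : ℝ)
    (h : nz (p1 * a - p * a1) ≤ d) :
    ∃ s : ℤ, 0 ≤ s ∧ s < p ∧ nz (p1 * ((a + s) / p) - a1) ≤ d / p := by
  obtain ⟨s0, hs0⟩ := Pool.Agent.H53.MID.lift p p1 hp hp1 hne a a1 d h
  have hp0 : (0 : ℤ) < p := by exact_mod_cast hp.pos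
  have hpR : (0 : ℝ) < p := by exact_mod_cast hp.pos
  refine ⟨s0 % p, Int.emod_nonneg _ hp0.ne', Int.emod_lt_of_pos _ hp0, ?_⟩
  have e0 : (s0 : ℝ) = ((s0 % p : ℤ) : ℝ) + p * ((s0 / p : ℤ) : ℝ) := by
    have := Int.emod_add_mul_ediv s0 p
    exact_mod_cast this.symm
  have e1 : (p1 : ℝ) * ((a + s0) / p) - a1 =
      (p1 * ((a + ((s0 % p : ℤ) : ℝ)) / p) - a1) + ((p1 * (s0 / p) : ℤ) : ℝ) := by
    rw [e0]
    push_cast
    field_simp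
    ring
  rw [e1, Pool.Agent.H53.MID.nz_add_int] at hs0
  exact hs0

private theorem Root_unique (p p1 : ℕ) (hp : p.Prime) (hp1 : p1.Prime) (hne : p ≠ p1) (a a1 η : ℝ) (hη : 4 * η < 1)
    (s t : ℤ) (hs0 : 0 ≤ s) (hsp : s < p) (ht0 : 0 ≤ t) (htp : t < p)
    (hs : nz (p1 * ((a + s) / p) - a1) ≤ 2 * η / p) (ht : nz (p1 * ((a + t) / p) - a1) ≤ 2 * η / p) : s = t := by
  have hpR : (0 : ℝ) < p := by exact_mod_cast hp.pos
  have h1 := Pool.Agent.H53.MID.nz_sub (p1 * ((a + s) / p) - a1) (p1 * ((a + t) / p) - a1)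
  have e1 : (p1 : ℝ) * ((a + s) / p) - a1 - (p1 * ((a + t) / p) - a1) = ((p1 * (s - t) : ℤ) : ℝ) / p := by
    push_cast
    field_simp
    ring
  rw [e1] at h1
  have h2 : nz (((p1 * (s - t) : ℤ) : ℝ) / p) < 1 / p := by
    refine (h1.trans (add_le_add hs ht)).trans_lt ?_
    rw [← add_div]
    exact div_lt_div_of_pos_right (by linarith) hpR
  have h3 : (p : ℤ) ∣ (p1 : ℤ) * (s - t) := by
    by_contra h4
    have h5 := Pool.Agent.H53.MID.nz_frac_ge _ p hp.pos h4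
    linarith
  have hpi : Prime (p : ℤ) := Nat.prime_iff_prime_int.1 hp
  rcases hpi.dvd_or_dvd h3 with h4 | h4
  · exact absurd ((Nat.prime_dvd_prime_iff_eq hp hp1).1 (Int.natCast_dvd_natCast.1 h4)) hne
  · have h5 : |s - t| < p := by
      rw [abs_lt]
      constructor <;> linarith
    have h6 := Int.eq_zero_of_abs_lt_dvd h4 h5
    linarith

theorem root_label (c : ℝ) (P : ℕ) (η : ℝ) (V : Finset (ℕ × ℝ)) (M : ℕ) (hP : 1 ≤ P) (hη : 0 ≤ η)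
    (hηP : 100 * η * (P : ℝ) ^ 2 ≤ 1) :
    ∃ s : (ℕ × ℕ × ℝ) × (ℕ × ℕ × ℝ) → ℤ,
      (∀ e ∈ EX c P η V M, nz ((e.2.1 : ℝ) * ((e.1.2.2 + s e) / e.1.1) - e.2.2.2) ≤ 2 * η / e.1.1) ∧
      ∀ u v u1 u2 : ℕ × ℕ × ℝ, (u, u1) ∈ EX c P η V M → (u, u2) ∈ EX c P η V M → (v, u1) ∈ EX c P η V M →
        (v, u2) ∈ EX c P η V M → u.1 ≠ v.1 → s (u, u1) = s (u, u2) := by
  classical
  have hP2 : (1 : ℝ) ≤ (P : ℝ) ^ 2 := one_le_pow₀ (by exact_mod_cast hP)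
  have hη4 : 4 * η < 1 := by nlinarith
  have hd : 48 * (2 * η) * (P : ℝ) ^ 2 < 1 := by nlinarith
  have key : ∀ e : (ℕ × ℕ × ℝ) × (ℕ × ℕ × ℝ), ∃ s : ℤ, e ∈ EX c P η V M →
      0 ≤ s ∧ s < e.1.1 ∧ nz ((e.2.1 : ℝ) * ((e.1.2.2 + s) / e.1.1) - e.2.2.2) ≤ 2 * η / e.1.1 := by
    intro e
    by_cases he : e ∈ EX c P η V M
    · obtain ⟨h1, h2, h3, h4⟩ := mem_EX.1 he
      obtain ⟨s, hs⟩ := Root_exists e.1.1 e.2.1 (mem_VX.1 h1).2.1 (mem_VX.1 h2).2.1 h3 e.1.2.2 e.2.2.2 (2 * η) h4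
      exact ⟨s, fun _ => hs⟩
    · exact ⟨0, fun h => absurd h he⟩
  choose s hs using key
  refine ⟨s, fun e he => (hs e he).2.2, ?_⟩
  intro u v u1 u2 h1 h2 h3 h4 huv
  obtain ⟨a1, a2, a3, a4⟩ := mem_EX.1 h1
  obtain ⟨b1, b2, b3, b4⟩ := mem_EX.1 h2
  obtain ⟨c1, c2, c3, c4⟩ := mem_EX.1 h3
  obtain ⟨d1, d2, d3, d4⟩ := mem_EX.1 h4
  obtain ⟨x1, x2, x3⟩ := hs _ h1
  obtain ⟨y1, y2, y3⟩ := hs _ h2
  have h5 := Pool.Agent.H53.MID.four_cycle P u.1 v.1 u1.1 u2.1 (mem_VX.1 a1).2.1 (mem_VX.1 c1).2.1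
    (mem_VX.1 a2).2.1 (mem_VX.1 b2).2.1 (mem_VX.1 a1).1 (mem_VX.1 c1).1 (mem_VX.1 a2).1 (mem_VX.1 b2).1
    huv a3 b3 u.2.2 v.2.2 u1.2.2 u2.2.2 (2 * η) (s (u, u1)) (s (u, u2)) x3 y3 c4 d4 (by linarith) hd
  exact Root_unique u.1 u2.1 (mem_VX.1 a1).2.1 (mem_VX.1 b2).2.1 b3 u.2.2 u2.2.2 η hη4 _ _ x1 x2 y1 y2 h5 y3

end Pool.Agent.H74.MDX
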