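import Pool.Agent.H74.MDX.Defs

/-!
# MDX Sep: separated nets modulo 1

`net`: a maximal subset of `W` (with respect to inclusion or cardinality: `Finset.exists_max_image` on the filtered powerset) with pairwise `nz (g - g') > s`; by maximality every
`w ∈ W` has some `g` with `nz (w - g) ≤ s` (for `w ∈ Γ` itself `nz 0 = 0 ≤ s`).
`near_card`: for `g'` in the set choose the integer `m` with `|g - g' - m| = nz (g - g') ≤ s'` and put `x(g') = g' - g + m ∈ [-s', s']` (`nz_exists`); for two different ones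
`|x(g') - x(g'')| ≥ nz (g' - g'') > s` (`nz_le_of`).  So the map `g' ↦ ⌊(x(g') + s')/s⌋` is injective with values in `[0, 2s'/s]`: at most `2 s'/s + 1` elements.
-/

set_option autoImplicit false

namespace Pool.Agent.H74.MDX

open Finset
open Pool.Agent.H53.MID (nz Rel Desc)

theorem net (W : Finset ℝ) (s : ℝ) (hs : 0 ≤ s) : ∃ Γ ⊆ W, (∀ w ∈ W, ∃ g ∈ Γ, nz (w - g) ≤ s) ∧
    ∀ g ∈ Γ, ∀ g' ∈ Γ, g ≠ g' → s < nz (g - g') := by
  classical
  set A : Finset (Finset ℝ) := W.powerset.filter
    (fun Γ => ∀ g ∈ Γ, ∀ g' ∈ Γ, g ≠ g' → s < nz (g - g')) with hA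
  have hne : A.Nonempty := by
    refine ⟨∅, ?_⟩
    rw [hA, Finset.mem_filter, Finset.mem_powerset]
    exact ⟨Finset.empty_subset _, fun g hg => absurd hg (Finset.notMem_empty g)⟩
  obtain ⟨Γ, hΓ, hmax⟩ := A.exists_max_image (fun Γ => Γ.card) hne
  rw [hA, Finset.mem_filter, Finset.mem_powerset] at hΓ
  refine ⟨Γ, hΓ.1, fun w hw => ?_, hΓ.2⟩
  by_contra hcon
  push Not at hcon
  have hwΓ : w ∉ Γ := by
    intro h
    have h1 := hcon w h
    have h2 := Pool.Agent.H53.MID.nz_le_abs (w - w)
    rw [sub_self, abs_zero] at h2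
    rw [sub_self] at h1
    linarith
  have hins : insert w Γ ∈ A := by
    rw [hA, Finset.mem_filter, Finset.mem_powerset]
    refine ⟨Finset.insert_subset hw hΓ.1, fun g hg g' hg' hgg => ?_⟩
    rw [Finset.mem_insert] at hg hg'
    rcases hg with rfl | hg <;> rcases hg' with rfl | hg'
    · exact absurd rfl hgg
    · exact hcon g' hg'
    · rw [← Pool.Agent.H53.MID.nz_neg, neg_sub]
      exact hcon g hg
    · exact hΓ.2 g hg g' hg' hgg
  have h3 := hmax _ hins
  rw [Finset.card_insert_of_notMem hwΓ] at h3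
  omega

open Classical in
theorem near_card (Γ : Finset ℝ) (s s' : ℝ) (hs : 0 < s) (hs' : 0 ≤ s')
    (hsep : ∀ g ∈ Γ, ∀ g' ∈ Γ, g ≠ g' → s < nz (g - g')) (g : ℝ) :
    ((Γ.filter (fun g' => nz (g - g') ≤ s')).card : ℝ) ≤ 2 * s' / s + 1 := by
  set x : ℝ → ℝ := fun g' => g' - g + round (g - g') with hx
  have hxabs : ∀ g', |x g'| = nz (g - g') := by
    intro g'
    have e : x g' = -((g - g') - round (g - g')) := by rw [hx]; ring
    rw [e, abs_neg]
    rfl
  have hcard : (Γ.filter (fun g' => nz (g - g') ≤ s')).card ≤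
      (Finset.range (⌊2 * s' / s⌋₊ + 1)).card := by
    refine Finset.card_le_card_of_injOn (fun g' => ⌊(x g' + s') / s⌋₊) ?_ ?_
    · intro g' hg'
      rw [Finset.mem_coe, Finset.mem_filter] at hg'
      have h1 := hxabs g'
      have h2 : |x g'| ≤ s' := by rw [h1]; exact hg'.2
      rw [abs_le] at h2
      rw [Finset.mem_coe, Finset.mem_range, Nat.lt_succ_iff]
      refine Nat.floor_le_floor ?_
      exact div_le_div_of_nonneg_right (by linarith) hs.le
    · intro a ha b hb hab
      rw [Finset.mem_coe, Finset.mem_filter] at ha hb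
      by_contra hne
      have h1 := hsep a ha.1 b hb.1 hne
      have ha2 : |x a| ≤ s' := by rw [hxabs]; exact ha.2
      have hb2 : |x b| ≤ s' := by rw [hxabs]; exact hb.2
      rw [abs_le] at ha2 hb2
      have hab' : ⌊(x a + s') / s⌋₊ = ⌊(x b + s') / s⌋₊ := hab
      have ha3 := Nat.floor_le (show 0 ≤ (x a + s') / s from div_nonneg (by linarith) hs.le)
      have hb3 := Nat.floor_le (show 0 ≤ (x b + s') / s from div_nonneg (by linarith) hs.le)
      have ha4 := Nat.lt_floor_add_one ((x a + s') / s)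
      have hb4 := Nat.lt_floor_add_one ((x b + s') / s)
      rw [← hab'] at hb3 hb4
      rw [le_div_iff₀ hs] at ha3 hb3
      rw [div_lt_iff₀ hs] at ha4 hb4
      have h2 : |x a - x b| < s := by
        rw [abs_lt]
        constructor <;> linarith
      have h3 := Pool.Agent.H53.MID.nz_le_of (a - b) (round (g - b) - round (g - a))
      have e : a - b - ((round (g - b) - round (g - a) : ℤ) : ℝ) = x a - x b := by
        rw [hx]
        push_cast
        ring
      rw [e] at h3
      linarith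
  rw [Finset.card_range] at hcard
  have h1 : ((Γ.filter (fun g' => nz (g - g') ≤ s')).card : ℝ) ≤ (⌊2 * s' / s⌋₊ : ℝ) + 1 := by
    exact_mod_cast hcard
  have h2 := Nat.floor_le (show 0 ≤ 2 * s' / s from div_nonneg (by linarith) hs.le)
  linarith

end Pool.Agent.H74.MDX
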