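import Pool.Agent.H74.MDX.Defs

/-!
# MDX Sets: many sets with small intersections

Proof.  `Y = ∑_{g ∈ Γ} |A g| = ∑_{x ∈ U} f(x)`, `f(x) = #{g ∈ Γ : x ∈ A g}`.  Cauchy-Schwarz: `Y^2 ≤ Tot ∑_x f(x)^2 = Tot ∑_{g, g'} |A g ∩ A g'|`.  Near pairs: `|A g ∩ A g'| ≤ |A g|`, at most
`Kn` values `g'` for every `g`: `≤ Kn Y`.  Far pairs: `≤ |Γ|^2 ι`, and `|Γ| m0 ≤ Y`, so `|Γ|^2 ι Tot ≤ Y^2 ι Tot/m0^2 ≤ Y^2/2`.  So `Y^2/2 ≤ Tot Kn Y`.
-/

set_option autoImplicit false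

namespace Pool.Agent.H74.MDX

open Finset

open Classical in
theorem sets_sum {T W : Type*} (Γ : Finset T) (U : Finset W) (A : T → Finset W) (near : T → T → Prop)
    (Tot Kn ι m0 : ℝ) (hA : ∀ g ∈ Γ, A g ⊆ U) (hU : (U.card : ℝ) ≤ Tot) (hm0 : 0 < m0) (hι : 0 ≤ ι) (hKn : 0 ≤ Kn)
    (hlow : ∀ g ∈ Γ, m0 ≤ ((A g).card : ℝ))
    (hnear : ∀ g ∈ Γ, ((Γ.filter (fun g' => near g g')).card : ℝ) ≤ Kn)
    (hfar : ∀ g ∈ Γ, ∀ g' ∈ Γ, ¬ near g g' → ((A g ∩ A g').card : ℝ) ≤ ι)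
    (hbig : 2 * Tot * ι ≤ m0 ^ 2) : ∑ g ∈ Γ, ((A g).card : ℝ) ≤ 2 * Kn * Tot := by
  have hTot : 0 ≤ Tot := le_trans (Nat.cast_nonneg _) hU
  set Y : ℝ := ∑ g ∈ Γ, ((A g).card : ℝ) with hY
  have hY0 : 0 ≤ Y := Finset.sum_nonneg fun g _ => Nat.cast_nonneg _
  have hcard : ∀ g ∈ Γ, ((A g).card : ℝ) = ∑ x ∈ U, (if x ∈ A g then (1 : ℝ) else 0) := by
    intro g hg
    rw [Finset.sum_ite_mem, Finset.inter_eq_right.mpr (hA g hg)]
    simp
  have hYf : Y = ∑ x ∈ U, ∑ g ∈ Γ, (if x ∈ A g then (1 : ℝ) else 0) := by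
    rw [hY, Finset.sum_congr rfl hcard, Finset.sum_comm]
  have hCS : Y ^ 2 ≤ Tot * ∑ x ∈ U, (∑ g ∈ Γ, (if x ∈ A g then (1 : ℝ) else 0)) ^ 2 := by
    rw [hYf]
    refine (sq_sum_le_card_mul_sum_sq).trans ?_
    exact mul_le_mul_of_nonneg_right hU (Finset.sum_nonneg fun x _ => sq_nonneg _)
  have hsq : ∑ x ∈ U, (∑ g ∈ Γ, (if x ∈ A g then (1 : ℝ) else 0)) ^ 2 =
      ∑ g ∈ Γ, ∑ g' ∈ Γ, ((A g ∩ A g').card : ℝ) := by
    have e1 : ∀ x ∈ U, (∑ g ∈ Γ, (if x ∈ A g then (1 : ℝ) else 0)) ^ 2 =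
        ∑ g ∈ Γ, ∑ g' ∈ Γ, (if x ∈ A g ∩ A g' then (1 : ℝ) else 0) := by
      intro x _
      rw [sq, Finset.sum_mul_sum]
      refine Finset.sum_congr rfl fun g _ => Finset.sum_congr rfl fun g' _ => ?_
      by_cases h1 : x ∈ A g <;> by_cases h2 : x ∈ A g' <;> simp [h1, h2]
    rw [Finset.sum_congr rfl e1, Finset.sum_comm]
    refine Finset.sum_congr rfl fun g hg => ?_
    rw [Finset.sum_comm]
    refine Finset.sum_congr rfl fun g' _ => ?_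
    rw [Finset.sum_ite_mem, Finset.inter_eq_right.mpr (Finset.inter_subset_left.trans (hA g hg))]
    simp
  have hsplit : ∀ g ∈ Γ, ∑ g' ∈ Γ, ((A g ∩ A g').card : ℝ) ≤ Kn * (A g).card + Γ.card * ι := by
    intro g hg
    rw [← Finset.sum_filter_add_sum_filter_not Γ (fun g' => near g g')]
    refine add_le_add ?_ ?_
    · calc ∑ g' ∈ Γ.filter (fun g' => near g g'), ((A g ∩ A g').card : ℝ)
          ≤ ∑ g' ∈ Γ.filter (fun g' => near g g'), ((A g).card : ℝ) := by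
            refine Finset.sum_le_sum fun g' _ => ?_
            exact_mod_cast Finset.card_le_card Finset.inter_subset_left
        _ = ((Γ.filter (fun g' => near g g')).card : ℝ) * (A g).card := by
            rw [Finset.sum_const, nsmul_eq_mul]
        _ ≤ Kn * (A g).card := mul_le_mul_of_nonneg_right (hnear g hg) (Nat.cast_nonneg _)
    · calc ∑ g' ∈ Γ.filter (fun g' => ¬ near g g'), ((A g ∩ A g').card : ℝ)
          ≤ ∑ g' ∈ Γ.filter (fun g' => ¬ near g g'), ι := by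
            refine Finset.sum_le_sum fun g' hg' => ?_
            rw [Finset.mem_filter] at hg'
            exact hfar g hg g' hg'.1 hg'.2
        _ = ((Γ.filter (fun g' => ¬ near g g')).card : ℝ) * ι := by
            rw [Finset.sum_const, nsmul_eq_mul]
        _ ≤ Γ.card * ι := by
            refine mul_le_mul_of_nonneg_right ?_ hι
            exact_mod_cast Finset.card_le_card (Finset.filter_subset _ _)
  have hmain : Y ^ 2 ≤ Tot * (Kn * Y + (Γ.card : ℝ) * ((Γ.card : ℝ) * ι)) := by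
    refine hCS.trans (mul_le_mul_of_nonneg_left ?_ hTot)
    rw [hsq]
    refine (Finset.sum_le_sum hsplit).trans (le_of_eq ?_)
    rw [Finset.sum_add_distrib, ← Finset.mul_sum, Finset.sum_const, nsmul_eq_mul]
  have hcY : (Γ.card : ℝ) * m0 ≤ Y := by
    rw [hY, ← nsmul_eq_mul, ← Finset.sum_const]
    exact Finset.sum_le_sum hlow
  have hfarb : Tot * ((Γ.card : ℝ) * ((Γ.card : ℝ) * ι)) ≤ Y ^ 2 / 2 := by
    have h1 : (Γ.card : ℝ) ^ 2 * m0 ^ 2 ≤ Y ^ 2 := by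
      rw [← mul_pow]
      exact pow_le_pow_left₀ (by positivity) hcY 2
    have h2 : (Γ.card : ℝ) ^ 2 * (2 * Tot * ι) ≤ (Γ.card : ℝ) ^ 2 * m0 ^ 2 :=
      mul_le_mul_of_nonneg_left hbig (by positivity)
    nlinarith
  rcases hY0.eq_or_lt with h0 | hpos
  · rw [← h0]; positivity
  · have h3 : Y ^ 2 / 2 ≤ Tot * (Kn * Y) := by nlinarith
    have h4 : Y * Y ≤ (2 * Kn * Tot) * Y := by nlinarith
    exact le_of_mul_le_mul_right h4 hpos

end Pool.Agent.H74.MDX
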