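import Pool.Agent.H74.MDX.DStep
import Pool.Agent.H74.MDX.MulRel

/-!
# MDX Weak: a frequency compatible with many vertices has many descendants

Proof.  For every `K` choose `k(K)` such that `(K, k(K)) ∈ V` and the number of the `u ∈ U` with `u.2 = (K, k(K))` is maximal; as at most `m` elements of `V` have the
first coordinate `K` (`hmult`), the set `U' = {u ∈ U : u.2.2 = k(u.2.1)}` has at least `|U|/m` elements, and `u ∈ U'` is determined by `(u.1, u.2.1)`.
`Q` = sigma type over `u ∈ U'` of `DS P j D τ F α u.2` (each at least `μ P^j` elements, so `|Q| ≥ |U| μ P^j/m`); the map `(u, (a, i)) ↦ (u.1 a, i)` goes to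
`DS P (j+1) D1 τ1 F α (M, w)` (`DS_step`, `DS_mono`).  Fibres: given `(a', i)`: `u.1` is a prime `> P` dividing `a' ≤ (2P)^(j+1) < P^(j+2)` (`2^(j+1) < P`): at most
`j+1` values; given `u.1 = p`: `a = a'/p` and `|K p - M P| ≤ c P` leaves at most `2c+1` values of `K`.  (Same as `chain_step` in `Pool/Agent/H53/MID/Chain.lean`; its
private lemmas `Chain_cardK`, `Chain_cardP` can be copied.)
-/

set_option autoImplicit false

namespace Pool.Agent.H74.MDX

open Finset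
open Pool.Agent.H53.MID (nz Rel Desc)

/-- the number of the indices at a bounded distance -/
private theorem Weak_cardK {C X : ℝ} {p P : ℕ} (hC : 0 ≤ C) (hP : 0 < P) (hp : P < p)
    (U : Finset ℕ) (hU : ∀ K ∈ U, |(K : ℝ) * p - X| ≤ C * P) :
    U.card ≤ ⌊2 * C⌋₊ + 1 := by
  rcases U.eq_empty_or_nonempty with h0 | hne
  · rw [h0]
    simp
  · obtain ⟨a, ha⟩ : ∃ a, a = U.min' hne := ⟨_, rfl⟩
    have haU : a ∈ U := by
      rw [ha]
      exact Finset.min'_mem _ _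
    have hsub : U ⊆ Finset.Icc a (a + ⌊2 * C⌋₊) := by
      intro K hK
      have h1 : a ≤ K := by
        rw [ha]
        exact Finset.min'_le _ _ hK
      rw [Finset.mem_Icc]
      refine ⟨h1, ?_⟩
      have h2 := hU K hK
      have h3 := hU a haU
      rw [abs_le] at h2 h3
      have hP0 : (0 : ℝ) < P := by exact_mod_cast hP
      have hpP : (P : ℝ) < p := by exact_mod_cast hp
      have h4 : ((K : ℝ) - a) * p ≤ 2 * C * P := by linarith [h2.2, h3.1]
      have h5 : (K : ℝ) - a ≤ 2 * C := by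
        by_contra hcon
        push Not at hcon
        have h6 : 2 * C * p < ((K : ℝ) - a) * p :=
          mul_lt_mul_of_pos_right hcon (hP0.trans hpP)
        have h7 : 2 * C * P ≤ 2 * C * p := mul_le_mul_of_nonneg_left hpP.le (by linarith)
        linarith
      have h8 : ((K - a : ℕ) : ℝ) ≤ 2 * C := by
        rw [Nat.cast_sub h1]
        exact h5
      have h9 : K - a ≤ ⌊2 * C⌋₊ := Nat.le_floor h8
      omega
    refine (Finset.card_le_card hsub).trans ?_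
    rw [Nat.card_Icc]
    omega

/-- the number of the large prime factors -/
private theorem Weak_cardP {P j N : ℕ} (hP : 2 ^ (j + 1) < P) (hN : 0 < N)
    (hN2 : N ≤ (2 * P) ^ (j + 1)) (B : Finset ℕ)
    (hB : ∀ p ∈ B, p.Prime ∧ P < p ∧ p ∣ N) : B.card ≤ j + 1 := by
  have hP0 : 0 < P := lt_of_le_of_lt (Nat.zero_le _) hP
  have h1 : ∏ p ∈ B, p ∣ N :=
    Finset.prod_primes_dvd N (fun p hp => (hB p hp).1.prime) fun p hp => (hB p hp).2.2
  have h2 : ∏ p ∈ B, p ≤ N := Nat.le_of_dvd hN h1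
  have h3 : P ^ B.card ≤ ∏ p ∈ B, p := Finset.pow_card_le_prod _ _ _ fun p hp => (hB p hp).2.1.le
  have h5 : (2 * P) ^ (j + 1) < P ^ (j + 2) := by
    rw [mul_pow, pow_succ P (j + 1), mul_comm (P ^ (j + 1)) P]
    exact Nat.mul_lt_mul_of_pos_right hP (pow_pos hP0 _)
  have h6 : P ^ B.card < P ^ (j + 2) := lt_of_le_of_lt (h3.trans (h2.trans hN2)) h5
  have h7 : 1 < P := lt_of_le_of_lt Nat.one_le_two_pow hP
  have h8 := (Nat.pow_lt_pow_iff_right h7).mp h6
  omega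

open Classical in
theorem weak (P j : ℕ) (c D D1 τ τ1 η' μ m w : ℝ) (F : Finset ℕ) (α : ℕ → ℝ) (M : ℕ) (V : Finset (ℕ × ℝ))
    (U : Finset (ℕ × ℕ × ℝ)) (hP : 2 ^ (j + 1) < P) (hc : 0 ≤ c) (hD : 0 ≤ D) (hμ : 0 ≤ μ) (hm : 1 ≤ m)
    (hU : U ⊆ VX c P V M) (hUn : ∀ u ∈ U, nz (u.1 * w - u.2.2) ≤ η')
    (hV : ∀ v ∈ V, μ * (P : ℝ) ^ j ≤ ((DS P j D τ F α v).card : ℝ))
    (hmult : ∀ K : ℕ, ((V.filter (fun v => v.1 = K)).card : ℝ) ≤ m)
    (hD1 : 2 * D + c ≤ D1) (hτ1 : (2 * (P : ℝ)) ^ j * η' + τ ≤ τ1) :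
    U.card * (μ * (P : ℝ) ^ j) / (m * ((j + 1) * (2 * c + 1))) ≤ ((DS P (j + 1) D1 τ1 F α (M, w)).card : ℝ) := by
  classical
  have hP0 : 0 < P := lt_of_le_of_lt (Nat.zero_le _) hP
  have hP0' : (0 : ℝ) < P := by exact_mod_cast hP0
  set f : (Σ _ : ℕ × ℕ × ℝ, ℕ × ℕ) → ℕ × ℕ := fun x => (x.1.1 * x.2.1, x.2.2) with hf
  set Q : Finset (Σ _ : ℕ × ℕ × ℝ, ℕ × ℕ) := U.sigma fun u => DS P j D τ F α u.2 with hQ
  have key : ∀ x ∈ Q, x.1 ∈ U ∧ x.2 ∈ DS P j D τ F α x.1.2 := by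
    intro x hx
    rw [hQ, Finset.mem_sigma] at hx
    exact hx
  have himg : Q.image f ⊆ DS P (j + 1) D1 τ1 F α (M, w) := by
    intro t ht
    rw [Finset.mem_image] at ht
    obtain ⟨x, hx, rfl⟩ := ht
    obtain ⟨hxU, hxS⟩ := key x hx
    have hv := mem_VX.1 (hU hxU)
    have h1 := DS_step P j c D τ η' F α x.1.2.1 M x.1.1 x.1.2.2 w hv.2.1 hv.1 hv.2.2.2 (hUn _ hxU)
      hD hc x.2 hxS
    exact DS_mono P (j + 1) _ _ _ _ F α (M, w) hD1 hτ1 h1
  -- the fibres
  have hfib : ∀ a ∈ Q.image f, (Q.filter fun x => f x = a).card ≤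
      (⌊m⌋₊ * (⌊2 * c⌋₊ + 1)) * (j + 1) := by
    intro a ha
    have haD := mem_DS.1 (himg ha)
    have ha0 : 0 < a.1 := lt_of_lt_of_le (pow_pos hP0 (j + 1)) haD.1
    set G : Finset (ℕ × ℕ × ℝ) := (Q.filter fun x => f x = a).image fun x => x.1 with hG
    have hcard : (Q.filter fun x => f x = a).card = G.card := by
      rw [hG, Finset.card_image_of_injOn]
      intro x hx y hy hxy
      rw [Finset.mem_coe, Finset.mem_filter] at hx hy
      have hxy' : x.1 = y.1 := hxy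
      have hp : 0 < x.1.1 := hP0.trans (mem_VX.1 (hU (key x hx.1).1)).1.1
      have e1 : x.1.1 * x.2.1 = a.1 := congrArg Prod.fst hx.2
      have e2 : y.1.1 * y.2.1 = a.1 := congrArg Prod.fst hy.2
      have e3 : (f x).2 = a.2 := by rw [hx.2]
      have e4 : (f y).2 = a.2 := by rw [hy.2]
      have e5 : x.2.1 = y.2.1 := by
        rw [← hxy', ← e1] at e2
        exact (Nat.eq_of_mul_eq_mul_left hp e2).symm
      have e6 : x.2 = y.2 := Prod.ext e5 (e3.trans e4.symm)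
      exact Sigma.ext hxy' (heq_of_eq e6)
    have hGmem : ∀ t ∈ G, t ∈ U ∧ t.1 ∣ a.1 := by
      intro t ht
      rw [hG, Finset.mem_image] at ht
      obtain ⟨x, hx, rfl⟩ := ht
      rw [Finset.mem_filter] at hx
      exact ⟨(key x hx.1).1, ⟨x.2.1, (congrArg Prod.fst hx.2).symm⟩⟩
    have h1 : G.card ≤ (⌊m⌋₊ * (⌊2 * c⌋₊ + 1)) * (G.image Prod.fst).card := by
      refine Finset.card_le_mul_card_image G _ fun p hp => ?_
      have hp' := hp
      rw [Finset.mem_image] at hp'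
      obtain ⟨t0, ht0, ht0p⟩ := hp'
      have hPp : P < p := by
        rw [← ht0p]
        exact (mem_VX.1 (hU (hGmem t0 ht0).1)).1.1
      have hinj : (G.filter fun x => Prod.fst x = p).card =
          ((G.filter fun x => Prod.fst x = p).image Prod.snd).card := by
        rw [Finset.card_image_of_injOn]
        intro x hx y hy hxy
        rw [Finset.mem_coe, Finset.mem_filter] at hx hy
        exact Prod.ext (hx.2.trans hy.2.symm) hxy
      rw [hinj]
      obtain ⟨W, hW⟩ : ∃ W, W = (G.filter fun x => Prod.fst x = p).image Prod.snd := ⟨_, rfl⟩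
      rw [← hW]
      have hWmem : ∀ v ∈ W, v ∈ V ∧ |(v.1 : ℝ) * p - (M : ℝ) * P| ≤ c * P := by
        intro v hv
        rw [hW, Finset.mem_image] at hv
        obtain ⟨t, ht, rfl⟩ := hv
        rw [Finset.mem_filter] at ht
        have := mem_VX.1 (hU (hGmem t ht.1).1)
        refine ⟨this.2.2.1, ?_⟩
        rw [← ht.2]
        exact this.2.2.2
      have h2 : W.card ≤ ⌊m⌋₊ * (W.image Prod.fst).card := by
        refine Finset.card_le_mul_card_image W _ fun K _ => ?_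
        have h3 : ((W.filter fun x => Prod.fst x = K).card : ℝ) ≤ m := by
          refine le_trans ?_ (hmult K)
          refine Nat.cast_le.2 (Finset.card_le_card fun v hv => ?_)
          rw [Finset.mem_filter] at hv ⊢
          exact ⟨(hWmem v hv.1).1, hv.2⟩
        exact Nat.le_floor h3
      have h3 : (W.image Prod.fst).card ≤ ⌊2 * c⌋₊ + 1 := by
        refine Weak_cardK (X := (M : ℝ) * P) hc hP0 hPp _ fun K hK => ?_
        rw [Finset.mem_image] at hK
        obtain ⟨v, hv, rfl⟩ := hK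
        exact (hWmem v hv).2
      exact h2.trans (Nat.mul_le_mul_left _ h3)
    have h2 : (G.image Prod.fst).card ≤ j + 1 := by
      refine Weak_cardP hP ha0 haD.2.1 _ fun p hp => ?_
      rw [Finset.mem_image] at hp
      obtain ⟨t, ht, rfl⟩ := hp
      obtain ⟨htU, htd⟩ := hGmem t ht
      have := mem_VX.1 (hU htU)
      exact ⟨this.2.1, this.1.1, htd⟩
    rw [hcard]
    exact h1.trans (Nat.mul_le_mul_left _ h2)
  have hcardQ : Q.card ≤ ((⌊m⌋₊ * (⌊2 * c⌋₊ + 1)) * (j + 1)) * (Q.image f).card :=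
    Finset.card_le_mul_card_image Q _ hfib
  have hQc : (U.card : ℝ) * (μ * (P : ℝ) ^ j) ≤ Q.card := by
    rw [hQ, Finset.card_sigma]
    push_cast
    calc (U.card : ℝ) * (μ * (P : ℝ) ^ j) = ∑ _t ∈ U, μ * (P : ℝ) ^ j := by
          rw [Finset.sum_const, nsmul_eq_mul]
      _ ≤ ∑ t ∈ U, ((DS P j D τ F α t.2).card : ℝ) :=
          Finset.sum_le_sum fun t ht => hV _ (mem_VX.1 (hU ht)).2.2.1
  have hC2 : ((⌊2 * c⌋₊ : ℕ) : ℝ) ≤ 2 * c := Nat.floor_le (by linarith)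
  have hm2 : ((⌊m⌋₊ : ℕ) : ℝ) ≤ m := Nat.floor_le (by linarith)
  have hj0 : (0 : ℝ) ≤ j := Nat.cast_nonneg j
  have hm0 : 0 < m := by linarith
  have hpos : (0 : ℝ) < m * ((j + 1) * (2 * c + 1)) := by positivity
  rw [div_le_iff₀ hpos]
  have h3 : (Q.card : ℝ) ≤ ((⌊m⌋₊ : ℝ) * ((⌊2 * c⌋₊ : ℝ) + 1)) * (j + 1) * (Q.image f).card := by
    exact_mod_cast hcardQ
  have h5 : ((⌊m⌋₊ : ℝ) * ((⌊2 * c⌋₊ : ℝ) + 1)) ≤ m * (2 * c + 1) :=
    mul_le_mul hm2 (by linarith) (by positivity) hm0.le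
  have h4 : ((⌊m⌋₊ : ℝ) * ((⌊2 * c⌋₊ : ℝ) + 1)) * (j + 1) * (Q.image f).card ≤
      (m * (2 * c + 1)) * (j + 1) * (DS P (j + 1) D1 τ1 F α (M, w)).card := by
    refine mul_le_mul (mul_le_mul_of_nonneg_right h5 (by linarith)) ?_ (Nat.cast_nonneg _)
      (by positivity)
    exact_mod_cast Finset.card_le_card himg
  calc (U.card : ℝ) * (μ * (P : ℝ) ^ j) ≤ Q.card := hQc
    _ ≤ _ := h3
    _ ≤ _ := h4
    _ = ((DS P (j + 1) D1 τ1 F α (M, w)).card : ℝ) * (m * ((j + 1) * (2 * c + 1))) := by ring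

end Pool.Agent.H74.MDX
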