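import Pool.Agent.H74.MDX.Rich
import Pool.Agent.H74.MDX.Root
import Pool.Agent.H74.MDX.Sets
import Pool.Agent.H74.MDX.Sep
import Pool.Agent.H74.MDX.Weak
import Pool.Agent.H74.MDX.DsInt

/-!
# MDX Nodes: the nodes over one scale `M`

Proof.  `E = EX c P η V M`, `VV = VX c P V M`, `pr = Prod.fst`.  Every prime `p` has at most `(2c+1) m ≤ b` vertices (`|K p - M P| ≤ c P`, `P < p`: at most `2c+1` values `K`
(`int_card`), then at most `m` values `k`), so `|VV| ≤ b P` (`Ioc P (2P)` has `P` elements).  `root_label` gives `s`; `rich` with `root = s` gives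
`N` = the edges with fewer than `κ P` edges with the same first vertex and the same label, `|N| ≤ 2 κ b P^2`.
For `e ∈ E` put `ω e = (e.1.2.2 + s e)/e.1.1`: `e.1.1 ω e - e.1.2.2 = s e` is an integer (so `nz = 0`) and `nz (e.2.1 ω e - e.2.2.2) ≤ 2η/e.1.1 ≤ 2 η/P`.
`Γ` = the net (`net`) of the finite set of the `ω e`, `e ∈ E \ N`, with separation `s0`.  For `e ∈ E \ N` there is `γ ∈ Γ` with `nz (ω e - γ) ≤ s0`, so
`nz (e.1.1 γ - e.1.2.2) ≤ e.1.1 s0 ≤ 2 P s0 ≤ y` (`nz_nat_mul`, `nz_neg`) and `nz (e.2.1 γ - e.2.2.2) ≤ 2 P s0 + 2η/P ≤ y`.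
Each `γ ∈ Γ` is `ω e` for some `e ∈ E \ N`: the set `U` of the second vertices of the (at least `κ P`) edges `f ∈ E` with `f.1 = e.1`, `s f = s e` satisfies
`nz (u.1 γ - u.2.2) ≤ 2η/P`; `weak` (with `η' = 2η/P`) gives `|DS P (j+1) D1 τ1 F α (M, γ)| ≥ κ P μ P^j/(m (j+1)(2c+1)) =: m0`.
`sets_sum` with `A γ = DS P (j+1) D1 τ1 F α (M, γ)`, `U` = their union, `Tot = (2 D1+1)(2P)^(j+1)` (`ds_tot`), `near γ γ' := nz (γ - γ') ≤ 2 τ1/P^(j+1)`,
`Kn` (`near_card`, `4 τ1/(P^(j+1) s0) + 1 ≤ Kn`), `ι = 5 (2 D1+1)(2P)^(j+1)/P` (`ds_int`), `hbig`.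
-/

set_option autoImplicit false

namespace Pool.Agent.H74.MDX

open Finset
open Pool.Agent.H53.MID (nz Rel Desc)

private theorem Nodes_fib (P M : ℕ) (c m b : ℝ) (V : Finset (ℕ × ℝ)) (hP : 1 ≤ P) (hc : 1 ≤ c) (hm : 1 ≤ m)
    (hmult : ∀ K : ℕ, ((V.filter (fun v => v.1 = K)).card : ℝ) ≤ m)
    (hb : (2 * c + 1) * m ≤ b) (p : ℕ) : (((VX c P V M).filter (fun v => v.1 = p)).card : ℝ) ≤ b := by
  classical
  have hP0 : (0 : ℝ) < P := by exact_mod_cast hP
  have hb0 : 0 ≤ b := by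
    refine le_trans ?_ hb
    positivity
  by_cases hp : P < p
  · have hp0 : (0 : ℝ) < p := hP0.trans (by exact_mod_cast hp)
    have hPp : (P : ℝ) ≤ p := by exact_mod_cast hp.le
    set S := (VX c P V M).filter (fun v => v.1 = p) with hS
    have h1 : (S.card : ℝ) = ∑ K ∈ S.image (fun v => v.2.1), ((S.filter (fun v => v.2.1 = K)).card : ℝ) := by
      exact_mod_cast Finset.card_eq_sum_card_image (fun v : ℕ × ℕ × ℝ => v.2.1) S
    have h2 : ∀ K ∈ S.image (fun v => v.2.1), ((S.filter (fun v => v.2.1 = K)).card : ℝ) ≤ m := by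
      intro K _
      refine le_trans ?_ (hmult K)
      have h3 : (S.filter (fun v => v.2.1 = K)).card = ((S.filter (fun v => v.2.1 = K)).image Prod.snd).card := by
        rw [Finset.card_image_of_injOn]
        intro x hx y hy hxy
        rw [Finset.mem_coe, Finset.mem_filter, hS, Finset.mem_filter] at hx hy
        exact Prod.ext (hx.1.2.trans hy.1.2.symm) hxy
      rw [h3]
      have h4 : (S.filter (fun v => v.2.1 = K)).image Prod.snd ⊆ V.filter (fun v => v.1 = K) := by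
        intro x hx
        rw [Finset.mem_image] at hx
        obtain ⟨v, hv, rfl⟩ := hx
        rw [Finset.mem_filter, hS, Finset.mem_filter] at hv
        rw [Finset.mem_filter]
        exact ⟨(mem_VX.1 hv.1.1).2.2.1, hv.2⟩
      exact_mod_cast Finset.card_le_card h4
    have h5 : ((S.image (fun v => v.2.1)).card : ℝ) ≤ 2 * c + 1 := by
      refine int_card _ (M * P / p) c (by linarith) ?_
      intro K hK
      rw [Finset.mem_image] at hK
      obtain ⟨v, hv, rfl⟩ := hK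
      rw [hS, Finset.mem_filter] at hv
      have h6 := (mem_VX.1 hv.1).2.2.2
      rw [hv.2] at h6
      have e : ((v.2.1 : ℕ) : ℝ) - M * P / p = ((v.2.1 : ℝ) * p - M * P) / p := by
        field_simp
      rw [e, abs_div, abs_of_pos hp0, div_le_iff₀ hp0]
      exact h6.trans (mul_le_mul_of_nonneg_left hPp (by linarith))
    rw [h1]
    refine (Finset.sum_le_sum h2).trans ?_
    rw [Finset.sum_const, nsmul_eq_mul]
    exact (mul_le_mul_of_nonneg_right h5 (by linarith)).trans hb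
  · have h1 : (VX c P V M).filter (fun v => v.1 = p) = ∅ := by
      rw [Finset.filter_eq_empty_iff]
      intro v hv h2
      have := (mem_VX.1 hv).1.1
      omega
    rw [h1]
    simpa using hb0

private theorem Nodes_VX (P M : ℕ) (c b : ℝ) (V : Finset (ℕ × ℝ))
    (h : ∀ p : ℕ, (((VX c P V M).filter (fun v => v.1 = p)).card : ℝ) ≤ b) : ((VX c P V M).card : ℝ) ≤ b * P := by
  classical
  have h1 : ((VX c P V M).card : ℝ) = ∑ p ∈ Ioc P (2 * P), (((VX c P V M).filter (fun v => v.1 = p)).card : ℝ) := by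
    exact_mod_cast Finset.card_eq_sum_card_fiberwise (f := fun v : ℕ × ℕ × ℝ => v.1) (s := VX c P V M) (t := Ioc P (2 * P))
      (fun v hv => by
        have := (mem_VX.1 (Finset.mem_coe.1 hv)).1
        exact Finset.mem_coe.2 (Finset.mem_Ioc.2 this))
  rw [h1]
  refine (Finset.sum_le_sum (fun p _ => h p)).trans ?_
  rw [Finset.sum_const, nsmul_eq_mul, Nat.card_Ioc]
  have : ((2 * P - P : ℕ) : ℝ) = P := by
    have : 2 * P - P = P := by omega
    rw [this]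
  rw [this, mul_comm]

open Classical in
theorem nodes (P j M : ℕ) (c D D1 τ τ1 η s0 y μ κ m b Kn : ℝ) (F : Finset ℕ) (α : ℕ → ℝ) (V : Finset (ℕ × ℝ))
    (hP : 2 ^ (j + 1) < P) (hc : 1 ≤ c) (hD : 0 ≤ D) (hτ : 0 ≤ τ) (hη : 0 < η) (hηP : 100 * η * (P : ℝ) ^ 2 ≤ 1)
    (hs0 : 0 < s0) (hμ : 0 < μ) (hκ : 0 < κ) (hm : 1 ≤ m)
    (hV : ∀ v ∈ V, μ * (P : ℝ) ^ j ≤ ((DS P j D τ F α v).card : ℝ))
    (hmult : ∀ K : ℕ, ((V.filter (fun v => v.1 = K)).card : ℝ) ≤ m)
    (hb : (2 * c + 1) * m ≤ b) (hb2 : b ^ 2 < 2 * κ ^ 2 * P)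
    (hD1 : 2 * D + c ≤ D1) (hτ1 : (2 * (P : ℝ)) ^ j * (2 * η / P) + τ ≤ τ1) (hτP : 40 * τ1 * P ≤ 1)
    (hy : 2 * η / P + 2 * P * s0 ≤ y) (hKn : 4 * τ1 / ((P : ℝ) ^ (j + 1) * s0) + 1 ≤ Kn)
    (hbig : 2 * ((2 * D1 + 1) * (2 * P) ^ (j + 1)) * (5 * (2 * D1 + 1) * (2 * P) ^ (j + 1) / P) ≤
      (κ * P * (μ * (P : ℝ) ^ j) / (m * ((j + 1) * (2 * c + 1)))) ^ 2) :
    ∃ (Γ : Finset ℝ) (N : Finset ((ℕ × ℕ × ℝ) × (ℕ × ℕ × ℝ))), (N.card : ℝ) ≤ 2 * κ * b * (P : ℝ) ^ 2 ∧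
      ∑ γ ∈ Γ, ((DS P (j + 1) D1 τ1 F α (M, γ)).card : ℝ) ≤ 2 * Kn * ((2 * D1 + 1) * (2 * P) ^ (j + 1)) ∧
      ∀ e ∈ EX c P η V M, e ∉ N → ∃ γ ∈ Γ, nz ((e.1.1 : ℝ) * γ - e.1.2.2) ≤ y ∧ nz ((e.2.1 : ℝ) * γ - e.2.2.2) ≤ y := by
  have hP1 : 1 ≤ P := by
    have := Nat.one_le_two_pow (n := j + 1)
    omega
  have hP0 : (0 : ℝ) < P := by exact_mod_cast hP1
  have hc0 : 0 < c := by linarith
  have hD10 : 0 ≤ D1 := by linarith
  have hτ10 : 0 ≤ τ1 := by
    refine le_trans ?_ hτ1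
    positivity
  have hb0 : 0 < b := by
    refine lt_of_lt_of_le ?_ hb
    have : 0 < m := by linarith
    positivity
  have hm0 : 0 < m := by linarith
  obtain ⟨s, hs1, hs2⟩ := root_label c P η V M hP1 hη.le hηP
  set E := EX c P η V M with hE
  set VV := VX c P V M with hVV
  have hfib := Nodes_fib P M c m b V hP1 hc hm hmult hb
  have hVcard := Nodes_VX P M c b V hfib
  have hEs : E ⊆ VV ×ˢ VV := by
    intro e he
    rw [hE, mem_EX] at he
    exact Finset.mem_product.2 ⟨he.1, he.2.1⟩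
  have hN0 := rich VV (fun v => v.1) E s b κ P hb0 hκ hP0 (fun p => by simpa using hfib p) hVcard hEs hs2 hb2
  set N := E.filter (fun e => ((E.filter (fun f => f.1 = e.1 ∧ s f = s e)).card : ℝ) < κ * P) with hNdef
  have hN : (N.card : ℝ) ≤ 2 * κ * b * (P : ℝ) ^ 2 := by
    rw [hNdef]
    exact (le_of_eq (by congr; funext e; congr)).trans hN0
  set ω : (ℕ × ℕ × ℝ) × (ℕ × ℕ × ℝ) → ℝ := fun e => (e.1.2.2 + s e) / e.1.1 with hω
  obtain ⟨Γ, hΓW, hΓnet, hΓsep⟩ := net ((E \ N).image ω) s0 hs0.le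
  have hpos : ∀ e ∈ E, (P : ℝ) < e.1.1 ∧ (e.1.1 : ℝ) ≤ 2 * P ∧ (e.2.1 : ℝ) ≤ 2 * P := by
    intro e he
    rw [hE, mem_EX, mem_VX, mem_VX] at he
    obtain ⟨h1, h2, -, -⟩ := he
    exact ⟨by exact_mod_cast h1.1.1, by exact_mod_cast h1.1.2, by exact_mod_cast h2.1.2⟩
  have hs1' : ∀ e ∈ E, nz ((e.2.1 : ℝ) * ω e - e.2.2.2) ≤ 2 * η / P := by
    intro e he
    refine (hs1 e he).trans ?_
    exact div_le_div_of_nonneg_left (by positivity) hP0 (hpos e he).1.le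
  refine ⟨Γ, N, hN, ?_, ?_⟩
  · -- the sets
    have hlow : ∀ γ ∈ Γ, κ * P * (μ * (P : ℝ) ^ j) / (m * ((j + 1) * (2 * c + 1))) ≤
        ((DS P (j + 1) D1 τ1 F α (M, γ)).card : ℝ) := by
      intro γ hγ
      have h1 := hΓW hγ
      rw [Finset.mem_image] at h1
      obtain ⟨e, he, rfl⟩ := h1
      rw [Finset.mem_sdiff] at he
      obtain ⟨heE, heN⟩ := he
      have h2 : κ * P ≤ ((E.filter (fun f => f.1 = e.1 ∧ s f = s e)).card : ℝ) := by
        by_contra h3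
        push Not at h3
        exact heN (by rw [hNdef, Finset.mem_filter]; exact ⟨heE, h3⟩)
      set U := (E.filter (fun f => f.1 = e.1 ∧ s f = s e)).image Prod.snd with hU
      have hUc : U.card = (E.filter (fun f => f.1 = e.1 ∧ s f = s e)).card := by
        rw [hU, Finset.card_image_of_injOn]
        intro x hx y hy hxy
        rw [Finset.mem_coe, Finset.mem_filter] at hx hy
        exact Prod.ext (hx.2.1.trans hy.2.1.symm) hxy
      have hUmem : ∀ u ∈ U, ∃ f ∈ E, f.1 = e.1 ∧ s f = s e ∧ f.2 = u := by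
        intro u hu
        rw [hU, Finset.mem_image] at hu
        obtain ⟨f, hf, hfu⟩ := hu
        rw [Finset.mem_filter] at hf
        exact ⟨f, hf.1, hf.2.1, hf.2.2, hfu⟩
      have hUV : U ⊆ VX c P V M := by
        intro u hu
        obtain ⟨f, hf, -, -, rfl⟩ := hUmem u hu
        rw [hE, mem_EX] at hf
        exact hf.2.1
      have hUn : ∀ u ∈ U, nz (u.1 * ω e - u.2.2) ≤ 2 * η / P := by
        intro u hu
        obtain ⟨f, hf, h3, h4, rfl⟩ := hUmem u hu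
        have h5 := hs1' f hf
        have h6 : ω f = ω e := by
          rw [hω]
          simp only [h3, h4]
        rw [h6] at h5
        exact h5
      have h3 := weak P j c D D1 τ τ1 (2 * η / P) μ m (ω e) F α M V U hP hc0.le hD hμ.le hm hUV hUn hV hmult hD1 hτ1
      refine le_trans ?_ h3
      refine div_le_div_of_nonneg_right ?_ (by positivity)
      refine mul_le_mul_of_nonneg_right ?_ (by positivity)
      rw [hUc]
      exact h2
    have hUt : ((Γ.biUnion (fun γ => DS P (j + 1) D1 τ1 F α (M, γ))).card : ℝ) ≤ (2 * D1 + 1) * (2 * P) ^ (j + 1) := by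
      refine ds_tot P (j + 1) M D1 _ hP1 hD10 ?_
      intro t ht
      rw [Finset.mem_biUnion] at ht
      obtain ⟨γ, -, ht⟩ := ht
      rw [mem_DS] at ht
      exact ⟨ht.1, ht.2.1, ht.2.2.2.2.1⟩
    have hm00 : 0 < κ * P * (μ * (P : ℝ) ^ j) / (m * ((j + 1) * (2 * c + 1))) := by positivity
    refine sets_sum Γ (Γ.biUnion (fun γ => DS P (j + 1) D1 τ1 F α (M, γ))) (fun γ => DS P (j + 1) D1 τ1 F α (M, γ))
      (fun γ γ' => nz (γ - γ') ≤ 2 * τ1 / (P : ℝ) ^ (j + 1)) ((2 * D1 + 1) * (2 * P) ^ (j + 1)) Kn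
      (5 * (2 * D1 + 1) * (2 * P) ^ (j + 1) / P) (κ * P * (μ * (P : ℝ) ^ j) / (m * ((j + 1) * (2 * c + 1))))
      (fun γ hγ => Finset.subset_biUnion_of_mem (fun γ => DS P (j + 1) D1 τ1 F α (M, γ)) hγ) hUt hm00 (by positivity)
      ?_ hlow ?_ ?_ hbig
    · refine le_trans ?_ hKn
      positivity
    · intro γ _
      refine (near_card Γ s0 (2 * τ1 / (P : ℝ) ^ (j + 1)) hs0 (by positivity) hΓsep γ).trans ?_
      refine le_trans (le_of_eq ?_) hKn
      field_simp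
      ring
    · intro γ _ γ' _ hfar
      by_contra h3
      push Not at h3
      exact hfar (ds_int P j M D1 τ1 F α γ γ' hP1 hD10 hτ10 hτP (lt_of_lt_of_eq h3 (by congr; exact Subsingleton.elim _ _)))
  · intro e he heN
    obtain ⟨γ, hγ, hnz⟩ := hΓnet (ω e) (Finset.mem_image_of_mem _ (Finset.mem_sdiff.2 ⟨he, heN⟩))
    obtain ⟨h1, h2, h3⟩ := hpos e he
    have he0 : (0 : ℝ) < e.1.1 := hP0.trans h1
    have hηP0 : 0 ≤ 2 * η / P := by positivity
    refine ⟨γ, hγ, ?_, ?_⟩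
    · have e1 : (e.1.1 : ℝ) * γ - e.1.2.2 = -((e.1.1 : ℝ) * (ω e - γ)) + (s e : ℝ) := by
        rw [hω]
        field_simp
        ring
      rw [e1, Pool.Agent.H53.MID.nz_add_int, Pool.Agent.H53.MID.nz_neg]
      refine (Pool.Agent.H53.MID.nz_nat_mul _ _).trans ?_
      have h4 : (e.1.1 : ℝ) * nz (ω e - γ) ≤ 2 * P * s0 :=
        mul_le_mul h2 hnz (Pool.Agent.H53.MID.nz_nonneg _) (by positivity)
      linarith
    · have e1 : (e.2.1 : ℝ) * γ - e.2.2.2 = ((e.2.1 : ℝ) * ω e - e.2.2.2) - (e.2.1 : ℝ) * (ω e - γ) := by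
        ring
      rw [e1]
      refine (Pool.Agent.H53.MID.nz_sub _ _).trans ?_
      have h4 : nz ((e.2.1 : ℝ) * (ω e - γ)) ≤ 2 * P * s0 := by
        refine (Pool.Agent.H53.MID.nz_nat_mul _ _).trans ?_
        exact mul_le_mul h3 hnz (Pool.Agent.H53.MID.nz_nonneg _) (by positivity)
      linarith [hs1' e he]

end Pool.Agent.H74.MDX
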