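import Pool.Agent.H74.MDX.Nodes
import Pool.Agent.H74.MDX.Lvl

/-!
# MDX NodesP: the nodes over one scale, explicit constants

Apply `nodes` with `X = 2^(j^2+5j)`, `c = 2 (C 3^j) + 1`, `D = C 5^j`, `D1 = C 5^(j+1)`, `τ = X η`, `τ1 = 2^((j+1)^2+5(j+1)) η = 2^(2j+6) X η`,
`η := X η P/P^j`, `s0 = 2^(j+3) X η/P^(j+1)`, `y = 2^(j+5) X η/P^j`, `μ = ε/B^5`, `κ = ε^2/(2 B^11)`, `m = B^7/ε`, `b = B^8/ε`, `Kn = 2^(j+6)`.
Checks (`j < ℓ`, `B ≥ 1`, `ε ≤ 1`): `2^(j+1) < P` (`B ≥ 2^(2ℓ+8)`, `P ≥ 40 B^54/ε^8`); `100 X η P/P^j P^2 ≤ 100 X η P^3 ≤ 1` (`X ≤ 2^(ℓ^2+5ℓ)`);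
`(2c+1) m = (4 C 3^j + 3) m ≤ B m` (`4 C 3^j + 3 ≤ 2 C 5^ℓ + 1`); `b^2 < 2 κ^2 P`: `2 B^38/ε^6 < P`; `2D + c = 2 C 5^j + 2 C 3^j + 1 ≤ 5 C 5^j`;
`(2P)^j 2 (X η P/P^j)/P + X η = (2^(j+1) + 1) X η ≤ 2^(2j+6) X η`; `40 τ1 P ≤ 1`; `2η/P + 2 P s0 = (2 + 2^(j+4)) X η/P^j ≤ y`;
`4 τ1/(P^(j+1) s0) = 2^(j+5)`; `hbig`: left side `= 10 (2 D1+1)^2 2^(2j+2) P^(2j+2)/P ≤ 10 B^3 P^(2j+2)/P` (`2 D1 + 1 ≤ B`, `2^(2j+2) ≤ B`), right side
`≥ (ε^4/(2 B^25))^2 P^(2j+2)` (`κ μ/m = ε^4/(2 B^23)`, `(j+1)(2c+1) ≤ B^2`), and `40 B^53/ε^8 ≤ P`.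
-/

set_option autoImplicit false

namespace Pool.Agent.H74.MDX

open Finset
open Pool.Agent.H53.MID (nz Rel Desc)

/-- the last inequality -/
private theorem NodesP_big (B ε P L t Y : ℝ) (hB : 1 ≤ B) (hε : 0 < ε) (hP0 : 0 < P)
    (hP : 40 * B ^ 54 ≤ ε ^ 8 * P) (Z : ℝ) (hZ : 0 < Z) (hL0 : 0 ≤ L) (hL : L ≤ B) (ht0 : 0 ≤ t) (ht : t ^ 2 ≤ B)
    (hY0 : 0 < Y) (hY : Y ≤ B ^ 2) :
    2 * (L * (t * (P * Z))) * (5 * L * (t * (P * Z)) / P) ≤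
      (ε ^ 2 / (2 * B ^ 11) * P * (ε / B ^ 5 * Z) / (B ^ 7 / ε * Y)) ^ 2 := by
  have hB0 : 0 < B := by linarith
  have e1 : 2 * (L * (t * (P * Z))) * (5 * L * (t * (P * Z)) / P) = 10 * L ^ 2 * t ^ 2 * P * Z ^ 2 := by
    field_simp
    ring
  rw [e1]
  have h1 : 10 * L ^ 2 * t ^ 2 * P * Z ^ 2 ≤ 10 * B ^ 3 * P * Z ^ 2 := by
    have h2 : L ^ 2 * t ^ 2 ≤ B ^ 2 * B :=
      mul_le_mul (pow_le_pow_left₀ hL0 hL 2) ht (by positivity) (by positivity)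
    have h3 : 0 ≤ P * Z ^ 2 := by positivity
    nlinarith [mul_le_mul_of_nonneg_right h2 h3]
  refine h1.trans ?_
  have h4 : ε ^ 4 * P * Z / (2 * B ^ 25) ≤ ε ^ 2 / (2 * B ^ 11) * P * (ε / B ^ 5 * Z) / (B ^ 7 / ε * Y) := by
    have e2 : ε ^ 2 / (2 * B ^ 11) * P * (ε / B ^ 5 * Z) / (B ^ 7 / ε * Y) = ε ^ 4 * P * Z / (2 * B ^ 23 * Y) := by
      field_simp
    rw [e2]
    refine div_le_div_of_nonneg_left (by positivity) (by positivity) ?_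
    have h5 : 2 * B ^ 23 * Y ≤ 2 * B ^ 23 * B ^ 2 := mul_le_mul_of_nonneg_left hY (by positivity)
    calc 2 * B ^ 23 * Y ≤ 2 * B ^ 23 * B ^ 2 := h5
      _ = 2 * B ^ 25 := by ring
  have h6 : 10 * B ^ 3 * P * Z ^ 2 ≤ (ε ^ 4 * P * Z / (2 * B ^ 25)) ^ 2 := by
    rw [div_pow, le_div_iff₀ (by positivity)]
    have h7 : 40 * B ^ 53 ≤ ε ^ 8 * P := by
      refine le_trans ?_ hP
      have : B ^ 53 ≤ B ^ 54 := pow_le_pow_right₀ hB (by norm_num)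
      linarith
    have h8 : 0 ≤ P * Z ^ 2 := by positivity
    calc 10 * B ^ 3 * P * Z ^ 2 * (2 * B ^ 25) ^ 2 = (40 * B ^ 53) * (P * Z ^ 2) := by ring
      _ ≤ (ε ^ 8 * P) * (P * Z ^ 2) := mul_le_mul_of_nonneg_right h7 h8
      _ = (ε ^ 4 * P * Z) ^ 2 := by ring
  exact h6.trans (pow_le_pow_left₀ (by positivity) h4 2)

open Classical in
theorem nodesP (C B ε η : ℝ) (ℓ P j M : ℕ) (F : Finset ℕ) (α : ℕ → ℝ) (V : Finset (ℕ × ℝ)) (hPar : Par C ℓ P B ε η)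
    (hj : j < ℓ)
    (hV : ∀ v ∈ V, ε / B ^ 5 * (P : ℝ) ^ j ≤ ((DS P j (C * 5 ^ j) (2 ^ (j ^ 2 + 5 * j) * η) F α v).card : ℝ))
    (hmult : ∀ K : ℕ, ((V.filter (fun v => v.1 = K)).card : ℝ) ≤ B ^ 7 / ε) :
    ∃ (Γ : Finset ℝ) (N : Finset ((ℕ × ℕ × ℝ) × (ℕ × ℕ × ℝ))), (N.card : ℝ) ≤ ε / B ^ 3 * (P : ℝ) ^ 2 ∧
      ∑ γ ∈ Γ, ((DS P (j + 1) (C * 5 ^ (j + 1)) (2 ^ ((j + 1) ^ 2 + 5 * (j + 1)) * η) F α (M, γ)).card : ℝ) ≤
        2 ^ (2 * j + 8) * (2 * (C * 5 ^ (j + 1)) + 1) * (P : ℝ) ^ (j + 1) ∧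
      ∀ e ∈ EX (2 * (C * 3 ^ j) + 1) P (2 ^ (j ^ 2 + 5 * j) * η * P / (P : ℝ) ^ j) V M, e ∉ N →
        ∃ γ ∈ Γ, nz ((e.1.1 : ℝ) * γ - e.1.2.2) ≤ 2 ^ (j + 5) * (2 ^ (j ^ 2 + 5 * j) * η) / (P : ℝ) ^ j ∧
          nz ((e.2.1 : ℝ) * γ - e.2.2.2) ≤ 2 ^ (j + 5) * (2 ^ (j ^ 2 + 5 * j) * η) / (P : ℝ) ^ j := by
  obtain ⟨hC, hB1, hB2, hB3, hB4, hB5, hε, hε1, hη, hPB, hηP⟩ := hPar
  have hB : 1 ≤ B := le_trans (one_le_pow₀ (by norm_num)) hB5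
  have hB0 : 0 < B := by linarith
  have hC0 : 0 < C := by linarith
  have hPR : B ^ 54 < P := by
    have h1 : ε ^ 8 * (P : ℝ) ≤ P := by
      have h2 : ε ^ 8 ≤ 1 := pow_le_one₀ hε.le hε1
      nlinarith [Nat.cast_nonneg (α := ℝ) P]
    have h3 : 0 < B ^ 54 := by positivity
    linarith
  have hBP : B < P := lt_of_le_of_lt (le_self_pow₀ hB (by norm_num)) hPR
  have hP1 : (1 : ℝ) ≤ P := by linarith
  have hP0 : (0 : ℝ) < P := by linarith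
  have hPj : (0 : ℝ) < (P : ℝ) ^ j := by positivity
  have hPj1 : (1 : ℝ) ≤ (P : ℝ) ^ j := one_le_pow₀ hP1
  have hjl : j + 1 ≤ ℓ := hj
  -- powers of 2
  obtain ⟨X, hX⟩ : ∃ X : ℝ, X = 2 ^ (j ^ 2 + 5 * j) := ⟨_, rfl⟩
  have hX0 : 0 < X := by
    rw [hX]
    positivity
  have hX1 : (2 : ℝ) ^ ((j + 1) ^ 2 + 5 * (j + 1)) = 2 ^ (2 * j + 6) * X := by
    rw [hX, ← pow_add]
    congr 1
    ring
  have hXl : 2 ^ (2 * j + 6) * X ≤ 2 ^ (ℓ ^ 2 + 5 * ℓ) := by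
    rw [← hX1]
    refine pow_le_pow_right₀ (by norm_num) ?_
    have h1 : (j + 1) ^ 2 ≤ ℓ ^ 2 := Nat.pow_le_pow_left hjl 2
    omega
  have hXP : 1024 * (2 ^ (2 * j + 6) * X) * η * (P : ℝ) ^ 3 ≤ 1 := by
    refine le_trans ?_ hηP
    have h1 : (1024 : ℝ) * (2 ^ (2 * j + 6) * X) ≤ 2 ^ (ℓ ^ 2 + 5 * ℓ + 10) := by
      rw [pow_add _ (ℓ ^ 2 + 5 * ℓ) 10]
      nlinarith
    have h2 : 0 ≤ η * (P : ℝ) ^ 3 := by positivity
    nlinarith [mul_le_mul_of_nonneg_right h1 h2]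
  have hjpow : (1 : ℝ) ≤ 2 ^ (2 * j + 6) := one_le_pow₀ (by norm_num)
  have hj5 : (1 : ℝ) ≤ 5 ^ j := one_le_pow₀ (by norm_num)
  have hj3 : (3 : ℝ) ^ j ≤ 5 ^ j := pow_le_pow_left₀ (by norm_num) (by norm_num) j
  have hj30 : (0 : ℝ) < 3 ^ j := by positivity
  have hC5 : 1 ≤ C * 5 ^ j := by nlinarith
  have hC3 : C * 3 ^ j ≤ C * 5 ^ j := mul_le_mul_of_nonneg_left hj3 hC0.le
  have hC30 : 0 < C * 3 ^ j := by positivity
  have h5l : C * 5 ^ (j + 1) ≤ C * 5 ^ ℓ :=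
    mul_le_mul_of_nonneg_left (pow_le_pow_right₀ (by norm_num) hjl) hC0.le
  have h5s : C * 5 ^ (j + 1) = 5 * (C * 5 ^ j) := by
    rw [pow_succ]
    ring
  have hL : 2 * (C * 5 ^ (j + 1)) + 1 ≤ B := by
    refine le_trans ?_ hB1
    nlinarith
  have h2c : 2 * (2 * (C * 3 ^ j) + 1) + 1 ≤ B := by
    refine le_trans ?_ hL
    rw [h5s]
    nlinarith
  have hjB : ((j : ℝ) + 1) ≤ B := by
    refine le_trans ?_ hB5
    have h1 : ((j + 1 : ℕ) : ℝ) ≤ ((2 ^ (2 * ℓ + 8) : ℕ) : ℝ) := by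
      have h2 : j + 1 ≤ 2 ^ (2 * ℓ + 8) := by
        have h3 : j + 1 < 2 ^ (j + 1) := Nat.lt_two_pow_self
        have h4 : 2 ^ (j + 1) ≤ 2 ^ (2 * ℓ + 8) := Nat.pow_le_pow_right (by norm_num) (by omega)
        omega
      exact_mod_cast h2
    push_cast at h1
    exact h1
  have hτ1 : (2 * (P : ℝ)) ^ j = 2 ^ j * (P : ℝ) ^ j := mul_pow _ _ _
  have hmain := nodes P j M (2 * (C * 3 ^ j) + 1) (C * 5 ^ j) (C * 5 ^ (j + 1)) (X * η) (2 ^ (2 * j + 6) * X * η)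
    (X * η * P / (P : ℝ) ^ j) (2 ^ (j + 3) * X * η / (P : ℝ) ^ (j + 1)) (2 ^ (j + 5) * (X * η) / (P : ℝ) ^ j)
    (ε / B ^ 5) (ε ^ 2 / (2 * B ^ 11)) (B ^ 7 / ε) (B ^ 8 / ε) (2 ^ (j + 6)) F α V
    (by
      have h1 : ((2 ^ (j + 1) : ℕ) : ℝ) < P := by
        push_cast
        refine lt_of_le_of_lt ?_ hBP
        refine le_trans ?_ hB5
        exact pow_le_pow_right₀ (by norm_num) (by omega)
      exact_mod_cast h1)
    (by linarith) (by linarith) (by positivity) (by positivity)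
    (by
      have h1 : 100 * (X * η * P / (P : ℝ) ^ j) * (P : ℝ) ^ 2 ≤ 100 * (X * η * P) * (P : ℝ) ^ 2 := by
        have h2 : X * η * P / (P : ℝ) ^ j ≤ X * η * P := div_le_self (by positivity) hPj1
        have h3 : 0 ≤ (P : ℝ) ^ 2 := by positivity
        nlinarith [mul_le_mul_of_nonneg_right h2 h3]
      refine h1.trans (le_trans ?_ hXP)
      have h4 : 0 ≤ X * η * (P : ℝ) ^ 3 := by positivity
      nlinarith [mul_le_mul_of_nonneg_right hjpow h4])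
    (by positivity) (by positivity) (by positivity)
    (by
      rw [le_div_iff₀ hε, one_mul]
      exact hε1.trans (one_le_pow₀ hB))
    (by
      rw [hX]
      exact hV) hmult
    (by
      have h1 : (2 * (2 * (C * 3 ^ j) + 1) + 1) * (B ^ 7 / ε) ≤ B * (B ^ 7 / ε) :=
        mul_le_mul_of_nonneg_right h2c (by positivity)
      refine h1.trans (le_of_eq ?_)
      field_simp)
    (by
      have h1 : (B ^ 8 / ε) ^ 2 = (B ^ 16 * (2 * B ^ 22)) / (ε ^ 2 * (2 * B ^ 22)) := by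
        field_simp
      have h2 : 2 * (ε ^ 2 / (2 * B ^ 11)) ^ 2 * (P : ℝ) = (ε ^ 6 * P) / (ε ^ 2 * (2 * B ^ 22)) := by
        field_simp
      rw [h1, h2]
      refine div_lt_div_of_pos_right ?_ (by positivity)
      have h3 : ε ^ 8 * (P : ℝ) ≤ ε ^ 6 * P :=
        mul_le_mul_of_nonneg_right (pow_le_pow_of_le_one hε.le hε1 (by norm_num)) hP0.le
      have h4 : B ^ 38 ≤ B ^ 54 := pow_le_pow_right₀ hB (by norm_num)
      have h5 : B ^ 16 * (2 * B ^ 22) = 2 * B ^ 38 := by ring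
      rw [h5]
      have h6 : 0 < B ^ 38 := by positivity
      linarith)
    (by
      rw [h5s]
      linarith)
    (by
      have e1 : (2 * (P : ℝ)) ^ j * (2 * (X * η * P / (P : ℝ) ^ j) / P) + X * η = (2 ^ (j + 1) + 1) * (X * η) := by
        rw [hτ1, pow_succ]
        field_simp
      rw [e1, mul_assoc (2 ^ (2 * j + 6)) X η]
      refine mul_le_mul_of_nonneg_right ?_ (by positivity)
      have h1 : (2 : ℝ) ^ (2 * j + 6) = 2 ^ (j + 5) * 2 ^ (j + 1) := by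
        rw [← pow_add]
        congr 1
        omega
      rw [h1]
      have h2 : (2 : ℝ) ≤ 2 ^ (j + 5) := by
        calc (2 : ℝ) = 2 ^ 1 := by norm_num
          _ ≤ 2 ^ (j + 5) := pow_le_pow_right₀ (by norm_num) (by omega)
      have h3 : (1 : ℝ) ≤ 2 ^ (j + 1) := one_le_pow₀ (by norm_num)
      nlinarith)
    (by
      have h1 : (P : ℝ) ≤ (P : ℝ) ^ 3 := le_self_pow₀ hP1 (by norm_num)
      have h2 : 0 ≤ 2 ^ (2 * j + 6) * X * η := by positivity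
      have h3 : 40 * (2 ^ (2 * j + 6) * X * η) * P ≤ 40 * (2 ^ (2 * j + 6) * X * η) * (P : ℝ) ^ 3 :=
        mul_le_mul_of_nonneg_left h1 (by positivity)
      refine h3.trans (le_trans ?_ hXP)
      have h4 : 0 ≤ (2 ^ (2 * j + 6) * X * η) * (P : ℝ) ^ 3 := by positivity
      nlinarith)
    (by
      have e1 : 2 * (X * η * P / (P : ℝ) ^ j) / P + 2 * P * (2 ^ (j + 3) * X * η / (P : ℝ) ^ (j + 1)) =
          (2 + 2 ^ (j + 4)) * (X * η) / (P : ℝ) ^ j := by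
        rw [pow_succ (P : ℝ) j, pow_succ (2 : ℝ) (j + 3)]
        field_simp
      rw [e1]
      refine div_le_div_of_nonneg_right ?_ hPj.le
      refine mul_le_mul_of_nonneg_right ?_ (by positivity)
      rw [pow_succ (2 : ℝ) (j + 4)]
      have h2 : (2 : ℝ) ≤ 2 ^ (j + 4) := by
        calc (2 : ℝ) = 2 ^ 1 := by norm_num
          _ ≤ 2 ^ (j + 4) := pow_le_pow_right₀ (by norm_num) (by omega)
      linarith)
    (by
      have e1 : 4 * (2 ^ (2 * j + 6) * X * η) / ((P : ℝ) ^ (j + 1) * (2 ^ (j + 3) * X * η / (P : ℝ) ^ (j + 1))) =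
          2 ^ (j + 5) := by
        have h1 : (P : ℝ) ^ (j + 1) * (2 ^ (j + 3) * X * η / (P : ℝ) ^ (j + 1)) = 2 ^ (j + 3) * X * η := by
          field_simp
        rw [h1, div_eq_iff (by positivity)]
        have h2 : (4 : ℝ) * 2 ^ (2 * j + 6) = 2 ^ (j + 5) * 2 ^ (j + 3) := by
          rw [← pow_add]
          have : j + 5 + (j + 3) = 2 * j + 6 + 2 := by omega
          rw [this, pow_add]
          norm_num
          ring
        calc 4 * (2 ^ (2 * j + 6) * X * η) = (4 * 2 ^ (2 * j + 6)) * (X * η) := by ring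
          _ = (2 ^ (j + 5) * 2 ^ (j + 3)) * (X * η) := by rw [h2]
          _ = 2 ^ (j + 5) * (2 ^ (j + 3) * X * η) := by ring
      rw [e1, pow_succ (2 : ℝ) (j + 5)]
      have h3 : (1 : ℝ) ≤ 2 ^ (j + 5) := one_le_pow₀ (by norm_num)
      linarith)
    (by
      have h1 := NodesP_big B ε P (2 * (C * 5 ^ (j + 1)) + 1) (2 ^ (j + 1))
        (((j : ℝ) + 1) * (2 * (2 * (C * 3 ^ j) + 1) + 1)) hB hε hP0 hPB ((P : ℝ) ^ j) hPj
        (by positivity) hL (by positivity)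
        (by
          refine le_trans ?_ hB5
          rw [← pow_mul]
          exact pow_le_pow_right₀ (by norm_num) (by omega))
        (by positivity)
        (by
          rw [pow_two]
          exact mul_le_mul hjB h2c (by positivity) hB0.le)
      have e1 : (2 * (P : ℝ)) ^ (j + 1) = 2 ^ (j + 1) * (P * (P : ℝ) ^ j) := by
        rw [mul_pow, pow_succ (P : ℝ) j, mul_comm ((P : ℝ) ^ j) (P : ℝ)]
      rw [e1]
      exact h1)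
  obtain ⟨Γ, N, hN, hsum, hE⟩ := hmain
  refine ⟨Γ, N, ?_, ?_, ?_⟩
  · refine hN.trans (le_of_eq ?_)
    field_simp
  · rw [hX1]
    refine hsum.trans (le_of_eq ?_)
    rw [mul_pow]
    have h1 : (2 : ℝ) ^ (2 * j + 8) = 2 * 2 ^ (j + 6) * 2 ^ (j + 1) := by
      have : 2 * j + 8 = 1 + (j + 6) + (j + 1) := by omega
      rw [this, pow_add, pow_add, pow_one]
    rw [h1]
    ring
  · rw [← hX]
    exact hE

end Pool.Agent.H74.MDX
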