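import Pool.Agent.H74.MDX.Defs

/-!
# MDX Rich: few edges have a poor root (abstract)

`X` = the edges `e` such that fewer than `κ P` edges `f` have the same first vertex and the same root.
Proof.  Let `N(u) = {u1 : (u, u1) ∈ X}`.  Cauchy-Schwarz: `|X|^2 = (∑_{u ∈ VV} |N(u)|)^2 ≤ |VV| ∑_u |N(u)|^2`, and `∑_u |N(u)|^2` is the number of the
triples `(u, u1, u2)` with `(u,u1), (u,u2) ∈ X`.  The triples with `root (u,u1) = root (u,u2)`: for given `(u, u1) ∈ X` fewer than `κ P` (definition of `X`, `X ⊆ E`),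
total `≤ κ P |X|`.  The triples with `root (u,u1) ≠ root (u,u2)`: for given `(u1, u2) ∈ VV × VV` all such `u` have the same value `pr u` (hypothesis `h4`), so there are at most
`b` of them: total `≤ b |VV|^2`.  So `|X|^2 ≤ |VV| (b |VV|^2 + κ P |X|) ≤ b P (b (b P)^2 + κ P |X|) = b^4 P^3 + κ b P^2 |X|`.  If `|X| > 2 κ b P^2` then
`κ b P^2 |X| < |X|^2/2`, so `|X|^2/2 < b^4 P^3`, `2 κ^2 b^2 P^4 < b^4 P^3`, `2 κ^2 P < b^2`: contradiction with `hbig`.
-/

set_option autoImplicit false

namespace Pool.Agent.H74.MDX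

open Finset

open Classical in
theorem rich {V : Type*} (VV : Finset V) (pr : V → ℕ) (E : Finset (V × V)) (root : V × V → ℤ) (b κ P : ℝ)
    (hb : 0 < b) (hκ : 0 < κ) (hP : 0 < P) (hfib : ∀ p : ℕ, ((VV.filter (fun v => pr v = p)).card : ℝ) ≤ b)
    (hV : (VV.card : ℝ) ≤ b * P) (hE : E ⊆ VV ×ˢ VV)
    (h4 : ∀ u v u1 u2 : V, (u, u1) ∈ E → (u, u2) ∈ E → (v, u1) ∈ E → (v, u2) ∈ E → pr u ≠ pr v →
      root (u, u1) = root (u, u2))
    (hbig : b ^ 2 < 2 * κ ^ 2 * P) :
    ((E.filter (fun e => ((E.filter (fun f => f.1 = e.1 ∧ root f = root e)).card : ℝ) < κ * P)).card : ℝ) ≤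
      2 * κ * b * P ^ 2 := by
  set X : Finset (V × V) :=
    E.filter (fun e => ((E.filter (fun f => f.1 = e.1 ∧ root f = root e)).card : ℝ) < κ * P) with hX
  have hXE : X ⊆ E := filter_subset _ _
  -- the triples
  set T : Finset ((V × V) × (V × V)) := (X ×ˢ X).filter (fun t => t.2.1 = t.1.1) with hT
  have h1 : (X.card : ℝ) = ∑ u ∈ VV, ((X.filter (fun e => e.1 = u)).card : ℝ) := by
    rw [← Nat.cast_sum]
    congr 1
    exact card_eq_sum_card_fiberwise (fun e he => (mem_product.1 (hE (hXE he))).1)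
  have h2 : (X.card : ℝ) ^ 2 ≤ VV.card * ∑ u ∈ VV, ((X.filter (fun e => e.1 = u)).card : ℝ) ^ 2 := by
    rw [h1]
    exact sq_sum_le_card_mul_sum_sq
  have hT0 : T.card = ∑ e ∈ X, (X.filter (fun f => f.1 = e.1)).card := by
    rw [hT, Finset.card_filter, Finset.sum_product]
    refine Finset.sum_congr rfl (fun e _ => ?_)
    rw [Finset.card_filter]
  have h3 : ∑ u ∈ VV, ((X.filter (fun e => e.1 = u)).card : ℝ) ^ 2 = T.card := by
    rw [hT0, Nat.cast_sum, ← Finset.sum_fiberwise_of_maps_to (s := X) (t := VV) (g := fun e => e.1)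
      (fun e he => (mem_product.1 (hE (hXE he))).1)]
    refine Finset.sum_congr rfl (fun u _ => ?_)
    have h31 : ∀ e ∈ X.filter (fun e => e.1 = u), ((X.filter (fun f => f.1 = e.1)).card : ℝ) =
        ((X.filter (fun e => e.1 = u)).card : ℝ) := by
      intro e he
      rw [(mem_filter.1 he).2]
    rw [Finset.sum_congr rfl h31, Finset.sum_const, nsmul_eq_mul, sq]
  -- the two kinds of triples
  have h4' : T.card = (T.filter (fun t => root t.2 = root t.1)).card +
      (T.filter (fun t => ¬ root t.2 = root t.1)).card := (card_filter_add_card_filter_not _).symm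
  have h5 : ((T.filter (fun t => root t.2 = root t.1)).card : ℝ) ≤ κ * P * X.card := by
    have h51 : (T.filter (fun t => root t.2 = root t.1)).card =
        ∑ e ∈ X, (X.filter (fun f => f.1 = e.1 ∧ root f = root e)).card := by
      rw [hT, Finset.filter_filter, Finset.card_filter, Finset.sum_product]
      refine Finset.sum_congr rfl (fun e _ => ?_)
      rw [Finset.card_filter]
    rw [h51, Nat.cast_sum]
    have h52 : ∀ e ∈ X, ((X.filter (fun f => f.1 = e.1 ∧ root f = root e)).card : ℝ) ≤ κ * P := by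
      intro e he
      refine le_trans ?_ (mem_filter.1 he).2.le
      exact_mod_cast card_le_card (filter_subset_filter _ hXE)
    refine (Finset.sum_le_sum h52).trans ?_
    rw [Finset.sum_const, nsmul_eq_mul]
    exact le_of_eq (by ring)
  have h6 : ((T.filter (fun t => ¬ root t.2 = root t.1)).card : ℝ) ≤ b * VV.card ^ 2 := by
    set T2 := T.filter (fun t => ¬ root t.2 = root t.1) with hT2
    have h61 : (T2.card : ℝ) = ∑ w ∈ VV ×ˢ VV, ((T2.filter (fun t => (t.1.2, t.2.2) = w)).card : ℝ) := by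
      rw [← Nat.cast_sum]
      congr 1
      refine card_eq_sum_card_fiberwise (fun t ht => ?_)
      have h62 := (mem_filter.1 (mem_filter.1 ht).1).1
      have h63 := mem_product.1 (hE (hXE (mem_product.1 h62).1))
      have h64 := mem_product.1 (hE (hXE (mem_product.1 h62).2))
      exact mem_coe.2 (mem_product.2 ⟨h63.2, h64.2⟩)
    have h65 : ∀ w ∈ VV ×ˢ VV, ((T2.filter (fun t => (t.1.2, t.2.2) = w)).card : ℝ) ≤ b := by
      intro w _
      rcases (T2.filter (fun t => (t.1.2, t.2.2) = w)).eq_empty_or_nonempty with h0 | ⟨t0, ht0⟩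
      · rw [h0, card_empty, Nat.cast_zero]
        exact hb.le
      · refine le_trans ?_ (hfib (pr t0.1.1))
        have h66 : (T2.filter (fun t => (t.1.2, t.2.2) = w)).card ≤
            (VV.filter (fun v => pr v = pr t0.1.1)).card := by
          refine card_le_card_of_injOn (fun t => t.1.1) (fun t ht => ?_) (fun t ht t' ht' htt => ?_)
          · obtain ⟨ht1, ht2⟩ := mem_filter.1 (mem_coe.1 ht)
            obtain ⟨ht3, ht4⟩ := mem_filter.1 ht1
            obtain ⟨ht5, ht6⟩ := mem_filter.1 ht3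
            obtain ⟨hs1, hs2⟩ := mem_filter.1 ht0
            obtain ⟨hs3, hs4⟩ := mem_filter.1 hs1
            obtain ⟨hs5, hs6⟩ := mem_filter.1 hs3
            obtain ⟨⟨a1, a2⟩, ⟨a3, a4⟩⟩ := t
            obtain ⟨⟨c1, c2⟩, ⟨c3, c4⟩⟩ := t0
            simp only at ht2 ht4 ht6 hs2 hs4 hs6 ⊢
            obtain ⟨w1, w2⟩ := w
            simp only [Prod.mk.injEq] at ht2 hs2
            obtain ⟨rfl, rfl⟩ := ht2
            obtain ⟨rfl, rfl⟩ := hs2
            subst ht6
            subst hs6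
            have k1 := hXE (mem_product.1 ht5).1
            have k2 := hXE (mem_product.1 ht5).2
            have k3 := hXE (mem_product.1 hs5).1
            have k4 := hXE (mem_product.1 hs5).2
            refine mem_coe.2 (mem_filter.2 ⟨(mem_product.1 (hE k1)).1, ?_⟩)
            by_contra hne
            exact ht4 (h4 _ _ _ _ k1 k2 k3 k4 hne).symm
          · obtain ⟨ht1, ht2⟩ := mem_filter.1 (mem_coe.1 ht)
            obtain ⟨ht3, ht4⟩ := mem_filter.1 ht1
            obtain ⟨ht5, ht6⟩ := mem_filter.1 ht3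
            obtain ⟨hs1, hs2⟩ := mem_filter.1 (mem_coe.1 ht')
            obtain ⟨hs3, hs4⟩ := mem_filter.1 hs1
            obtain ⟨hs5, hs6⟩ := mem_filter.1 hs3
            obtain ⟨⟨a1, a2⟩, ⟨a3, a4⟩⟩ := t
            obtain ⟨⟨c1, c2⟩, ⟨c3, c4⟩⟩ := t'
            obtain ⟨w1, w2⟩ := w
            simp only [Prod.mk.injEq] at ht2 hs2 ht6 hs6 htt ⊢
            obtain ⟨rfl, rfl⟩ := ht2
            obtain ⟨rfl, rfl⟩ := hs2
            subst ht6
            subst hs6
            subst htt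
            exact ⟨⟨rfl, rfl⟩, ⟨rfl, rfl⟩⟩
        exact_mod_cast h66
    rw [h61]
    refine (Finset.sum_le_sum h65).trans ?_
    rw [Finset.sum_const, nsmul_eq_mul, card_product]
    push_cast
    exact le_of_eq (by ring)
  have h7 : (T.card : ℝ) ≤ κ * P * X.card + b * VV.card ^ 2 := by
    rw [h4']
    push_cast
    linarith
  rw [h3] at h2
  set x : ℝ := (X.card : ℝ) with hx
  set n : ℝ := (VV.card : ℝ) with hn
  have hx0 : 0 ≤ x := Nat.cast_nonneg _
  have hn0 : 0 ≤ n := Nat.cast_nonneg _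
  have h8 : x ^ 2 ≤ (b * P) * (κ * P * x + b * (b * P) ^ 2) := by
    refine h2.trans ?_
    have h81 : n ^ 2 ≤ (b * P) ^ 2 := pow_le_pow_left₀ hn0 hV 2
    have h82 : (T.card : ℝ) ≤ κ * P * x + b * (b * P) ^ 2 :=
      h7.trans (by
        have := mul_le_mul_of_nonneg_left h81 hb.le
        linarith)
    exact mul_le_mul hV h82 (Nat.cast_nonneg _) (by positivity)
  by_contra hcon
  push Not at hcon
  have h9 : κ * b * P ^ 2 * x ≤ x ^ 2 / 2 := by
    have := mul_le_mul_of_nonneg_right hcon.le hx0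
    nlinarith
  have h10 : x ^ 2 ≤ 2 * (b ^ 4 * P ^ 3) := by
    have : (b * P) * (κ * P * x + b * (b * P) ^ 2) = κ * b * P ^ 2 * x + b ^ 4 * P ^ 3 := by ring
    rw [this] at h8
    linarith
  have h11 : (2 * κ * b * P ^ 2) ^ 2 < x ^ 2 := pow_lt_pow_left₀ hcon (by positivity) (by norm_num)
  have h12 : (b ^ 2 * P ^ 3) * (2 * κ ^ 2 * P) < (b ^ 2 * P ^ 3) * b ^ 2 := by nlinarith
  have h13 : 2 * κ ^ 2 * P < b ^ 2 := lt_of_mul_lt_mul_left h12 (by positivity)
  linarith

end Pool.Agent.H74.MDX
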