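import Pool.Agent.H74.MDX.StepE
import Pool.Agent.H74.MDX.NodesP
import Pool.Agent.H74.MDX.CntS
import Pool.Agent.H74.MDX.Ext

/-!
# MDX Step: one level up

Proof.  `step_edge` gives `M w`; `nodesP` (for every `M`) gives `Γ M`, `N M` (`choose`).  `Ms = Icc 1 ⌊4^(j+1) C n⌋₊` (at most `4^(j+1) C n` elements; `M w ∈ Ms` since
`M w ≥ n/C > 0`).  Let `e w = ((ql w, c (Lw w)), (pf w, c (Rw w)))`.  For `w ∈ Om R F (j+1)` with `Lw w, Rw w ∈ G`, `e w ∉ N (M w)` choose `γ w ∈ Γ (M w)` and put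
`c' w = (M w, γ w)`.  `V' = {(M, γ) : M ∈ Ms, M ≥ n/C, γ ∈ Γ M, ε/B^5 P^(j+1) ≤ |DS P (j+1) .. (M, γ)|}`,
`G' = {w ∈ Om R F (j+1) : Lw w ∈ G, Rw w ∈ G, e w ∉ N (M w), c' w ∈ V'}`.
* `mult`: `|V'_M| ε/B^5 P^(j+1) ≤ ∑_γ |DS| ≤ 2^(2j+8) (2 C 5^(j+1) + 1) P^(j+1) ≤ B^2 P^(j+1)`.
* `mem0`, `mem1`: `step_mem`.
* `link` for `w ∈ Om R F (j+2)` with `Lw w, Rw w ∈ G'`: `(G0, g) = c (Rw (Lw w)) = c (Lw (Rw w))` (`LR_comm`), an element of `V`: `rng`; `EX` membership of `e (Lw w)` (its second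
  vertex, `mem_VX`) and of `e (Rw w)` (first vertex) give `|G0 pf w - M (Lw w) P| ≤ (2 C 3^j + 1) P ≤ C 3^(j+1) P`, `|G0 ql w - M (Rw w) P| ≤ ..`; the frequencies:
  `2^(j+5) X η/P^j ≤ 2^(2j+6) X η P/P^(j+1)`.
* `exc`: a walk `w ∈ Om R F (j+1)`, `w ∉ G'`, satisfies `Lw w ∉ G`, or `Rw w ∉ G`, or `e w ∈ N (M w)`, or `|DS (c' w)| < ε/B^5 P^(j+1)`.
  First two: `ext_L`, `ext_R` with `S = (Om R F j).filter (∉ G)` (`Lw_mem`, `Rw_mem`): `≤ 2 (2C+1)^2 P^2 (4(2C+1)^2)^j ε n P^(2j)`.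
  Third: `cntN` with `D = C 5^j`, `B1 = ε/B^3 P^2`: `≤ 4^(j+1) C n · ε/B^3 P^2 · (2C+1)^(2j+2) (2 C 5^j + 1) P^(2j) ≤ ε n P^(2j+2)`.
  Fourth: `cntA` (level `j+1`) with `y = ε/B^5 P^(j+1)`, `T = 2^(2j+8) (2 C 5^(j+1) + 1) P^(j+1)`: `≤ (2C+1)^(2j+2) ((j+1)!)^2 4^(j+1) C n y T ≤ B · B · B · B · B · ε/B^5 n P^(2j+2)`.
  Sum: `2 (2C+1)^2 (4(2C+1)^2)^j ε + 2 ε ≤ (4(2C+1)^2)^(j+1) ε`.
-/

set_option autoImplicit false

namespace Pool.Agent.H74.MDX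

open Finset
open Pool.Agent.H53.MID (nz Rel Desc)

/-- the numerical facts used in the step -/
private theorem Step_num (C B ε η : ℝ) (ℓ P j : ℕ) (hPar : Par C ℓ P B ε η) (hj : j < ℓ) :
    1 ≤ B ∧ 1 ≤ P ∧ 4 ^ (j + 1) * C ≤ B ∧ (2 * C + 1) ^ (2 * j + 2) ≤ B ∧ 2 * (C * 5 ^ j) + 1 ≤ B ∧
      2 * (C * 5 ^ (j + 1)) + 1 ≤ B ∧ (2 : ℝ) ^ (2 * j + 8) ≤ B ∧ (((j + 1).factorial : ℝ)) ^ 2 ≤ B := by
  have hC := hPar.hC
  have h5 : (1 : ℝ) ≤ 5 ^ ℓ := one_le_pow₀ (by norm_num)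
  have hB1 : 1 ≤ B := by
    have := hPar.hB1
    nlinarith
  have hP1 : 1 ≤ P := by
    by_contra h
    have hP0 : P = 0 := by omega
    have h1 := hPar.hP
    rw [hP0, Nat.cast_zero, mul_zero] at h1
    have h2 : (1 : ℝ) ≤ B ^ 54 := one_le_pow₀ hB1
    linarith
  refine ⟨hB1, hP1, ?_, ?_, ?_, ?_, ?_, ?_⟩
  · refine le_trans ?_ hPar.hB2
    exact mul_le_mul_of_nonneg_right (pow_le_pow_right₀ (by norm_num) hj) (by linarith)
  · refine le_trans ?_ hPar.hB3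
    exact pow_le_pow_right₀ (by linarith) (by omega)
  · refine le_trans ?_ hPar.hB1
    have h : (5 : ℝ) ^ j ≤ 5 ^ ℓ := pow_le_pow_right₀ (by norm_num) hj.le
    nlinarith
  · refine le_trans ?_ hPar.hB1
    have h : (5 : ℝ) ^ (j + 1) ≤ 5 ^ ℓ := pow_le_pow_right₀ (by norm_num) hj
    nlinarith
  · refine le_trans ?_ hPar.hB5
    exact pow_le_pow_right₀ (by norm_num) (by omega)
  · refine le_trans ?_ hPar.hB4
    have h : (j + 1).factorial ≤ ℓ.factorial := Nat.factorial_le hj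
    exact pow_le_pow_left₀ (Nat.cast_nonneg _) (by exact_mod_cast h) 2

open Classical in
private theorem Step_mult (T W m0 : ℝ) (hm0 : 0 < m0) (K : ℕ) (V : Finset (ℕ × ℝ)) (Γ : Finset ℝ) (f : ℕ × ℝ → ℝ)
    (hf0 : ∀ v, 0 ≤ f v) (hV : ∀ v ∈ V, v.1 = K → v.2 ∈ Γ) (hVf : ∀ v ∈ V, m0 ≤ f v)
    (hT : ∑ γ ∈ Γ, f (K, γ) ≤ T) (hW : T ≤ W * m0) : ((V.filter (fun v => v.1 = K)).card : ℝ) ≤ W := by
  have h1 : ((V.filter (fun v => v.1 = K)).card : ℝ) * m0 ≤ ∑ v ∈ V.filter (fun v => v.1 = K), f v := by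
    rw [← nsmul_eq_mul]
    refine Finset.card_nsmul_le_sum _ _ _ (fun v hv => ?_)
    exact hVf v (Finset.mem_filter.1 hv).1
  have h2 : ∑ v ∈ V.filter (fun v => v.1 = K), f v ≤ ∑ γ ∈ Γ, f (K, γ) := by
    have h3 : ∑ v ∈ V.filter (fun v => v.1 = K), f v =
        ∑ γ ∈ (V.filter (fun v => v.1 = K)).image (fun v => v.2), f (K, γ) := by
      rw [Finset.sum_image]
      · refine Finset.sum_congr rfl (fun v hv => ?_)
        have := (Finset.mem_filter.1 hv).2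
        rw [← this]
      · intro v hv v' hv' h
        have e1 := (Finset.mem_filter.1 (Finset.mem_coe.1 hv)).2
        have e2 := (Finset.mem_filter.1 (Finset.mem_coe.1 hv')).2
        exact Prod.ext (e1.trans e2.symm) h
    rw [h3]
    refine Finset.sum_le_sum_of_subset_of_nonneg ?_ (fun _ _ _ => hf0 _)
    intro γ hγ
    obtain ⟨v, hv, rfl⟩ := Finset.mem_image.1 hγ
    exact hV v (Finset.mem_filter.1 hv).1 (Finset.mem_filter.1 hv).2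
  have h4 : ((V.filter (fun v => v.1 = K)).card : ℝ) * m0 ≤ W * m0 := (h1.trans h2).trans (hT.trans hW)
  exact le_of_mul_le_mul_right h4 hm0

theorem lvl_step (C B ε η : ℝ) (ℓ n P j : ℕ) (F : Finset ℕ) (α : ℕ → ℝ) (R : Finset (ℕ × ℕ × ℕ))
    (hPar : Par C ℓ P B ε η) (hj : j < ℓ) (hn : 1 ≤ n) (hM : Mul (2 * C + 1) P R) (V : Finset (ℕ × ℝ))
    (G : Finset (Wk j)) (c : Wk j → ℕ × ℝ) (hL : Lvl C B ε η n P F α R j V G c) :
    ∃ (V' : Finset (ℕ × ℝ)) (G' : Finset (Wk (j + 1))) (c' : Wk (j + 1) → ℕ × ℝ),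
      Lvl C B ε η n P F α R (j + 1) V' G' c' := by
  classical
  obtain ⟨hB1, hP1, hBa, hBb, hBc, hBd, hBe, hBf⟩ := Step_num C B ε η ℓ P j hPar hj
  have hC := hPar.hC
  have hε := hPar.hε
  have hη := hPar.hη
  have hB0 : 0 < B := by linarith
  have hC0 : 0 < C := by linarith
  have hP0 : (0 : ℝ) < P := by exact_mod_cast hP1
  have hn0 : (0 : ℝ) < n := by exact_mod_cast hn
  obtain ⟨M, hMw⟩ := step_edge C B ε η n P j F α R hC hM V G c hL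
  choose Γ N hN hΓ hEN using fun M : ℕ => nodesP C B ε η ℓ P j M F α V hPar hj hL.desc hL.mult
  set Ms : Finset ℕ := Finset.Icc 1 ⌊4 ^ (j + 1) * C * (n : ℝ)⌋₊ with hMs
  have hMsc : (Ms.card : ℝ) ≤ B * n := by
    rw [hMs, Nat.card_Icc, Nat.add_sub_cancel]
    refine (Nat.floor_le (by positivity)).trans ?_
    exact mul_le_mul_of_nonneg_right hBa hn0.le
  set e : Wk (j + 1) → (ℕ × ℕ × ℝ) × (ℕ × ℕ × ℝ) := fun w => ((ql w, c (Lw w)), (pf w, c (Rw w))) with he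
  have hMmem : ∀ w ∈ Om R F (j + 1), Lw w ∈ G → Rw w ∈ G → M w ∈ Ms := by
    intro w hw h1 h2
    obtain ⟨a1, a2, -⟩ := hMw w hw h1 h2
    rw [hMs, Finset.mem_Icc]
    refine ⟨?_, Nat.le_floor a2⟩
    have : (0 : ℝ) < M w := lt_of_lt_of_le (by positivity) a1
    exact_mod_cast this
  -- the frequencies
  have hγ : ∀ w : Wk (j + 1), ∃ γ : ℝ, w ∈ Om R F (j + 1) → Lw w ∈ G → Rw w ∈ G → e w ∉ N (M w) →
      γ ∈ Γ (M w) ∧ nz (((e w).1.1 : ℝ) * γ - (e w).1.2.2) ≤ 2 ^ (j + 5) * (2 ^ (j ^ 2 + 5 * j) * η) / (P : ℝ) ^ j ∧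
          nz (((e w).2.1 : ℝ) * γ - (e w).2.2.2) ≤ 2 ^ (j + 5) * (2 ^ (j ^ 2 + 5 * j) * η) / (P : ℝ) ^ j := by
    intro w
    by_cases h : w ∈ Om R F (j + 1) ∧ Lw w ∈ G ∧ Rw w ∈ G ∧ e w ∉ N (M w)
    · obtain ⟨h0, h1, h2, h3⟩ := h
      obtain ⟨γ, g1, g2, g3⟩ := hEN (M w) (e w) (hMw w h0 h1 h2).2.2 h3
      exact ⟨γ, fun _ _ _ _ => ⟨g1, g2, g3⟩⟩
    · exact ⟨0, fun a b c d => absurd ⟨a, b, c, d⟩ h⟩
  choose γ hγ using hγ
  set DD : ℕ × ℝ → Finset (ℕ × ℕ) := fun v =>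
    DS P (j + 1) (C * 5 ^ (j + 1)) (2 ^ ((j + 1) ^ 2 + 5 * (j + 1)) * η) F α v with hDD
  set V' : Finset (ℕ × ℝ) := (Ms ×ˢ (Ms.biUnion Γ)).filter (fun v => (n : ℝ) / C ≤ v.1 ∧ v.2 ∈ Γ v.1 ∧
    ε / B ^ 5 * (P : ℝ) ^ (j + 1) ≤ ((DD v).card : ℝ)) with hV'
  set c' : Wk (j + 1) → ℕ × ℝ := fun w => (M w, γ w) with hc'
  set G' : Finset (Wk (j + 1)) := (Om R F (j + 1)).filter (fun w => Lw w ∈ G ∧ Rw w ∈ G ∧ e w ∉ N (M w) ∧
    c' w ∈ V') with hG'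
  have hm0 : 0 < ε / B ^ 5 * (P : ℝ) ^ (j + 1) := by positivity
  have hV'mem : ∀ v, v ∈ V' ↔ v.1 ∈ Ms ∧ (n : ℝ) / C ≤ v.1 ∧ v.2 ∈ Γ v.1 ∧
      ε / B ^ 5 * (P : ℝ) ^ (j + 1) ≤ ((DD v).card : ℝ) := by
    intro v
    rw [hV', Finset.mem_filter, Finset.mem_product]
    constructor
    · rintro ⟨⟨h1, -⟩, h2⟩
      exact ⟨h1, h2⟩
    · rintro ⟨h1, h2⟩
      exact ⟨⟨h1, Finset.mem_biUnion.2 ⟨v.1, h1, h2.2.1⟩⟩, h2⟩
  have hG'mem : ∀ w, w ∈ G' ↔ w ∈ Om R F (j + 1) ∧ Lw w ∈ G ∧ Rw w ∈ G ∧ e w ∉ N (M w) ∧ c' w ∈ V' := by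
    intro w
    rw [hG', Finset.mem_filter]
  have hT : ∀ K : ℕ, ∑ γ ∈ Γ K, ((DD (K, γ)).card : ℝ) ≤ B ^ 2 * (P : ℝ) ^ (j + 1) := by
    intro K
    refine (hΓ K).trans ?_
    refine mul_le_mul_of_nonneg_right ?_ (by positivity)
    rw [sq]
    exact mul_le_mul hBe hBd (by positivity) hB0.le
  refine ⟨V', G', c', ?_, ?_, ?_, ?_, ?_, ?_, ?_, ?_, ?_⟩
  · -- sub
    rw [hG']
    exact Finset.filter_subset _ _
  · -- col
    intro w hw
    exact ((hG'mem w).1 hw).2.2.2.2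
  · -- rng
    intro v hv
    obtain ⟨h1, h2, -, -⟩ := (hV'mem v).1 hv
    refine ⟨h2, ?_⟩
    rw [hMs, Finset.mem_Icc] at h1
    exact (Nat.le_floor_iff (by positivity)).1 h1.2
  · -- mult
    intro K
    refine Step_mult (B ^ 2 * (P : ℝ) ^ (j + 1)) (B ^ 7 / ε) (ε / B ^ 5 * (P : ℝ) ^ (j + 1)) hm0 K V' (Γ K)
      (fun v => ((DD v).card : ℝ)) (fun _ => Nat.cast_nonneg _) ?_ ?_ (hT K) ?_
    · intro v hv hK
      rw [← hK]
      exact ((hV'mem v).1 hv).2.2.1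
    · intro v hv
      exact ((hV'mem v).1 hv).2.2.2
    · refine le_of_eq ?_
      field_simp
  · -- desc
    intro v hv
    exact ((hV'mem v).1 hv).2.2.2
  · -- mem0
    intro w hw
    obtain ⟨h0, h1, h2, h3, h4⟩ := (hG'mem w).1 hw
    obtain ⟨g1, g2, g3⟩ := hγ w h0 h1 h2 h3
    exact (step_mem C B ε η n P j F α R hC hη hM V G c hL w h1 h2 (M w) (hMw w h0 h1 h2).2.2 (γ w) g2 g3).1
  · -- mem1
    intro w hw
    obtain ⟨h0, h1, h2, h3, h4⟩ := (hG'mem w).1 hw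
    obtain ⟨g1, g2, g3⟩ := hγ w h0 h1 h2 h3
    exact (step_mem C B ε η n P j F α R hC hη hM V G c hL w h1 h2 (M w) (hMw w h0 h1 h2).2.2 (γ w) g2 g3).2
  · -- link
    intro w hw hl hr
    obtain ⟨l0, l1, l2, l3, l4⟩ := (hG'mem (Lw w)).1 hl
    obtain ⟨r0, r1, r2, r3, r4⟩ := (hG'mem (Rw w)).1 hr
    obtain ⟨lg1, lg2, lg3⟩ := hγ (Lw w) l0 l1 l2 l3
    obtain ⟨rg1, rg2, rg3⟩ := hγ (Rw w) r0 r1 r2 r3
    have lE := (hMw (Lw w) l0 l1 l2).2.2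
    have rE := (hMw (Rw w) r0 r1 r2).2.2
    rw [mem_EX, mem_VX, mem_VX] at lE rE
    have l5 := lE.2.1.2.2.2
    have r5 := rE.1.2.2.2
    have hcV := hL.col _ l2
    obtain ⟨q1, q2⟩ := hL.rng _ hcV
    have hpos : (2 * (C * 3 ^ j) + 1) * (P : ℝ) ≤ C * 3 ^ (j + 1) * P := by
      refine mul_le_mul_of_nonneg_right ?_ hP0.le
      have h3 : (1 : ℝ) ≤ 3 ^ j := one_le_pow₀ (by norm_num)
      have h4 : 1 ≤ C * 3 ^ j := by nlinarith
      rw [pow_succ]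
      linarith
    have hfr : 2 ^ (j + 5) * (2 ^ (j ^ 2 + 5 * j) * η) / (P : ℝ) ^ j ≤
        2 ^ ((j + 1) ^ 2 + 5 * (j + 1)) * η * P / (P : ℝ) ^ (j + 1) := by
      have e1 : 2 ^ ((j + 1) ^ 2 + 5 * (j + 1)) * η * P / (P : ℝ) ^ (j + 1) =
          2 ^ ((j + 1) ^ 2 + 5 * (j + 1)) * η / (P : ℝ) ^ j := by
        rw [pow_succ (P : ℝ) j]
        field_simp
      rw [e1]
      refine div_le_div_of_nonneg_right ?_ (by positivity)
      rw [← mul_assoc, ← pow_add]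
      refine mul_le_mul_of_nonneg_right ?_ hη.le
      refine pow_le_pow_right₀ (by norm_num) ?_
      nlinarith
    refine ⟨(c (Rw (Lw w))).1, (c (Rw (Lw w))).2, q1, ?_, ?_, ?_, ?_, ?_⟩
    · refine q2.trans ?_
      refine mul_le_mul_of_nonneg_right (mul_le_mul_of_nonneg_right ?_ hC0.le) hn0.le
      exact pow_le_pow_right₀ (by norm_num) (Nat.le_succ j)
    · exact l5.trans hpos
    · exact r5.trans hpos
    · exact lg3.trans hfr
    · exact rg2.trans hfr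
  · -- exc
    set S0 : Finset (Wk j) := (Om R F j).filter (fun w => w ∉ G) with hS0
    set S3 : Finset (Wk (j + 1)) := (Om R F (j + 1)).filter (fun w => Lw w ∈ G ∧ Rw w ∈ G ∧ e w ∈ N (M w)) with hS3
    set S4 : Finset (Wk (j + 1)) := (Om R F (j + 1)).filter (fun w => Lw w ∈ G ∧ Rw w ∈ G ∧ e w ∉ N (M w) ∧
      c' w ∉ V') with hS4
    have hsub : (Om R F (j + 1)).filter (fun w => w ∉ G') ⊆
        ((((Om R F (j + 1)).filter (fun w => Lw w ∈ S0)) ∪ ((Om R F (j + 1)).filter (fun w => Rw w ∈ S0))) ∪ S3) ∪ S4 := by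
      intro w hw
      obtain ⟨h0, h1⟩ := Finset.mem_filter.1 hw
      rw [hG'mem] at h1
      by_cases a1 : Lw w ∈ G
      · by_cases a2 : Rw w ∈ G
        · by_cases a3 : e w ∈ N (M w)
          · exact Finset.mem_union_left _ (Finset.mem_union_right _ (Finset.mem_filter.2 ⟨h0, a1, a2, a3⟩))
          · refine Finset.mem_union_right _ (Finset.mem_filter.2 ⟨h0, a1, a2, a3, ?_⟩)
            intro a4
            exact h1 ⟨h0, a1, a2, a3, a4⟩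
        · exact Finset.mem_union_left _ (Finset.mem_union_left _ (Finset.mem_union_right _
            (Finset.mem_filter.2 ⟨h0, Finset.mem_filter.2 ⟨Rw_mem h0, a2⟩⟩)))
      · exact Finset.mem_union_left _ (Finset.mem_union_left _ (Finset.mem_union_left _
            (Finset.mem_filter.2 ⟨h0, Finset.mem_filter.2 ⟨Lw_mem h0, a1⟩⟩)))
    have hcard : (((Om R F (j + 1)).filter (fun w => w ∉ G')).card : ℝ) ≤
        (((Om R F (j + 1)).filter (fun w => Lw w ∈ S0)).card : ℝ) +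
          (((Om R F (j + 1)).filter (fun w => Rw w ∈ S0)).card : ℝ) + (S3.card : ℝ) + (S4.card : ℝ) := by
      have b1 := Finset.card_le_card hsub
      have b2 := Finset.card_union_le ((((Om R F (j + 1)).filter (fun w => Lw w ∈ S0)) ∪
        ((Om R F (j + 1)).filter (fun w => Rw w ∈ S0))) ∪ S3) S4
      have b3 := Finset.card_union_le (((Om R F (j + 1)).filter (fun w => Lw w ∈ S0)) ∪
        ((Om R F (j + 1)).filter (fun w => Rw w ∈ S0))) S3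
      have b4 := Finset.card_union_le ((Om R F (j + 1)).filter (fun w => Lw w ∈ S0))
        ((Om R F (j + 1)).filter (fun w => Rw w ∈ S0))
      have b5 := b1.trans (b2.trans (Nat.add_le_add_right (b3.trans (Nat.add_le_add_right b4 _)) _))
      exact_mod_cast b5
    have hL0 := ext_L R F (2 * C + 1) P j hM S0
    have hR0 := ext_R R F (2 * C + 1) P j hM S0
    have hexc := hL.exc
    -- third set
    have hc3 : (S3.card : ℝ) ≤ ε * n * (P : ℝ) ^ (2 * (j + 1)) := by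
      have h := cntN R F (2 * C + 1) P j hM (C * 5 ^ j) (ε / B ^ 3 * (P : ℝ) ^ 2) (by positivity) (by positivity) S3
        (Finset.filter_subset _ _) Ms M (fun w hw => by
          obtain ⟨h0, h1, h2, h3⟩ := Finset.mem_filter.1 hw
          exact hMmem w h0 h1 h2) N (fun x _ => hN x) e (fun w hw => (Finset.mem_filter.1 hw).2.2.2)
        (fun w _ => ⟨rfl, rfl⟩) (fun w hw => by
          obtain ⟨h0, h1, h2, h3⟩ := Finset.mem_filter.1 hw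
          exact (mem_DS.1 (hL.mem0 (Lw w) h1)).2.2.2.2.1)
      refine h.trans ?_
      have k1 : (2 * C + 1) ^ (2 * j + 2) * (2 * (C * 5 ^ j) + 1) ≤ B * B :=
        mul_le_mul hBb hBc (by positivity) hB0.le
      calc (Ms.card : ℝ) * (ε / B ^ 3 * (P : ℝ) ^ 2 * ((2 * C + 1) ^ (2 * j + 2) * (2 * (C * 5 ^ j) + 1) * (P : ℝ) ^ (2 * j)))
          ≤ (B * n) * (ε / B ^ 3 * (P : ℝ) ^ 2 * ((B * B) * (P : ℝ) ^ (2 * j))) := by
            refine mul_le_mul hMsc ?_ (by positivity) (by positivity)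
            refine mul_le_mul_of_nonneg_left ?_ (by positivity)
            exact mul_le_mul_of_nonneg_right k1 (by positivity)
        _ = ε * n * (P : ℝ) ^ (2 * (j + 1)) := by
            rw [show 2 * (j + 1) = 2 * j + 2 by ring, pow_add]
            field_simp
    -- fourth set
    have hc4 : (S4.card : ℝ) ≤ ε * n * (P : ℝ) ^ (2 * (j + 1)) := by
      have h := cntA R F α (2 * C + 1) P (j + 1) hM (C * 5 ^ (j + 1)) (2 ^ ((j + 1) ^ 2 + 5 * (j + 1)) * η)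
        (ε / B ^ 5 * (P : ℝ) ^ (j + 1)) (B ^ 2 * (P : ℝ) ^ (j + 1)) (by positivity) S4
        (Finset.filter_subset _ _) Ms Γ c' (fun w hw => by
          obtain ⟨h0, h1, h2, h3, h4⟩ := Finset.mem_filter.1 hw
          exact ⟨hMmem w h0 h1 h2, (hγ w h0 h1 h2 h3).1⟩) (fun w hw => by
          obtain ⟨h0, h1, h2, h3, h4⟩ := Finset.mem_filter.1 hw
          obtain ⟨g1, g2, g3⟩ := hγ w h0 h1 h2 h3
          exact (step_mem C B ε η n P j F α R hC hη hM V G c hL w h1 h2 (M w) (hMw w h0 h1 h2).2.2 (γ w) g2 g3).1)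
        (fun w hw => by
          obtain ⟨h0, h1, h2, h3, h4⟩ := Finset.mem_filter.1 hw
          obtain ⟨g1, g2, g3⟩ := hγ w h0 h1 h2 h3
          exact (step_mem C B ε η n P j F α R hC hη hM V G c hL w h1 h2 (M w) (hMw w h0 h1 h2).2.2 (γ w) g2 g3).2)
        (fun w hw => by
          obtain ⟨h0, h1, h2, h3, h4⟩ := Finset.mem_filter.1 hw
          obtain ⟨g1, g2, g3⟩ := hγ w h0 h1 h2 h3
          by_contra hlt
          refine h4 ((hV'mem _).2 ⟨hMmem w h0 h1 h2, (hMw w h0 h1 h2).1, g1, ?_⟩)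
          exact (not_le.1 hlt).le) (fun K _ => hT K)
      refine h.trans ?_
      have k1 : (2 * C + 1) ^ (2 * (j + 1)) * (((j + 1).factorial : ℝ)) ^ 2 ≤ B * B := by
        rw [show 2 * (j + 1) = 2 * j + 2 by ring]
        exact mul_le_mul hBb hBf (by positivity) hB0.le
      calc (2 * C + 1) ^ (2 * (j + 1)) * (((j + 1).factorial : ℝ)) ^ 2 * (Ms.card : ℝ) *
            (ε / B ^ 5 * (P : ℝ) ^ (j + 1)) * (B ^ 2 * (P : ℝ) ^ (j + 1))
          ≤ (B * B) * (B * n) * (ε / B ^ 5 * (P : ℝ) ^ (j + 1)) * (B ^ 2 * (P : ℝ) ^ (j + 1)) := by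
            refine mul_le_mul_of_nonneg_right (mul_le_mul_of_nonneg_right ?_ (by positivity)) (by positivity)
            exact mul_le_mul k1 hMsc (by positivity) (by positivity)
        _ = ε * n * (P : ℝ) ^ (2 * (j + 1)) := by
            rw [show 2 * (j + 1) = (j + 1) + (j + 1) by ring, pow_add (P : ℝ) (j + 1) (j + 1)]
            field_simp
    refine hcard.trans ?_
    have hκ : (3 : ℝ) ≤ 2 * C + 1 := by linarith
    set κ : ℝ := 2 * C + 1 with hκd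
    have hK1 : (1 : ℝ) ≤ (4 * κ ^ 2) ^ j := one_le_pow₀ (by nlinarith)
    have hs : (κ * P) ^ 2 * (S0.card : ℝ) ≤ (κ * P) ^ 2 * ((4 * κ ^ 2) ^ j * ε * n * (P : ℝ) ^ (2 * j)) :=
      mul_le_mul_of_nonneg_left hexc (by positivity)
    have hQ : (0 : ℝ) ≤ ε * n * (P : ℝ) ^ (2 * (j + 1)) := by positivity
    have hfin : 2 * (κ ^ 2 * (4 * κ ^ 2) ^ j) + 2 ≤ (4 * κ ^ 2) ^ (j + 1) := by
      have h9 : 1 ≤ κ ^ 2 * (4 * κ ^ 2) ^ j :=
        one_le_mul_of_one_le_of_one_le (one_le_pow₀ (by linarith)) hK1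
      calc 2 * (κ ^ 2 * (4 * κ ^ 2) ^ j) + 2 ≤ 4 * (κ ^ 2 * (4 * κ ^ 2) ^ j) := by linarith
        _ = (4 * κ ^ 2) ^ (j + 1) := by rw [pow_succ]; ring
    have hfin2 := mul_le_mul_of_nonneg_right hfin hQ
    have e1 : (κ * P) ^ 2 * ((4 * κ ^ 2) ^ j * ε * n * (P : ℝ) ^ (2 * j)) =
        (κ ^ 2 * (4 * κ ^ 2) ^ j) * (ε * n * (P : ℝ) ^ (2 * (j + 1))) := by
      rw [show 2 * (j + 1) = 2 * j + 2 by ring, pow_add]
      ring
    rw [e1] at hs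
    have e2 : (4 * κ ^ 2) ^ (j + 1) * ε * n * (P : ℝ) ^ (2 * (j + 1)) =
        (4 * κ ^ 2) ^ (j + 1) * (ε * n * (P : ℝ) ^ (2 * (j + 1))) := by ring
    rw [e2]
    linarith

end Pool.Agent.H74.MDX
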