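import Pool.Agent.H74.MDX.Lvl
import Pool.Agent.H74.MDX.DStep

/-!
# MDX StepE: the edge of a walk, and its position

`geo`: `M = ⌊G0 p q/P^2⌋`: `|G0 p q - M P^2| ≤ P^2`, and `(K1 q - M P) P = -(G0 p - K1 P) q + (G0 p q - M P^2)`, so `|K1 q - M P| ≤ 2 c P + P`; the same for `K2 p`;
`p q ≥ P^2` and `p q ≤ 4 P^2` give `G0 ≤ M ≤ 4 G0`.
`step_edge`: for `w` with `Lw w, Rw w ∈ G` choose `(G0, g)` from `link` and put `M w = G0 pf w ql w/P^2`.  `EX` membership (`mem_EX`, `mem_VX`): `ql w`, `pf w` are primes in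
`(P, 2P]` (`Mul.prime`, `mem_Om`), `pf w ≠ ql w` (`pf_ne_ql`), `c (Lw w), c (Rw w) ∈ V`, and
`nz (pf w k1 - ql w k2) ≤ nz (pf w k1 - g) + nz (g - ql w k2) ≤ 2 η_j`.
`step_mem`: `(qa w, v0 w)`: `qa w = qa (Lw w) ql w`, apply `DS_step` to `(qa (Lw w), v0 (Lw w)) ∈ DS (c (Lw w))` with `p = ql w`; `(pa w, v1 w)`: `pa w = pf w pa (Rw w)`,
`DS_step` with `(pa (Rw w), v1 (Rw w)) ∈ DS (c (Rw w))`; then `DS_mono`: `2 C 5^j + 2 C 3^j + 1 ≤ C 5^(j+1)`, `(2P)^j 2^(j+5) X η/P^j + X η = (2^(2j+5) + 1) X η ≤ 2^(2j+6) X η`,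
`(j+1)^2 + 5(j+1) = j^2 + 5j + 2j + 6`.
-/

set_option autoImplicit false

namespace Pool.Agent.H74.MDX

open Finset
open Pool.Agent.H53.MID (nz Rel Desc)

private theorem StepE_div {P X M : ℝ} (hP : 0 < P) (h : |X * P| ≤ M * P * P) : |X| ≤ M * P := by
  rw [abs_mul, abs_of_pos hP] at h
  exact le_of_mul_le_mul_right h hP

theorem geo (P G0 K1 K2 p q : ℕ) (c : ℝ) (hP : 1 ≤ P) (hc : 0 ≤ c) (hp : P < p ∧ p ≤ 2 * P) (hq : P < q ∧ q ≤ 2 * P)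
    (h1 : |(G0 : ℝ) * p - K1 * P| ≤ c * P) (h2 : |(G0 : ℝ) * q - K2 * P| ≤ c * P) :
    |(K1 : ℝ) * q - (G0 * p * q / P ^ 2 : ℕ) * P| ≤ (2 * c + 1) * P ∧
      |(K2 : ℝ) * p - (G0 * p * q / P ^ 2 : ℕ) * P| ≤ (2 * c + 1) * P ∧ G0 ≤ G0 * p * q / P ^ 2 ∧
      G0 * p * q / P ^ 2 ≤ 4 * G0 := by
  have hP2 : 0 < P ^ 2 := by positivity
  have hPR : (1 : ℝ) ≤ (P : ℝ) := by exact_mod_cast hP
  have hP0 : (0 : ℝ) < (P : ℝ) := by linarith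
  have hp2 : (p : ℝ) ≤ 2 * P := by exact_mod_cast hp.2
  have hq2 : (q : ℝ) ≤ 2 * P := by exact_mod_cast hq.2
  have hp0 : (0 : ℝ) ≤ (p : ℝ) := Nat.cast_nonneg p
  have hq0 : (0 : ℝ) ≤ (q : ℝ) := Nat.cast_nonneg q
  have hdm : P ^ 2 * (G0 * p * q / P ^ 2) + (G0 * p * q) % P ^ 2 = G0 * p * q := Nat.div_add_mod _ _
  have hmod : (G0 * p * q) % P ^ 2 < P ^ 2 := Nat.mod_lt _ hP2
  set M : ℕ := G0 * p * q / P ^ 2 with hM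
  set r : ℕ := (G0 * p * q) % P ^ 2 with hr
  have hdm' : (P : ℝ) ^ 2 * (M : ℝ) + (r : ℝ) = (G0 : ℝ) * p * q := by exact_mod_cast hdm
  have hr1 : (r : ℝ) ≤ (P : ℝ) ^ 2 := by exact_mod_cast hmod.le
  have hr0 : (0 : ℝ) ≤ (r : ℝ) := Nat.cast_nonneg r
  refine ⟨?_, ?_, ?_, ?_⟩
  · have h3 : ((K1 : ℝ) * q - M * P) * P = -(((G0 : ℝ) * p - K1 * P) * q) + r := by
      have h4 : (r : ℝ) = (G0 : ℝ) * p * q - (P : ℝ) ^ 2 * M := by linarith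
      rw [h4]
      ring
    have h5 : |((K1 : ℝ) * q - M * P) * P| ≤ (2 * c + 1) * P * P := by
      rw [h3]
      have h6 : |((G0 : ℝ) * p - K1 * P) * q| ≤ c * P * (2 * P) := by
        rw [abs_mul, abs_of_nonneg hq0]
        exact mul_le_mul h1 hq2 hq0 (by positivity)
      have h7 : |(r : ℝ)| ≤ (P : ℝ) ^ 2 := by rw [abs_of_nonneg hr0]; exact hr1
      have h8 := abs_add_le (-(((G0 : ℝ) * p - K1 * P) * q)) (r : ℝ)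
      rw [abs_neg] at h8
      nlinarith
    exact StepE_div hP0 h5
  · have h3 : ((K2 : ℝ) * p - M * P) * P = -(((G0 : ℝ) * q - K2 * P) * p) + r := by
      have h4 : (r : ℝ) = (G0 : ℝ) * p * q - (P : ℝ) ^ 2 * M := by linarith
      rw [h4]
      ring
    have h5 : |((K2 : ℝ) * p - M * P) * P| ≤ (2 * c + 1) * P * P := by
      rw [h3]
      have h6 : |((G0 : ℝ) * q - K2 * P) * p| ≤ c * P * (2 * P) := by
        rw [abs_mul, abs_of_nonneg hp0]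
        exact mul_le_mul h2 hp2 hp0 (by positivity)
      have h7 : |(r : ℝ)| ≤ (P : ℝ) ^ 2 := by rw [abs_of_nonneg hr0]; exact hr1
      have h8 := abs_add_le (-(((G0 : ℝ) * q - K2 * P) * p)) (r : ℝ)
      rw [abs_neg] at h8
      nlinarith
    exact StepE_div hP0 h5
  · rw [hM, Nat.le_div_iff_mul_le hP2]
    have h3 : P * P ≤ p * q := Nat.mul_le_mul hp.1.le hq.1.le
    calc G0 * P ^ 2 = G0 * (P * P) := by ring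
      _ ≤ G0 * (p * q) := Nat.mul_le_mul_left _ h3
      _ = G0 * p * q := by ring
  · rw [hM]
    apply Nat.div_le_of_le_mul
    have h3 : p * q ≤ (2 * P) * (2 * P) := Nat.mul_le_mul hp.2 hq.2
    calc G0 * p * q = G0 * (p * q) := by ring
      _ ≤ G0 * ((2 * P) * (2 * P)) := Nat.mul_le_mul_left _ h3
      _ = P ^ 2 * (4 * G0) := by ring

private theorem StepE_pf {κ : ℝ} {j P : ℕ} {F : Finset ℕ} {R : Finset (ℕ × ℕ × ℕ)} (hM : Mul κ P R) {w : Wk (j + 1)}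
    (hw : w ∈ Om R F (j + 1)) : (pf w).Prime ∧ P < pf w ∧ pf w ≤ 2 * P :=
  hM.prime _ ((mem_Om.1 hw).2.1 0).1

private theorem StepE_ql {κ : ℝ} {j P : ℕ} {F : Finset ℕ} {R : Finset (ℕ × ℕ × ℕ)} (hM : Mul κ P R) {w : Wk (j + 1)}
    (hw : w ∈ Om R F (j + 1)) : (ql w).Prime ∧ P < ql w ∧ ql w ≤ 2 * P :=
  hM.prime _ ((mem_Om.1 hw).2.1 (Fin.last j)).2

theorem step_edge (C B ε η : ℝ) (n P j : ℕ) (F : Finset ℕ) (α : ℕ → ℝ) (R : Finset (ℕ × ℕ × ℕ)) (hC : 1 ≤ C)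
    (hM : Mul (2 * C + 1) P R) (V : Finset (ℕ × ℝ)) (G : Finset (Wk j)) (c : Wk j → ℕ × ℝ)
    (hL : Lvl C B ε η n P F α R j V G c) :
    ∃ M : Wk (j + 1) → ℕ, ∀ w ∈ Om R F (j + 1), Lw w ∈ G → Rw w ∈ G → (n : ℝ) / C ≤ M w ∧
      (M w : ℝ) ≤ 4 ^ (j + 1) * C * n ∧ (((ql w, c (Lw w)), (pf w, c (Rw w))) : (ℕ × ℕ × ℝ) × (ℕ × ℕ × ℝ)) ∈
        EX (2 * (C * 3 ^ j) + 1) P (2 ^ (j ^ 2 + 5 * j) * η * P / (P : ℝ) ^ j) V (M w) := by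
  have key : ∀ w : Wk (j + 1), ∃ m : ℕ, w ∈ Om R F (j + 1) → Lw w ∈ G → Rw w ∈ G → (n : ℝ) / C ≤ m ∧
      (m : ℝ) ≤ 4 ^ (j + 1) * C * n ∧ (((ql w, c (Lw w)), (pf w, c (Rw w))) : (ℕ × ℕ × ℝ) × (ℕ × ℕ × ℝ)) ∈
        EX (2 * (C * 3 ^ j) + 1) P (2 ^ (j ^ 2 + 5 * j) * η * P / (P : ℝ) ^ j) V m := by
    intro w
    by_cases hw : w ∈ Om R F (j + 1) ∧ Lw w ∈ G ∧ Rw w ∈ G
    · obtain ⟨hw1, hw2, hw3⟩ := hw
      obtain ⟨G0, g, hg1, hg2, hg3, hg4, hg5, hg6⟩ := hL.link w hw1 hw2 hw3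
      obtain ⟨hpp, hp1, hp2⟩ := StepE_pf hM hw1
      obtain ⟨hqp, hq1, hq2⟩ := StepE_ql hM hw1
      obtain ⟨k1, k2, k3, k4⟩ := geo P G0 (c (Lw w)).1 (c (Rw w)).1 (pf w) (ql w) (C * 3 ^ j) hM.pos (by positivity)
        ⟨hp1, hp2⟩ ⟨hq1, hq2⟩ hg3 hg4
      refine ⟨G0 * pf w * ql w / P ^ 2, fun _ _ _ => ⟨?_, ?_, ?_⟩⟩
      · have h1 : (G0 : ℝ) ≤ ((G0 * pf w * ql w / P ^ 2 : ℕ) : ℝ) := by exact_mod_cast k3
        linarith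
      · have h1 : ((G0 * pf w * ql w / P ^ 2 : ℕ) : ℝ) ≤ 4 * (G0 : ℝ) := by exact_mod_cast k4
        have h2 : (4 : ℝ) ^ (j + 1) = 4 ^ j * 4 := pow_succ _ _
        rw [h2]
        linarith
      · rw [mem_EX]
        refine ⟨?_, ?_, ?_, ?_⟩
        · rw [mem_VX]
          exact ⟨⟨hq1, hq2⟩, hqp, hL.col _ hw2, k1⟩
        · rw [mem_VX]
          exact ⟨⟨hp1, hp2⟩, hpp, hL.col _ hw3, k2⟩
        · exact fun h => pf_ne_ql hw1 h.symm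
        · change nz ((pf w : ℝ) * (c (Lw w)).2 - ql w * (c (Rw w)).2) ≤ _
          have h1 : (pf w : ℝ) * (c (Lw w)).2 - ql w * (c (Rw w)).2 =
              ((pf w : ℝ) * (c (Lw w)).2 - g) + -(ql w * (c (Rw w)).2 - g) := by ring
          rw [h1]
          have h2 := Pool.Agent.H53.MID.nz_add ((pf w : ℝ) * (c (Lw w)).2 - g) (-(ql w * (c (Rw w)).2 - g))
          rw [Pool.Agent.H53.MID.nz_neg] at h2
          linarith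
    · refine ⟨0, fun h1 h2 h3 => absurd ⟨h1, h2, h3⟩ hw⟩
  choose M hM' using key
  exact ⟨M, hM'⟩

private theorem StepE_D (C : ℝ) (j : ℕ) (hC : 1 ≤ C) :
    2 * (C * 5 ^ j) + (2 * (C * 3 ^ j) + 1) ≤ C * 5 ^ (j + 1) := by
  have h1 : (3 : ℝ) ^ j ≤ 5 ^ j := pow_le_pow_left₀ (by norm_num) (by norm_num) j
  have h2 : (1 : ℝ) ≤ 5 ^ j := one_le_pow₀ (by norm_num)
  have h3 : C * 3 ^ j ≤ C * 5 ^ j := mul_le_mul_of_nonneg_left h1 (by linarith)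
  have h4 : 1 ≤ C * 5 ^ j := by nlinarith
  rw [pow_succ]
  linarith

private theorem StepE_tau (η : ℝ) (P j : ℕ) (hη : 0 < η) (hP : 1 ≤ P) :
    (2 * (P : ℝ)) ^ j * (2 ^ (j + 5) * (2 ^ (j ^ 2 + 5 * j) * η) / (P : ℝ) ^ j) + 2 ^ (j ^ 2 + 5 * j) * η ≤
      2 ^ ((j + 1) ^ 2 + 5 * (j + 1)) * η := by
  have hP0 : (0 : ℝ) < (P : ℝ) := by exact_mod_cast hP
  have hPj : (P : ℝ) ^ j ≠ 0 := by positivity
  have h1 : (2 * (P : ℝ)) ^ j * (2 ^ (j + 5) * (2 ^ (j ^ 2 + 5 * j) * η) / (P : ℝ) ^ j) =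
      2 ^ (2 * j + 5) * (2 ^ (j ^ 2 + 5 * j) * η) := by
    rw [mul_pow, show 2 * j + 5 = j + (j + 5) by ring, pow_add 2 j (j + 5)]
    field_simp
  rw [h1]
  have h2 : (2 : ℝ) ^ ((j + 1) ^ 2 + 5 * (j + 1)) = 2 ^ (2 * j + 5) * 2 * 2 ^ (j ^ 2 + 5 * j) := by
    rw [← pow_succ, ← pow_add]
    congr 1
    ring
  rw [h2]
  have h3 : 0 < (2 : ℝ) ^ (j ^ 2 + 5 * j) * η := by positivity
  have h4 : (1 : ℝ) ≤ 2 ^ (2 * j + 5) := one_le_pow₀ (by norm_num)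
  nlinarith

theorem step_mem (C B ε η : ℝ) (n P j : ℕ) (F : Finset ℕ) (α : ℕ → ℝ) (R : Finset (ℕ × ℕ × ℕ)) (hC : 1 ≤ C) (hη : 0 < η)
    (hM : Mul (2 * C + 1) P R) (V : Finset (ℕ × ℝ)) (G : Finset (Wk j)) (c : Wk j → ℕ × ℝ)
    (hL : Lvl C B ε η n P F α R j V G c) (w : Wk (j + 1)) (h1 : Lw w ∈ G) (h2 : Rw w ∈ G) (M : ℕ)
    (hE : (((ql w, c (Lw w)), (pf w, c (Rw w))) : (ℕ × ℕ × ℝ) × (ℕ × ℕ × ℝ)) ∈
        EX (2 * (C * 3 ^ j) + 1) P (2 ^ (j ^ 2 + 5 * j) * η * P / (P : ℝ) ^ j) V M) (γ : ℝ)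
    (h3 : nz (ql w * γ - (c (Lw w)).2) ≤ 2 ^ (j + 5) * (2 ^ (j ^ 2 + 5 * j) * η) / (P : ℝ) ^ j)
    (h4 : nz (pf w * γ - (c (Rw w)).2) ≤ 2 ^ (j + 5) * (2 ^ (j ^ 2 + 5 * j) * η) / (P : ℝ) ^ j) :
    (qa w, v0 w) ∈ DS P (j + 1) (C * 5 ^ (j + 1)) (2 ^ ((j + 1) ^ 2 + 5 * (j + 1)) * η) F α (M, γ) ∧
      (pa w, v1 w) ∈ DS P (j + 1) (C * 5 ^ (j + 1)) (2 ^ ((j + 1) ^ 2 + 5 * (j + 1)) * η) F α (M, γ) := by
  rw [mem_EX] at hE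
  obtain ⟨hE1, hE2, -, -⟩ := hE
  rw [mem_VX] at hE1 hE2
  obtain ⟨hq, hqp, -, hqK⟩ := hE1
  obtain ⟨hp, hpp, -, hpK⟩ := hE2
  have hC0 : 0 ≤ C := by linarith
  have hD := StepE_D C j hC
  have hτ := StepE_tau η P j hη hM.pos
  constructor
  · have h5 := DS_step P j (2 * (C * 3 ^ j) + 1) (C * 5 ^ j) (2 ^ (j ^ 2 + 5 * j) * η)
      (2 ^ (j + 5) * (2 ^ (j ^ 2 + 5 * j) * η) / (P : ℝ) ^ j) F α (c (Lw w)).1 M (ql w) (c (Lw w)).2 γ hqp hq hqK h3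
      (by positivity) (by positivity) (qa (Lw w), v0 (Lw w)) (hL.mem0 _ h1)
    have h6 := DS_mono P (j + 1) _ _ _ _ F α (M, γ) hD hτ h5
    have h7 : qa w = ql w * qa (Lw w) := by rw [qa_eq, mul_comm]
    rw [h7]
    exact h6
  · have h5 := DS_step P j (2 * (C * 3 ^ j) + 1) (C * 5 ^ j) (2 ^ (j ^ 2 + 5 * j) * η)
      (2 ^ (j + 5) * (2 ^ (j ^ 2 + 5 * j) * η) / (P : ℝ) ^ j) F α (c (Rw w)).1 M (pf w) (c (Rw w)).2 γ hpp hp hpK h4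
      (by positivity) (by positivity) (pa (Rw w), v1 (Rw w)) (hL.mem1 _ h2)
    have h6 := DS_mono P (j + 1) _ _ _ _ F α (M, γ) hD hτ h5
    rw [pa_eq]
    exact h6

end Pool.Agent.H74.MDX
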